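import Pool.Agent.J6H6.JN.Core
import Pool.Agent.R649.BT.Node

set_option autoImplicit false

/-!
# Actions on complete linear orders: intervals without global fixed points
-/

universe u v

namespace Pool.Agent.J6H6.JN

open Pool.Agent.R649.BT
open Pool.Agent.Y479.LS (Aut)

theorem lev_map {G H : Type*} [Group G] [Group H] (f : G →* H) (h v : G) (r : ℚ) :
    f (lev h v r) = lev (f h) (f v) r := by
  unfold lev
  rw [map_mul, map_pow, map_zpow]

theorem lev_neg {G : Type v} [Group G] (h v : G) (r : ℚ) : lev h⁻¹ v (-r) = lev h v r := by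
  unfold lev
  rw [Rat.neg_den, Rat.neg_num, neg_neg, inv_zpow, ← zpow_neg]

section points
variable {X : Type u} [CompleteLinearOrder X]

theorem lt_pow_iff {g : X ≃o X} {w : X} {k : ℕ} (hk : 1 ≤ k) : w < (g ^ k) w ↔ w < g w := by
  have up : ∀ (g : X ≃o X) (w : X), w < g w → ∀ k : ℕ, 1 ≤ k → w < (g ^ k) w := by
    intro g w h k
    induction k with
    | zero => intro h0; omega
    | succ k ih =>
      intro _
      rw [pow_succ]
      show w < (g ^ k) (g w)
      rcases Nat.eq_zero_or_pos k with h0 | h0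
      · rw [h0, pow_zero]; exact h
      · exact (ih h0).trans ((g ^ k).lt_iff_lt.mpr h)
  have dn : ∀ (g : X ≃o X) (w : X), g w ≤ w → ∀ k : ℕ, (g ^ k) w ≤ w := by
    intro g w h k
    induction k with
    | zero => exact le_rfl
    | succ k ih =>
      rw [pow_succ]
      show (g ^ k) (g w) ≤ w
      exact ((g ^ k).monotone h).trans ih
  refine ⟨fun h => ?_, fun h => up g w h k hk⟩
  by_contra hcon
  exact absurd h (not_lt.mpr (dn g w (not_lt.mp hcon) k))

theorem pow_lt_iff {g : X ≃o X} {w : X} {k : ℕ} (hk : 1 ≤ k) : (g ^ k) w < w ↔ g w < w := by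
  have up : ∀ (g : X ≃o X) (w : X), w ≤ g w → ∀ k : ℕ, w ≤ (g ^ k) w := by
    intro g w h k
    induction k with
    | zero => exact le_rfl
    | succ k ih =>
      rw [pow_succ]
      show w ≤ (g ^ k) (g w)
      exact ih.trans ((g ^ k).monotone h)
  have dn : ∀ (g : X ≃o X) (w : X), g w < w → ∀ k : ℕ, 1 ≤ k → (g ^ k) w < w := by
    intro g w h k
    induction k with
    | zero => intro h0; omega
    | succ k ih =>
      intro _
      rw [pow_succ]
      show (g ^ k) (g w) < w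
      rcases Nat.eq_zero_or_pos k with h0 | h0
      · rw [h0, pow_zero]; exact h
      · exact ((g ^ k).lt_iff_lt.mpr h).trans (ih h0)
  refine ⟨fun h => ?_, fun h => dn g w h k hk⟩
  by_contra hcon
  exact absurd h (not_lt.mpr (up g w (not_lt.mp hcon) k))

theorem pow_fix_iff {g : X ≃o X} {w : X} {k : ℕ} (hk : 1 ≤ k) : (g ^ k) w = w ↔ g w = w := by
  constructor
  · intro h
    rcases lt_trichotomy (g w) w with h1 | h1 | h1
    · exact absurd h ((pow_lt_iff hk).mpr h1).ne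
    · exact h1
    · exact absurd h ((lt_pow_iff hk).mpr h1).ne'
  · intro h
    have := fix_zpow h (k : ℤ)
    rwa [zpow_natCast] at this

theorem mul_fix {g g' : X ≃o X} {w : X} (h : g w = w) (h' : g' w = w) : (g * g') w = w := by
  show g (g' w) = w
  rw [h', h]

theorem inv_lt_iff {g : X ≃o X} {w : X} : g⁻¹ w < w ↔ w < g w := by
  rw [← g.lt_iff_lt]
  have : g (g⁻¹ w) = w := g.apply_symm_apply w
  rw [this]

theorem lt_inv_iff {g : X ≃o X} {w : X} : w < g⁻¹ w ↔ g w < w := by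
  rw [← g.lt_iff_lt (x := w)]
  have : g (g⁻¹ w) = w := g.apply_symm_apply w
  rw [this]

theorem inv_fix_iff {g : X ≃o X} {w : X} : g⁻¹ w = w ↔ g w = w := by
  constructor
  · intro h
    have h1 := symm_fix (g := g⁻¹) h
    exact h1
  · intro h
    exact symm_fix h

theorem lev_fix {h v : X ≃o X} {w : X} (hh : h w = w) (hv : v w = w) (r : ℚ) :
    lev h v r w = w := by
  refine mul_fix ?_ (fix_zpow hh _)
  have := fix_zpow hv (r.den : ℤ)
  rwa [zpow_natCast] at this

theorem of_lev_fix {h v : X ≃o X} {w : X} (hh : h w = w) {r : ℚ} (hl : lev h v r w = w) :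
    v w = w := by
  rw [← pow_fix_iff r.pos]
  have : lev h v r w = (v ^ r.den) ((h ^ (-r.num)) w) := rfl
  rw [this, fix_zpow hh] at hl
  exact hl

end points

section core
variable {X : Type u} [CompleteLinearOrder X] {α β : X}

/-- Lower bound for a product on an interval on which `h` moves all points up. -/
theorem low {n : ℕ} {v : Fin (n + 2) → X ≃o X} {h : X ≃o X} (hz : ∃ z, α < z ∧ z < β)
    (hα : h α = α) (hβ : h β = β) (vα : ∀ i, v i α = α) (vβ : ∀ i, v i β = β)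
    (hc : ∀ i, Commute h (v i)) (h1 : Up α β h) {r : Fin (n + 2) → ℚ}
    (hle : ∀ i z, α < z → z < β → z ≤ lev h (v i) (r i) z) {s : ℚ} (hs : Jnn r s) :
    ¬ Dn α β (lev h (List.ofFn v).prod s) := by
  intro hdn
  let H : Aut.stab α β := ⟨h, hα, hβ⟩
  let V : Fin (n + 2) → Aut.stab α β := fun i => ⟨v i, vα i, vβ i⟩
  obtain ⟨z0, hz0⟩ := hz
  have : Nonempty (Set.Ioo α β) := ⟨⟨z0, hz0⟩⟩
  have hcH : ∀ i, Commute H (V i) := fun i => Subtype.ext (hc i).eq
  have val : (((List.ofFn V).prod : Aut.stab α β) : Aut X) = (List.ofFn v).prod := by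
    have e1 := map_list_prod (Aut.stab α β).subtype (List.ofFn V)
    rw [List.map_ofFn] at e1
    exact e1
  refine core (v := fun i => Aut.res α β (V i)) (h := Aut.res α β H)
    (fun i => (hcH i).map (Aut.res α β)) (fun z => h1 z.1 z.2.1 z.2.2) (r := r) (fun i z => ?_) hs
    (fun z => ?_)
  · -- lower bounds
    rw [← map_pow, ← map_zpow]
    have hm : (Aut.res α β (H ^ (r i).num) z).1 ∈ Set.Ioo α β := (Aut.res α β (H ^ (r i).num) z).2
    have h2 := hle i (Aut.res α β (H ^ (r i).num) z).1 hm.1 hm.2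
    have e1 : lev h (v i) (r i) (Aut.res α β (H ^ (r i).num) z).1 =
        (Aut.res α β (V i ^ (r i).den) z).1 := by
      have e2 : (Aut.res α β (H ^ (r i).num) z).1 = (h ^ (r i).num) z.1 := rfl
      have e3 : (Aut.res α β (V i ^ (r i).den) z).1 = (v i ^ (r i).den) z.1 := rfl
      have e4 : lev h (v i) (r i) ((h ^ (r i).num) z.1) =
          ((v i ^ (r i).den) * (h ^ (-(r i).num) * h ^ (r i).num)) z.1 := rfl
      rw [e2, e3, e4, ← zpow_add, neg_add_cancel, zpow_zero, mul_one]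
    rw [e1] at h2
    exact h2
  · -- the product
    have e0 : (List.ofFn fun i => Aut.res α β (V i)).prod = Aut.res α β (List.ofFn V).prod := by
      have e1 := map_list_prod (Aut.res α β) (List.ofFn V)
      rw [List.map_ofFn] at e1
      exact e1.symm
    rw [e0, ← map_pow, ← map_zpow]
    have hm : (Aut.res α β (H ^ s.num) z).1 ∈ Set.Ioo α β := (Aut.res α β (H ^ s.num) z).2
    have h2 := hdn (Aut.res α β (H ^ s.num) z).1 hm.1 hm.2
    have e1 : lev h (List.ofFn v).prod s (Aut.res α β (H ^ s.num) z).1 =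
        (Aut.res α β ((List.ofFn V).prod ^ s.den) z).1 := by
      have e2 : (Aut.res α β (H ^ s.num) z).1 = (h ^ s.num) z.1 := rfl
      have e3 : (Aut.res α β ((List.ofFn V).prod ^ s.den) z).1 =
          ((List.ofFn v).prod ^ s.den) z.1 := by
        have e5 : (((List.ofFn V).prod ^ s.den : Aut.stab α β) : Aut X) =
            ((List.ofFn v).prod ^ s.den : X ≃o X) := by
          rw [Subgroup.coe_pow, val]
          rfl
        exact DFunLike.congr_fun (F := X ≃o X) e5 z.1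
      have e4 : lev h (List.ofFn v).prod s ((h ^ s.num) z.1) =
          (((List.ofFn v).prod ^ s.den) * (h ^ (-s.num) * h ^ s.num)) z.1 := rfl
      rw [e2, e3, e4, ← zpow_add, neg_add_cancel, zpow_zero, mul_one]
    rw [e1] at h2
    exact h2

/-- The same where `h` moves all points down. -/
theorem low' {n : ℕ} {v : Fin (n + 2) → X ≃o X} {h : X ≃o X} (hz : ∃ z, α < z ∧ z < β)
    (hα : h α = α) (hβ : h β = β) (vα : ∀ i, v i α = α) (vβ : ∀ i, v i β = β)
    (hc : ∀ i, Commute h (v i)) (h1 : Dn α β h) {r : Fin (n + 2) → ℚ}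
    (hle : ∀ i z, α < z → z < β → lev h (v i) (r i) z ≤ z) {s : ℚ} (hs : Jnn r s) :
    ¬ Up α β (lev h (List.ofFn v).prod s) := by
  intro hup
  obtain ⟨z0, hz1, hz2⟩ := hz
  let D : (X ≃o X) →* (Xᵒᵈ ≃o Xᵒᵈ) := Aut.dual
  have hD : ∀ (g : X ≃o X) (z : X), D g (OrderDual.toDual z) = OrderDual.toDual (g z) :=
    fun _ _ => rfl
  refine low (X := Xᵒᵈ) (α := OrderDual.toDual β) (β := OrderDual.toDual α)
    (v := fun i => D (v i)) (h := D h) ⟨OrderDual.toDual z0, hz2, hz1⟩
    hβ hα vβ vα (fun i => (hc i).map D) (fun z z1 z2 => h1 _ z2 z1) (r := r)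
    (fun i z z1 z2 => ?_) hs (fun z z1 z2 => ?_)
  · rw [← lev_map]
    exact hle i _ z2 z1
  · have e1 : (List.ofFn fun i => D (v i)).prod = D (List.ofFn v).prod := by
      rw [map_list_prod, List.map_ofFn]
      rfl
    rw [e1, ← lev_map]
    exact hup _ z2 z1

/-- Upper bound. -/
theorem upp {n : ℕ} {v : Fin (n + 2) → X ≃o X} {h : X ≃o X} (hz : ∃ z, α < z ∧ z < β)
    (hα : h α = α) (hβ : h β = β) (vα : ∀ i, v i α = α) (vβ : ∀ i, v i β = β)
    (hc : ∀ i, Commute h (v i)) (h1 : Up α β h) {r : Fin (n + 2) → ℚ}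
    (hle : ∀ i z, α < z → z < β → lev h (v i) (r i) z ≤ z) {s : ℚ}
    (hs : Jnn (fun i => -r i) (-s)) : ¬ Up α β (lev h (List.ofFn v).prod s) := by
  rw [← lev_neg]
  exact low' (h := h⁻¹) hz (symm_fix hα) (symm_fix hβ) vα vβ (fun i => (hc i).inv_left) (h1.inv hα hβ)
    (fun i z z1 z2 => by rw [lev_neg]; exact hle i z z1 z2) hs

theorem upp' {n : ℕ} {v : Fin (n + 2) → X ≃o X} {h : X ≃o X} (hz : ∃ z, α < z ∧ z < β)
    (hα : h α = α) (hβ : h β = β) (vα : ∀ i, v i α = α) (vβ : ∀ i, v i β = β)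
    (hc : ∀ i, Commute h (v i)) (h1 : Dn α β h) {r : Fin (n + 2) → ℚ}
    (hle : ∀ i z, α < z → z < β → z ≤ lev h (v i) (r i) z) {s : ℚ}
    (hs : Jnn (fun i => -r i) (-s)) : ¬ Dn α β (lev h (List.ofFn v).prod s) := by
  rw [← lev_neg]
  exact low (h := h⁻¹) hz (symm_fix hα) (symm_fix hβ) vα vβ (fun i => (hc i).inv_left) (h1.inv hα hβ)
    (fun i z z1 z2 => by rw [lev_neg]; exact hle i z z1 z2) hs

end core

section rigid
variable {G : Type v} [Group G] {x e : G}

theorem exists_interval {X : Type u} [CompleteLinearOrder X] (ρ : G →* (X ≃o X)) {v : X}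
    (hv : ¬ ∀ g, ρ g v = v) : ∃ α β, α < v ∧ v < β ∧ (∀ g, ρ g α = α) ∧ (∀ g, ρ g β = β) ∧
      ∀ w, α < w → w < β → ¬ ∀ g, ρ g w = w := by
  set S : Set X := {p | p ≤ v ∧ ∀ g, ρ g p = p} with hS
  set T : Set X := {p | v ≤ p ∧ ∀ g, ρ g p = p} with hT
  have hα : ∀ g, ρ g (sSup S) = sSup S := fun g => by
    refine sSup_fix (ρ g) (fun w hw => ?_) (fun w hw => ?_)
    · rw [hw.2]; exact hw
    · rw [symm_fix (hw.2 g)]; exact hw
  have hβ : ∀ g, ρ g (sInf T) = sInf T := fun g => by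
    refine sInf_fix (ρ g) (fun w hw => ?_) (fun w hw => ?_)
    · rw [hw.2]; exact hw
    · rw [symm_fix (hw.2 g)]; exact hw
  have h1 : sSup S < v := by
    refine lt_of_le_of_ne (sSup_le fun w hw => hw.1) fun e => ?_
    rw [e] at hα; exact hv hα
  have h2 : v < sInf T := by
    refine lt_of_le_of_ne (le_sInf fun w hw => hw.1) fun e => ?_
    rw [← e] at hβ; exact hv hβ
  refine ⟨sSup S, sInf T, h1, h2, hα, hβ, fun w w1 w2 w5 => ?_⟩
  rcases le_total w v with w6 | w6
  · exact absurd (le_sSup (show w ∈ S from ⟨w6, w5⟩)) (not_le.mpr w1)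
  · exact absurd (sInf_le (show w ∈ T from ⟨w6, w5⟩)) (not_le.mpr w2)

/-- A group with a commuting pair `x, e`: in order preserving actions on complete linear orders
common fixed points of `x` and `e` are global fixed points, and the action is trivial if `x` and
`e` move the same points in opposite directions. -/
structure Rigid (G : Type v) [Group G] (x e : G) : Prop where
  comm : Commute x e
  fix : ∀ (X : Type u) [CompleteLinearOrder X] (ρ : G →* (X ≃o X)) (p : X), ρ x p = p →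
    ρ e p = p → ∀ g, ρ g p = p
  no : ∀ (X : Type u) [CompleteLinearOrder X] (ρ : G →* (X ≃o X)), SCap (ρ x) (ρ e) →
    ∀ g p, ρ g p = p

theorem Rigid.no' (h : Rigid.{u} G x e) {X : Type u} [CompleteLinearOrder X]
    (ρ : G →* (X ≃o X)) {α β v : X} (hα : ∀ g, ρ g α = α) (hβ : ∀ g, ρ g β = β) (h1 : α < v)
    (h2 : v < β) (hh : (Up α β (ρ x) ∧ Dn α β (ρ e)) ∨ (Dn α β (ρ x) ∧ Up α β (ρ e))) :
    False := by
  have : Fact (α ≤ β) := ⟨(h1.trans h2).le⟩
  let ρ' : G →* (Set.Icc α β ≃o Set.Icc α β) := restr ρ hα hβ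
  have ends : ∀ z : Set.Icc α β, (α < z.1 ∧ z.1 < β) ∨ ∀ g, ρ' g z = z := by
    intro z
    rcases eq_or_lt_of_le z.2.1 with he | hl
    · right; intro g
      apply Subtype.ext
      show ρ g z.1 = z.1
      rw [← he, hα]
    · rcases eq_or_lt_of_le z.2.2 with he | hr
      · right; intro g
        apply Subtype.ext
        show ρ g z.1 = z.1
        rw [he, hβ]
      · exact Or.inl ⟨hl, hr⟩
  have hcc : ∀ z : X, ρ x (ρ e z) = ρ e (ρ x z) := by
    intro z
    rw [← RelIso.mul_apply, ← RelIso.mul_apply, ← map_mul, ← map_mul, h.comm.eq]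
  have hd : SCap (ρ' x) (ρ' e) := by
    refine ⟨fun z => Subtype.ext (hcc z.1), fun z hz => ?_, fun z hz => ?_, fun z hz => ?_⟩
    · rcases ends z with he | he
      · rcases hh with ⟨u1, u2⟩ | ⟨u1, u2⟩
        · exact u2 z.1 he.1 he.2
        · have hz' : z.1 < ρ x z.1 := hz
          exact absurd (u1 z.1 he.1 he.2) (not_lt.mpr hz'.le)
      · rw [he] at hz; exact absurd hz (lt_irrefl _)
    · rcases ends z with he | he
      · rcases hh with ⟨u1, u2⟩ | ⟨u1, u2⟩
        · have hz' : ρ x z.1 < z.1 := hz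
          exact absurd (u1 z.1 he.1 he.2) (not_lt.mpr hz'.le)
        · exact u2 z.1 he.1 he.2
      · rw [he] at hz; exact absurd hz (lt_irrefl _)
    · rcases ends z with he | he
      · have hz' : ρ x z.1 = z.1 := congrArg Subtype.val hz
        rcases hh with ⟨u1, u2⟩ | ⟨u1, u2⟩
        · exact absurd hz' (u1 z.1 he.1 he.2).ne'
        · exact absurd hz' (u1 z.1 he.1 he.2).ne
      · exact he e
  have h3 := h.no (Set.Icc α β) ρ' hd x ⟨v, h1.le, h2.le⟩
  have h4 : ρ x v = v := congrArg Subtype.val h3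
  rcases hh with ⟨u1, u2⟩ | ⟨u1, u2⟩
  · exact absurd h4 (u1 v h1 h2).ne'
  · exact absurd h4 (u1 v h1 h2).ne

theorem Rigid.key (h : Rigid.{u} G x e) {X : Type u} [CompleteLinearOrder X]
    (ρ : G →* (X ≃o X)) {A B C D : ℤ} (hG : Good A B C D) (v : X) :
    (∀ g, ρ g v = v) ∨
    (v < ρ (x ^ A * (x⁻¹ * e) ^ B) v ∧
      ρ ((x ^ A * (x⁻¹ * e) ^ B) * (x ^ C * (x⁻¹ * e) ^ D)) v < v) ∨
    (ρ (x ^ A * (x⁻¹ * e) ^ B) v < v ∧
      v < ρ ((x ^ A * (x⁻¹ * e) ^ B) * (x ^ C * (x⁻¹ * e) ^ D)) v) := by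
  by_cases hv : ∀ g, ρ g v = v
  · exact Or.inl hv
  right
  obtain ⟨α, β, h1, h2, hα, hβ, hno⟩ := exists_interval ρ hv
  set a := x⁻¹ * e with ha
  have hca : Commute x a := (Commute.refl x).inv_right.mul_right h.comm
  have exa : ρ x * ρ a = ρ e := by
    rw [← map_mul, ha, mul_inv_cancel_left]
  have hc : Commute (ρ x) (ρ a) := by
    show _ * _ = _ * _
    rw [← map_mul, hca.eq, map_mul]
  have nc : ∀ w, α < w → w < β → ρ x w = w → ρ a w ≠ w := by
    intro w w1 w2 w3 w4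
    refine hno w w1 w2 (h.fix X ρ w w3 ?_)
    rw [← exa]
    exact mul_fix w3 w4
  have := wedge hc (hα x) (hβ x) (hα a) (hβ a) nc
    (fun u1 u2 => h.no' ρ hα hβ h1 h2 (Or.inl ⟨u1, by rwa [exa] at u2⟩))
    (fun u1 u2 => h.no' ρ hα hβ h1 h2 (Or.inr ⟨u1, by rwa [exa] at u2⟩)) hG
  have e1 : ρ (x ^ A * a ^ B) = ρ x ^ A * ρ a ^ B := by rw [map_mul, map_zpow, map_zpow]
  have e2 : ρ ((x ^ A * a ^ B) * (x ^ C * a ^ D)) =
      (ρ x ^ A * ρ a ^ B) * (ρ x ^ C * ρ a ^ D) := by
    rw [map_mul, map_mul, map_mul, map_zpow, map_zpow, map_zpow, map_zpow]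
  rw [e1, e2]
  rcases this with ⟨u1, u2⟩ | ⟨u1, u2⟩
  · exact Or.inl ⟨u1 v h1 h2, u2 v h1 h2⟩
  · exact Or.inr ⟨u1 v h1 h2, u2 v h1 h2⟩

theorem Rigid.tameE (h : Rigid.{u} G x e) : TameE.{u} G x e := by
  have hc := h.comm
  have key : ∀ (X : Type u) [CompleteLinearOrder X] (ρ : G →* (X ≃o X)) (A B C D : ℕ),
      1 ≤ A → 1 ≤ B → 1 ≤ C → 1 ≤ D → ∀ v, (∀ g, ρ g v = v) ∨
      (v < ρ (x ^ A * e ^ B) v ∧ ρ (x ^ C * e ^ D)⁻¹ v < v) ∨
      (ρ (x ^ A * e ^ B) v < v ∧ v < ρ (x ^ C * e ^ D)⁻¹ v) := by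
    intro X _ ρ A B C D hA hB hC hD v
    have hG : Good ((A : ℤ) + B) B (-((A : ℤ) + B + C + D)) (-((B : ℤ) + D)) := by
      left
      refine ⟨by omega, by omega, by omega, by omega⟩
    have k := h.key ρ hG v
    have w : ∀ i j : ℤ, x ^ i * (x⁻¹ * e) ^ j = x ^ (i - j) * e ^ j := by
      intro i j
      rw [(hc.inv_left).mul_zpow, ← mul_assoc, inv_zpow, ← zpow_neg, ← zpow_add]
      rfl
    have e1 : x ^ ((A : ℤ) + B) * (x⁻¹ * e) ^ (B : ℤ) = x ^ A * e ^ B := by
      rw [w]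
      have : (A : ℤ) + B - B = A := by ring
      rw [this, zpow_natCast, zpow_natCast]
    have e2 : (x ^ ((A : ℤ) + B) * (x⁻¹ * e) ^ (B : ℤ)) *
        (x ^ (-((A : ℤ) + B + C + D)) * (x⁻¹ * e) ^ (-((B : ℤ) + D))) = (x ^ C * e ^ D)⁻¹ := by
      rw [w, w]
      have c1 : Commute (e ^ (B : ℤ)) (x ^ (-((A : ℤ) + B + C + D) - -((B : ℤ) + D))) :=
        (hc.symm.zpow_left _).zpow_right _
      have a1 : (A : ℤ) + B - B + (-((A : ℤ) + B + C + D) - -((B : ℤ) + D)) = -(C : ℤ) := by ring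
      have a2 : (B : ℤ) + -((B : ℤ) + D) = -(D : ℤ) := by ring
      calc x ^ ((A : ℤ) + B - B) * e ^ (B : ℤ) *
            (x ^ (-((A : ℤ) + B + C + D) - -((B : ℤ) + D)) * e ^ (-((B : ℤ) + D)))
          = x ^ ((A : ℤ) + B - B) * (e ^ (B : ℤ) *
            x ^ (-((A : ℤ) + B + C + D) - -((B : ℤ) + D))) * e ^ (-((B : ℤ) + D)) := by
              simp only [mul_assoc]
        _ = x ^ ((A : ℤ) + B - B) * (x ^ (-((A : ℤ) + B + C + D) - -((B : ℤ) + D)) *
            e ^ (B : ℤ)) * e ^ (-((B : ℤ) + D)) := by rw [c1.eq]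
        _ = x ^ ((A : ℤ) + B - B + (-((A : ℤ) + B + C + D) - -((B : ℤ) + D))) *
            e ^ ((B : ℤ) + -((B : ℤ) + D)) := by
              rw [zpow_add x ((A : ℤ) + B - B), zpow_add e (B : ℤ)]
              simp only [mul_assoc]
        _ = x ^ (-(C : ℤ)) * e ^ (-(D : ℤ)) := by rw [a1, a2]
        _ = (x ^ C * e ^ D)⁻¹ := by
              rw [(hc.pow_pow C D).eq, mul_inv_rev, zpow_neg, zpow_neg, zpow_natCast,
                zpow_natCast]
    rw [e2] at k
    rw [e1] at k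
    exact k
  refine ⟨hc, fun X _ ρ A B C D hA hB hC hD => ?_, fun X _ ρ A B hA hB p hp => ?_⟩
  · have hk := key X ρ A B C D hA hB hC hD
    have hcc : Commute (x ^ A * e ^ B) (x ^ C * e ^ D)⁻¹ := by
      refine Commute.inv_right ?_
      have c1 : Commute (x ^ A) (x ^ C * e ^ D) :=
        ((Commute.refl x).pow_pow A C).mul_right (hc.pow_pow A D)
      have c2 : Commute (e ^ B) (x ^ C * e ^ D) :=
        (hc.symm.pow_pow B C).mul_right ((Commute.refl e).pow_pow B D)
      exact c1.mul_left c2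
    refine ⟨fun v => ?_, fun v hv => ?_, fun v hv => ?_, fun v hv => ?_⟩
    · rw [← RelIso.mul_apply, ← RelIso.mul_apply, ← map_mul, ← map_mul, hcc.eq]
    · rcases hk v with k | k | k
      · rw [k] at hv; exact absurd hv (lt_irrefl _)
      · exact k.2
      · exact absurd hv (not_lt.mpr k.1.le)
    · rcases hk v with k | k | k
      · rw [k] at hv; exact absurd hv (lt_irrefl _)
      · exact absurd hv (not_lt.mpr k.1.le)
      · exact k.2
    · rcases hk v with k | k | k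
      · exact k _
      · exact absurd hv k.1.ne'
      · exact absurd hv k.1.ne
  · rcases key X ρ A B 1 1 hA hB le_rfl le_rfl p with k | k | k
    · exact k
    · exact absurd hp k.1.ne'
    · exact absurd hp k.1.ne

theorem Rigid.of_piece (hc : Commute x e) (h : Piece.{u} G x (x⁻¹ * e)) : Rigid.{u} G x e := by
  refine ⟨hc, fun X _ ρ p hx he => h.fix X ρ p hx ?_, fun X _ ρ hs => h.closed X ρ ?_⟩
  · rw [map_mul, map_inv]
    exact mul_fix (inv_fix_iff.mpr hx |> fun h => by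
      have h1 : (ρ x)⁻¹ p = p := h
      exact h1) he
  · have h1 := hs.cap.dom
    rwa [← map_inv, ← map_mul] at h1

end rigid

end Pool.Agent.J6H6.JN
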