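import Pool.Agent.J6H6.JN.Corner

set_option autoImplicit false

/-!
# Three order automorphisms at an extremal triple: the algebraic part
-/

namespace Pool.Agent.J6H6.JN

open Pool.Agent.Y479.LS

section algebra
variable {P : Type*} [Group P] [PartialOrder P] [MulLeftMono P] [MulRightMono P]

theorem one_le_pow' {b : P} (hb : 1 ≤ b) (n : ℕ) : 1 ≤ b ^ n := by
  have := pow_le_pow_of_le hb n
  rwa [one_pow] at this

theorem pow_lt_of_lt {b : P} (hb : 1 < b) {m n : ℕ} (h : m < n) : b ^ m < b ^ n := by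
  obtain ⟨k, rfl⟩ : ∃ k, n = m + (k + 1) := ⟨n - m - 1, by omega⟩
  rw [pow_add, pow_succ]
  exact lt_mul_of_one_lt_right' _ (lt_of_lt_of_le hb
    (le_mul_of_one_le_left' (one_le_pow' hb.le k)))

theorem le_of_pow_le {b : P} (hb : 1 < b) {m n : ℕ} (h : b ^ m ≤ b ^ n) : m ≤ n := by
  by_contra hcon
  exact absurd (pow_lt_of_lt hb (not_le.mp hcon)) (not_lt_of_ge h)

/-- If `V a ≤ b ^ 2 e ≤ a V` for `V = a b` then `a`, `b` commute and both are equalities. -/
theorem sandwich {a b c : P} (h1 : a * b * a ≤ c) (h2 : c ≤ a * (a * b)) (hc : Commute c b) :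
    a * b = b * a ∧ a * (a * b) = c := by
  -- `V c ≤ c V` and `c a ≤ a c`
  have k1 : a * b * c ≤ c * (a * b) := by
    calc a * b * c ≤ a * b * (a * (a * b)) := mul_le_mul_right h2 _
      _ = a * b * a * (a * b) := by simp only [mul_assoc]
      _ ≤ c * (a * b) := mul_le_mul_left h1 _
  have k2 : c * a ≤ a * (a * b) * a := mul_le_mul_left h2 _
  have k3 : a * (a * b) * a ≤ a * c := by
    calc a * (a * b) * a = a * (a * b * a) := by simp only [mul_assoc]
      _ ≤ a * c := mul_le_mul_right h1 _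
  have k4 : a * c ≤ c * a := by
    have : a * c * b ≤ c * a * b := by
      calc a * c * b = a * b * c := by rw [mul_assoc, hc.eq, mul_assoc]
        _ ≤ c * (a * b) := k1
        _ = c * a * b := by rw [mul_assoc]
    exact le_of_mul_le_mul_right' this
  have k5 : c * a = a * c := le_antisymm (k2.trans k3) k4
  have k6 : a * (a * b) * a = c * a := le_antisymm (k3.trans (le_of_eq k5.symm)) k2
  have k7 : a * (a * b) = c := mul_right_cancel k6
  have k8 : a * (a * b * a) = a * c := by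
    rw [← k5, ← k6]; simp only [mul_assoc]
  have k9 : a * b * a = c := mul_left_cancel k8
  refine ⟨?_, k7⟩
  have : a * (a * b) = a * (b * a) := by rw [k7, ← k9, mul_assoc]
  exact mul_left_cancel this

/-- The case `p + 2 ≤ q`. -/
theorem alg {a b g : P} {p q p' q' : ℕ} (b1 : 1 < b) (cb : Commute g b)
    (ha : g ^ p ≤ a ^ q) (hV : (a * b) ^ q' ≤ g ^ p') (hb : g ≤ b ^ (q + q'))
    (hF : p' * q = p * q' + 1) (h2 : 2 ≤ q) (hlt : q < q') (hp' : p' < q') (hpq : p + 2 ≤ q)
    (k1 : b ^ (p + p' - 1) ≤ a) (k2 : a * b ^ (q + q' - (p + p')) ≤ g) : False := by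
  have hp1 : 1 ≤ p' := by
    rcases Nat.eq_zero_or_pos p' with h | h
    · rw [h, zero_mul] at hF; omega
    · exact h
  obtain ⟨e, he⟩ : ∃ e, p + p' = e + 1 := ⟨p + p' - 1, by omega⟩
  obtain ⟨r, hr⟩ : ∃ r, q + q' = e + 1 + r := ⟨q + q' - (e + 1), by omega⟩
  have e1 : p + p' - 1 = e := by omega
  have e2 : q + q' - (p + p') = r := by omega
  rw [e1] at k1
  rw [e2] at k2
  -- `b ^ (e + 1) ≤ V`
  have V1 : b ^ (e + 1) ≤ a * b := by rw [pow_succ]; exact mul_le_mul_left k1 _
  have eqm : (q + q') * p' = (e + 1) * q' + 1 := by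
    rw [← he]
    calc (q + q') * p' = p' * q + p' * q' := by ring
      _ = p * q' + 1 + p' * q' := by rw [hF]
      _ = (p + p') * q' + 1 := by ring
  have V2 : (a * b) ^ q' ≤ b ^ ((e + 1) * q' + 1) := by
    refine hV.trans ((pow_le_pow_of_le hb p').trans (le_of_eq ?_))
    rw [← pow_mul, eqm]
  have V3 : a * b * (a * b) ≤ b ^ (2 * (e + 1) + 1) := by
    obtain ⟨n, hn⟩ : ∃ n, q' = n + 2 := ⟨q' - 2, by omega⟩
    rw [hn, show (e + 1) * (n + 2) + 1 = (2 * (e + 1) + 1) + (e + 1) * n by ring,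
      add_comm n 2, pow_add (a * b), pow_add b (2 * (e + 1) + 1), pow_mul b (e + 1)] at V2
    have h3 : a * b * (a * b) * (b ^ (e + 1)) ^ n ≤ b ^ (2 * (e + 1) + 1) * (b ^ (e + 1)) ^ n := by
      refine le_trans (mul_le_mul_right (pow_le_pow_of_le V1 n) _) ?_
      rw [← pow_two]; exact V2
    exact le_of_mul_le_mul_right' h3
  have V4 : a * b * a ≤ b ^ (2 * (e + 1)) := by
    have : a * b * a * b ≤ b ^ (2 * (e + 1)) * b := by
      rw [← pow_succ, mul_assoc (a * b)]; exact V3
    exact le_of_mul_le_mul_right' this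
  -- `b ^ (2 e + 1) ≤ a ^ 2`
  have A1 : b ^ (2 * e + 1) ≤ a * a := by
    obtain ⟨j, hj⟩ : ∃ j, q = p + j + 2 := ⟨q - p - 2, by omega⟩
    set n := p + j with hn
    have hrn : r * n = 2 * e + 1 + (q + q') * j := by
      have hr' : ((q : ℤ) + q') = e + 1 + r := by exact_mod_cast hr
      have he' : (p : ℤ) + p' = e + 1 := by exact_mod_cast he
      have hF' : (p' : ℤ) * q = p * q' + 1 := by exact_mod_cast hF
      have hj' : (q : ℤ) = p + j + 2 := by exact_mod_cast hj
      have hn' : (n : ℤ) = p + j := by exact_mod_cast hn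
      have hE : ((e : ℤ) + 1) * q = p * (q + q') + 1 := by rw [← he']; linarith
      have : (r : ℤ) * n = 2 * e + 1 + (q + q') * j := by
        have hr2 : (r : ℤ) = q + q' - (e + 1) := by linarith
        have hn2 : (n : ℤ) = q - 2 := by linarith
        have hj2 : (j : ℤ) = q - 2 - p := by linarith
        rw [hr2, hn2, hj2]
        linear_combination (-1 : ℤ) * hE
      exact_mod_cast this
    have cbr : Commute g (b ^ r) := cb.pow_right r
    set B := g * (b ^ r)⁻¹ with hB
    have aB : a ≤ B := by rw [hB]; exact le_mul_inv_iff_mul_le.mpr k2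
    have Bn : B ^ n = g ^ n * (b ^ (r * n))⁻¹ := by
      rw [hB, cbr.inv_right.mul_pow, inv_pow, ← pow_mul]
    have B1 : b ^ (2 * e + 1) * B ^ n ≤ g ^ p := by
      rw [Bn, ← mul_assoc, mul_inv_le_iff_le_mul, hrn, pow_add b (2 * e + 1), hn, pow_add g]
      have c1 : b ^ (2 * e + 1) * (g ^ p * g ^ j) = g ^ p * (b ^ (2 * e + 1) * g ^ j) := by
        have := (cb.pow_pow p (2 * e + 1)).eq
        rw [← mul_assoc, ← this, mul_assoc]
      rw [c1, pow_mul b]
      exact mul_le_mul_right (mul_le_mul_right (pow_le_pow_of_le hb j) _) _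
    have B2 : g ^ p ≤ a * a * B ^ n := by
      refine ha.trans ?_
      rw [hj, add_comm n 2, pow_add, pow_two]
      exact mul_le_mul_right (pow_le_pow_of_le aB n) _
    exact le_of_mul_le_mul_right' (B1.trans B2)
  have A2 : b ^ (2 * (e + 1)) ≤ a * (a * b) := by
    rw [show 2 * (e + 1) = (2 * e + 1) + 1 by ring, pow_succ, ← mul_assoc a]
    exact mul_le_mul_left A1 _
  obtain ⟨C1, C2⟩ := sandwich V4 A2 ((Commute.refl b).pow_left _)
  have hab : Commute a b := C1
  -- everything commutes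
  have W : (a * b) ^ (2 * q') = b ^ ((2 * (e + 1) + 1) * q') := by
    rw [pow_mul, pow_mul]
    congr 1
    calc (a * b) ^ 2 = a * (b * a) * b := by rw [pow_two]; simp only [mul_assoc]
      _ = a * (a * b) * b := by rw [← C1]
      _ = b ^ (2 * (e + 1) + 1) := by rw [C2, ← pow_succ]
  have W2 := pow_le_pow_of_le V2 2
  rw [← pow_mul, ← pow_mul, mul_comm q' 2, W] at W2
  have W3 := le_of_pow_le b1 W2
  nlinarith

end algebra

end Pool.Agent.J6H6.JN
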