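import Pool.Agent.J6H6.JN.Comp
import Pool.Agent.Results.MP_9ae2f3_gt.GluedKnotExteriors

set_option autoImplicit false

/-!
# Gluing two pieces
-/

universe u

namespace Pool.Agent.J6H6.JN

open Pool.Agent.R649.BT (SCap TameE)
open Pool.Agent.Results.MP_9ae2f3_gt.GluedKnotExteriors (NoOrders noOrders)

theorem glue_noOrders {N₁ N₂ : Type} {G : Type u} [Group N₁] [Group N₂] [Group G] (j₁ : N₁ →* G)
    (j₂ : N₂ →* G) {x₁ e₁ : N₁} {x₂ e₂ : N₂} (R₁ : Rigid.{u} N₁ x₁ e₁) (R₂ : Rigid.{u} N₂ x₂ e₂)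
    (gen : j₁.range ⊔ j₂.range = ⊤) (hx : InCone (j₂ x₂) (j₂ e₂) (j₁ x₁))
    (he : InCone (j₂ x₂) (j₂ e₂) (j₁ e₁)⁻¹) : NoOrders G := by
  refine noOrders fun X _ ρ g p => ?_
  have d := dir_of_cone R₂.tameE j₂ hx he X ρ
  have hs : SCap ((ρ.comp j₁) x₁) ((ρ.comp j₁) e₁) := by
    refine ⟨fun v => ?_, fun v hv => ?_, fun v hv => ?_, fun v hv => ?_⟩
    · rw [← RelIso.mul_apply, ← RelIso.mul_apply, ← map_mul, ← map_mul, R₁.comm.eq]
    · rcases d v with k | k | k
      · have := k.2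
        rw [map_inv, lt_inv_iff] at this
        exact this
      · exact absurd k.1 (not_lt.mpr (le_of_lt hv))
      · exact absurd k.1 (ne_of_gt hv)
    · rcases d v with k | k | k
      · exact absurd k.1 (not_lt.mpr (le_of_lt hv))
      · have := k.2
        rw [map_inv, inv_lt_iff] at this
        exact this
      · exact absurd k.1 (ne_of_lt hv)
    · rcases d v with k | k | k
      · exact absurd hv (ne_of_gt k.1)
      · exact absurd hv (ne_of_lt k.1)
      · have := k.2.1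
        rw [map_inv, inv_fix_iff] at this
        exact this
  have t1 : ∀ g z, ρ (j₁ g) z = z := R₁.no X (ρ.comp j₁) hs
  have t2 : ∀ g ∈ j₂.range, ρ g p = p := by
    rcases d p with k | k | k
    · exact absurd (t1 x₁ p) k.1.ne'
    · exact absurd (t1 x₁ p) k.1.ne
    · exact k.2.2
  have hle : (⊤ : Subgroup G) ≤ (MulAction.stabilizer (X ≃o X) p).comap ρ := by
    rw [← gen, sup_le_iff]
    constructor
    · rintro _ ⟨g, rfl⟩; exact t1 g p
    · intro g hg; exact t2 g hg
  exact hle (Subgroup.mem_top g)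

end Pool.Agent.J6H6.JN
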