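import Pool.Agent.J6H6.JN.TLeaf
import Pool.Agent.J6H6.JN.Glue

set_option autoImplicit false

/-!
# Alternating link diagrams with splices at the crossings
-/

universe u v

namespace Pool.Agent.J6H6.JN

open Relation
open Pool.Agent.R649.BT
open Pool.Agent.Y479.LS (Aut cAt cOpp Path Adj path_prod)

/-- One colour of a connected alternating link diagram on the sphere. `star v` is the list of the
corners of the region `v` as they are met along its boundary (clockwise for the white regions,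
counterclockwise for the black ones), and it closes up. -/
structure Colour {V E C : Type} (v₁ v₂ : C → V) (e₁ e₂ : C → E)
    (star : V → List (C × Bool)) : Prop where
  mem : ∀ v k, k ∈ star v ↔ cAt v₁ v₂ k = v
  nodup : ∀ v, (star v).Nodup
  path : ∀ v, ∃ e, Path e₁ e₂ e (star v) e
  conn : ∀ v v', ReflTransGen (Adj v₁ v₂) v v'

/-- A connected alternating link diagram on the sphere. -/
structure Diagram where
  /-- white regions -/
  W : Type
  /-- black regions -/
  B : Type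
  /-- crossings -/
  C : Type
  finW : Finite W
  finB : Finite B
  /-- the corners of a crossing are `w₁, b₁, w₂, b₂`, in counterclockwise order, and the overpass
  separates `w₁, b₁` from `w₂, b₂` -/
  w₁ : C → W
  b₁ : C → B
  w₂ : C → W
  b₂ : C → B
  starW : W → List (C × Bool)
  starB : B → List (C × Bool)
  white : Colour w₁ w₂ b₁ b₂ starW
  black : Colour b₁ b₂ w₁ w₂ starB

/-- The curve `b₂⁻¹ b₁` at a crossing. -/
def Diagram.curr (D : Diagram) {G : Type*} [Group G] (b : D.B → G) (c : D.C) : G :=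
  (b (D.b₂ c))⁻¹ * b (D.b₁ c)

/-- The curve `w₁⁻¹ w₂` at a crossing. -/
def Diagram.volt (D : Diagram) {G : Type*} [Group G] (w : D.W → G) (c : D.C) : G :=
  (w (D.w₁ c))⁻¹ * w (D.w₂ c)

/-- `x` and `y` are opposite to each other at a crossing other than `c₀`. -/
def AdjOff {V C : Type} (v₁ v₂ : C → V) (c₀ : C) (x y : V) : Prop :=
  ∃ k : C × Bool, k.1 ≠ c₀ ∧ cAt v₁ v₂ k = x ∧ cOpp v₁ v₂ k = y

/-- The crossing `c₀` is not nugatory: both checkerboard graphs are connected without `c₀`. -/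
def Diagram.Essential (D : Diagram) (c₀ : D.C) : Prop :=
  (∀ v v', ReflTransGen (AdjOff D.w₁ D.w₂ c₀) v v') ∧
    ∀ v v', ReflTransGen (AdjOff D.b₁ D.b₂ c₀) v v'

/-- Some positive power of `g` is a product of powers of `a` and `b` with exponents `A, B ≥ 0`, not
both `0`. -/
def InCl {G : Type*} [Group G] (a b g : G) : Prop :=
  ∃ k A B : ℕ, 1 ≤ k ∧ 1 ≤ A + B ∧ g ^ k = a ^ A * b ^ B

section point

variable {X : Type*} [LinearOrder X]

/-- `f` and `g` move `z` in the same direction. -/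
def Same (f g : Aut X) (z : X) : Prop :=
  (z < f z ∧ z < g z) ∨ (f z < z ∧ g z < z) ∨ (f z = z ∧ g z = z)

theorem Same.symm {f g : Aut X} {z : X} (h : Same f g z) : Same g f z := by
  rcases h with h | h | h
  · exact Or.inl ⟨h.2, h.1⟩
  · exact Or.inr (Or.inl ⟨h.2, h.1⟩)
  · exact Or.inr (Or.inr ⟨h.2, h.1⟩)

theorem aut_lt_inv {f : Aut X} {z : X} : z < f⁻¹ z ↔ f z < z := by
  rw [← Aut.lt_iff f, Aut.self_inv]

theorem aut_inv_lt {f : Aut X} {z : X} : f⁻¹ z < z ↔ z < f z := by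
  rw [← Aut.lt_iff f, Aut.self_inv]

theorem aut_inv_eq {f : Aut X} {z : X} : f⁻¹ z = z ↔ f z = z := by
  rw [← Aut.inj f, Aut.self_inv, eq_comm]

theorem Same.inv {f g : Aut X} {z : X} (h : Same f g z) : Same f⁻¹ g⁻¹ z := by
  rcases h with h | h | h
  · exact Or.inr (Or.inl ⟨aut_inv_lt.mpr h.1, aut_inv_lt.mpr h.2⟩)
  · exact Or.inl ⟨aut_lt_inv.mpr h.1, aut_lt_inv.mpr h.2⟩
  · exact Or.inr (Or.inr ⟨aut_inv_eq.mpr h.1, aut_inv_eq.mpr h.2⟩)

theorem Colour.all_eq {V E C : Type} [Finite V] {v₁ v₂ : C → V} {e₁ e₂ : C → E}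
    {star : V → List (C × Bool)} (D : Colour v₁ v₂ e₁ e₂ star) (f : V → Aut X) (h : E → Aut X)
    (z : X) (H : ∀ k, Same ((h (cOpp e₁ e₂ k))⁻¹ * h (cAt e₁ e₂ k))
      ((f (cAt v₁ v₂ k))⁻¹ * f (cOpp v₁ v₂ k)) z) (v v' : V) : f v z = f v' z := by
  have : Nonempty V := ⟨v⟩
  obtain ⟨M, hM⟩ := Finite.exists_max fun n => f n z
  have step : ∀ m, f m z = f M z → ∀ m', Adj v₁ v₂ m m' → f m' z = f M z := by
    intro m hm m' hadj
    obtain ⟨k, hk1, hk2⟩ := hadj
    obtain ⟨e, he⟩ := D.path m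
    have h1 := path_prod h _ _ _ he
    rw [inv_mul_cancel] at h1
    have h3 := Aut.list_eq (x := z)
      ((star m).map fun k => (h (cOpp e₁ e₂ k))⁻¹ * h (cAt e₁ e₂ k)) ?_ ?_
    · have h4 := h3 _ (List.mem_map_of_mem ((D.mem m k).mpr hk1))
      have h5 : ((f (cAt v₁ v₂ k))⁻¹ * f (cOpp v₁ v₂ k)) z = z := by
        rcases H k with h | h | h
        · exact absurd h4 h.1.ne'
        · exact absurd h4 h.1.ne
        · exact h.2
      rw [Aut.inv_mul_eq, hk1, hk2] at h5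
      exact h5.trans hm
    · intro g hg
      obtain ⟨k', hk', rfl⟩ := List.mem_map.mp hg
      have hat := (D.mem m k').mp hk'
      have h6 : ((f (cAt v₁ v₂ k'))⁻¹ * f (cOpp v₁ v₂ k')) z ≤ z := by
        rw [Aut.inv_mul_le, hat, hm]
        exact hM _
      rcases H k' with h | h | h
      · exact absurd h6 (not_le.mpr h.2)
      · exact h.1.le
      · exact h.1.le
    · rw [h1, Aut.one_apply]
  have all : ∀ m, f m z = f M z := by
    intro m
    have := D.conn M m
    induction this with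
    | refl => rfl
    | tail _ h ih => exact step _ ih _ h
  rw [all v, all v']

theorem Colour.pole_le {V E C : Type} [Finite V] {v₁ v₂ : C → V} {e₁ e₂ : C → E}
    {star : V → List (C × Bool)} (D : Colour v₁ v₂ e₁ e₂ star) {X : Type*} [LinearOrder X]
    (f : V → Aut X) (h : E → Aut X) (z : X) (c₀ : C)
    (H : ∀ k, k.1 ≠ c₀ → Same ((h (cOpp e₁ e₂ k))⁻¹ * h (cAt e₁ e₂ k))
      ((f (cAt v₁ v₂ k))⁻¹ * f (cOpp v₁ v₂ k)) z) {m : X} (h1 : f (v₁ c₀) z ≤ m)
    (h2 : f (v₂ c₀) z ≤ m) (conn : ∀ v v', ReflTransGen (AdjOff v₁ v₂ c₀) v v') (v : V) :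
    f v z ≤ m := by
  have : Nonempty V := ⟨v⟩
  obtain ⟨M, hM⟩ := Finite.exists_max fun n => f n z
  refine (hM v).trans ?_
  have key : ∀ u, ReflTransGen (AdjOff v₁ v₂ c₀) u (v₁ c₀) → f u z = f M z → f M z ≤ m := by
    intro u hu
    induction hu using ReflTransGen.head_induction_on with
    | refl => intro h3; rw [← h3]; exact h1
    | @head u t hut _ ih =>
      intro h3
      by_cases u1 : u = v₁ c₀
      · rw [← h3, u1]; exact h1
      by_cases u2 : u = v₂ c₀
      · rw [← h3, u2]; exact h2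
      refine ih ?_
      obtain ⟨k, hk0, hk1, hk2⟩ := hut
      obtain ⟨e, he⟩ := D.path u
      have h4 := path_prod h _ _ _ he
      rw [inv_mul_cancel] at h4
      have h5 := Aut.list_eq (x := z)
        ((star u).map fun k => (h (cOpp e₁ e₂ k))⁻¹ * h (cAt e₁ e₂ k)) ?_ ?_
      · have h6 := h5 _ (List.mem_map_of_mem ((D.mem u k).mpr hk1))
        have h7 : ((f (cAt v₁ v₂ k))⁻¹ * f (cOpp v₁ v₂ k)) z = z := by
          rcases H k hk0 with h | h | h
          · exact absurd h6 h.1.ne'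
          · exact absurd h6 h.1.ne
          · exact h.2
        rw [Aut.inv_mul_eq, hk1, hk2] at h7
        exact h7.trans h3
      · intro g hg
        obtain ⟨k', hk', rfl⟩ := List.mem_map.mp hg
        have hat := (D.mem u k').mp hk'
        have hne : k'.1 ≠ c₀ := by
          intro hc
          obtain ⟨c, s⟩ := k'
          cases s
          · exact u1 (by rw [← hat, ← hc]; rfl)
          · exact u2 (by rw [← hat, ← hc]; rfl)
        have h6 : ((f (cAt v₁ v₂ k'))⁻¹ * f (cOpp v₁ v₂ k')) z ≤ z := by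
          rw [Aut.inv_mul_le, hat, h3]
          exact hM _
        rcases H k' hne with h | h | h
        · exact absurd h6 (not_le.mpr h.2)
        · exact h.1.le
        · exact h.1.le
      · rw [h4, Aut.one_apply]
  exact key M (conn _ _) rfl

theorem Same.dual {f g : Aut X} {z : X} (h : Same f g z) :
    Same (Aut.dual f) (Aut.dual g) (OrderDual.toDual z) := by
  rcases h with h | h | h
  · exact Or.inr (Or.inl h)
  · exact Or.inl h
  · exact Or.inr (Or.inr h)

theorem Colour.pole_eq {V E C : Type} [Finite V] {v₁ v₂ : C → V} {e₁ e₂ : C → E}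
    {star : V → List (C × Bool)} (D : Colour v₁ v₂ e₁ e₂ star)
    (f : V → Aut X) (h : E → Aut X) (z : X) (c₀ : C)
    (H : ∀ k, k.1 ≠ c₀ → Same ((h (cOpp e₁ e₂ k))⁻¹ * h (cAt e₁ e₂ k))
      ((f (cAt v₁ v₂ k))⁻¹ * f (cOpp v₁ v₂ k)) z) (h0 : f (v₁ c₀) z = f (v₂ c₀) z)
    (conn : ∀ v v', ReflTransGen (AdjOff v₁ v₂ c₀) v v') (v v' : V) : f v z = f v' z := by
  have up : ∀ v, f v z ≤ f (v₁ c₀) z := D.pole_le f h z c₀ H le_rfl h0.ge conn
  have dn : ∀ v, f (v₁ c₀) z ≤ f v z := by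
    intro v
    have := D.pole_le (X := Xᵒᵈ) (fun v => Aut.dual (f v)) (fun v => Aut.dual (h v))
      (OrderDual.toDual z) c₀ (fun k hk => by
        have h1 := (H k hk).dual
        rw [map_mul, map_mul, map_inv, map_inv] at h1
        exact h1) (m := OrderDual.toDual (f (v₁ c₀) z)) le_rfl h0.le conn v
    exact this
  rw [le_antisymm (up v) (dn v), le_antisymm (up v') (dn v')]

/-- If the two black regions at `c₀` agree then all regions of a colour agree. -/
theorem Colour.other {V E C : Type} {v₁ v₂ : C → V} {e₁ e₂ : C → E}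
    (f : V → Aut X) (h : E → Aut X) (z : X) (c₀ : C)
    (H : ∀ k, k.1 ≠ c₀ → Same ((h (cOpp e₁ e₂ k))⁻¹ * h (cAt e₁ e₂ k))
      ((f (cAt v₁ v₂ k))⁻¹ * f (cOpp v₁ v₂ k)) z) (h0 : ∀ e e', h e z = h e' z)
    (conn : ∀ v v', ReflTransGen (AdjOff v₁ v₂ c₀) v v') (v v' : V) : f v z = f v' z := by
  have := conn v v'
  induction this with
  | refl => rfl
  | @tail b c _ hb ih =>
    obtain ⟨k, hk0, hk1, hk2⟩ := hb
    have h1 : ((h (cOpp e₁ e₂ k))⁻¹ * h (cAt e₁ e₂ k)) z = z := by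
      rw [Aut.inv_mul_eq]
      exact h0 _ _
    have h7 : ((f (cAt v₁ v₂ k))⁻¹ * f (cOpp v₁ v₂ k)) z = z := by
      rcases H k hk0 with h | h | h
      · exact absurd h1 h.1.ne'
      · exact absurd h1 h.1.ne
      · exact h.2
    rw [Aut.inv_mul_eq, hk1, hk2] at h7
    exact ih.trans h7.symm

theorem Diagram.corners (D : Diagram) (w : D.W → Aut X) (b : D.B → Aut X) (z : X) (c₀ : D.C)
    (H : ∀ c, c ≠ c₀ → Same (D.curr b c) (D.volt w c) z) :
    (∀ k : D.C × Bool, k.1 ≠ c₀ → Same ((b (cOpp D.b₁ D.b₂ k))⁻¹ * b (cAt D.b₁ D.b₂ k))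
      ((w (cAt D.w₁ D.w₂ k))⁻¹ * w (cOpp D.w₁ D.w₂ k)) z) ∧
    ∀ k : D.C × Bool, k.1 ≠ c₀ → Same ((w (cOpp D.w₁ D.w₂ k))⁻¹ * w (cAt D.w₁ D.w₂ k))
      ((b (cAt D.b₁ D.b₂ k))⁻¹ * b (cOpp D.b₁ D.b₂ k)) z := by
  constructor
  · rintro ⟨c, s⟩ hc
    cases s
    · exact H c hc
    · have h1 := (H c hc).inv
      rw [Diagram.curr, Diagram.volt, mul_inv_rev, mul_inv_rev, inv_inv, inv_inv] at h1
      exact h1
  · rintro ⟨c, s⟩ hc
    cases s
    · have h1 := (H c hc).inv.symm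
      rw [Diagram.curr, Diagram.volt, mul_inv_rev, mul_inv_rev, inv_inv, inv_inv] at h1
      exact h1
    · exact (H c hc).symm

/-- If `curr c₀` or `volt c₀` fixes `z` then both do. -/
theorem Diagram.both (D : Diagram) (w : D.W → Aut X) (b : D.B → Aut X) (z : X) (c₀ : D.C)
    (hc : D.Essential c₀) (H : ∀ c, c ≠ c₀ → Same (D.curr b c) (D.volt w c) z)
    (h : D.curr b c₀ z = z ∨ D.volt w c₀ z = z) : D.curr b c₀ z = z ∧ D.volt w c₀ z = z := by
  have := D.finW
  have := D.finB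
  obtain ⟨k1, k2⟩ := D.corners w b z c₀ H
  rcases h with h | h
  · refine ⟨h, ?_⟩
    rw [Diagram.curr, Aut.inv_mul_eq] at h
    have hB := D.black.pole_eq b w z c₀ k2 h hc.2
    have hW := Colour.other w b z c₀ k1 hB hc.1
    rw [Diagram.volt, Aut.inv_mul_eq]
    exact hW _ _
  · refine ⟨?_, h⟩
    rw [Diagram.volt, Aut.inv_mul_eq] at h
    have hW := D.white.pole_eq w b z c₀ k1 h.symm hc.1
    have hB := Colour.other b w z c₀ k2 hW hc.2
    rw [Diagram.curr, Aut.inv_mul_eq]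
    exact hB _ _

theorem Diagram.point (D : Diagram) (w : D.W → Aut X) (b : D.B → Aut X) (z : X)
    (H : ∀ c, Same (D.curr b c) (D.volt w c) z) :
    (∀ v v', w v z = w v' z) ∧ ∀ v v', b v z = b v' z := by
  have := D.finW
  have := D.finB
  constructor
  · refine D.white.all_eq w b z ?_
    rintro ⟨c, s⟩
    cases s
    · exact H c
    · have h1 := (H c).inv
      rw [Diagram.curr, Diagram.volt, mul_inv_rev, mul_inv_rev, inv_inv, inv_inv] at h1
      exact h1
  · refine D.black.all_eq b w z ?_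
    rintro ⟨c, s⟩
    cases s
    · have h1 := (H c).inv.symm
      rw [Diagram.curr, Diagram.volt, mul_inv_rev, mul_inv_rev, inv_inv, inv_inv] at h1
      exact h1
    · exact (H c).symm

end point

section rigid

variable {G : Type v} [Group G]

theorem dir_same {g : G} : Dir.{u} (⊥ : Subgroup G) g g := by
  intro X _ ρ z
  rcases lt_trichotomy (ρ g z) z with h | h | h
  · exact Or.inr (Or.inl ⟨h, h⟩)
  · refine Or.inr (Or.inr ⟨h, h, fun k hk => ?_⟩)
    rw [Subgroup.mem_bot.mp hk, map_one]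
    rfl
  · exact Or.inl ⟨h, h⟩

/-- All points at which `curr c` and `volt c` move in the same direction, for every crossing, are
fixed. -/
theorem Diagram.fixed (D : Diagram) {w : D.W → G} {b : D.B → G} {M : D.C → Subgroup G}
    (hw : ∃ v, w v = 1) (hb : ∃ v, b v = 1)
    (gen : Subgroup.closure (Set.range w ∪ Set.range b) ⊔ ⨆ c, M c = ⊤)
    {X : Type u} [CompleteLinearOrder X] (ρ : G →* (X ≃o X)) (z : X)
    (H : ∀ c, (z < ρ (D.curr b c) z ∧ z < ρ (D.volt w c) z) ∨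
      (ρ (D.curr b c) z < z ∧ ρ (D.volt w c) z < z) ∨
      (ρ (D.curr b c) z = z ∧ ρ (D.volt w c) z = z ∧ ∀ g ∈ M c, ρ g z = z)) :
    ∀ g, ρ g z = z := by
  let σ : G →* Aut X := ρ
  have e1 : ∀ c, D.curr (fun v => σ (b v)) c = σ (D.curr b c) := by
    intro c
    rw [Diagram.curr, Diagram.curr, map_mul, map_inv]
  have e2 : ∀ c, D.volt (fun v => σ (w v)) c = σ (D.volt w c) := by
    intro c
    rw [Diagram.volt, Diagram.volt, map_mul, map_inv]
  have hH : ∀ c, Same (D.curr (fun v => σ (b v)) c) (D.volt (fun v => σ (w v)) c) z := by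
    intro c
    rw [e1, e2]
    rcases H c with h | h | h
    · exact Or.inl h
    · exact Or.inr (Or.inl h)
    · exact Or.inr (Or.inr ⟨h.1, h.2.1⟩)
  obtain ⟨h1, h2⟩ := D.point _ _ z hH
  obtain ⟨v₀, hv₀⟩ := hw
  obtain ⟨u₀, hu₀⟩ := hb
  have k1 : ∀ v, ρ (w v) z = z := by
    intro v
    have h3 : σ (w v) z = σ (w v₀) z := h1 v v₀
    rw [hv₀, map_one] at h3
    exact h3
  have k2 : ∀ v, ρ (b v) z = z := by
    intro v
    have h3 : σ (b v) z = σ (b u₀) z := h2 v u₀
    rw [hu₀, map_one] at h3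
    exact h3
  have k3 : ∀ c, ∀ g ∈ M c, ρ g z = z := by
    intro c
    have h4 : ρ (D.curr b c) z = z := by
      rw [Diagram.curr, map_mul, map_inv]
      exact mul_fix (inv_fix_iff.mpr (k2 _)) (k2 _)
    rcases H c with h | h | h
    · exact absurd h4 h.1.ne'
    · exact absurd h4 h.1.ne
    · exact h.2.2
  have hle : (⊤ : Subgroup G) ≤ (MulAction.stabilizer (X ≃o X) z).comap ρ := by
    rw [← gen, sup_le_iff]
    constructor
    · rw [Subgroup.closure_le]
      rintro _ (⟨v, rfl⟩ | ⟨v, rfl⟩)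
      · exact k1 v
      · exact k2 v
    · exact iSup_le fun c g hg => k3 c g hg
  exact fun g => hle (Subgroup.mem_top g)

theorem dirD (D : Diagram) {w : D.W → G} {b : D.B → G} {c₀ : D.C} {M : D.C → Subgroup G}
    (hw : ∃ v, w v = 1) (hb : ∃ v, b v = 1) (hM : M c₀ = ⊥) (hc : D.Essential c₀)
    (dir : ∀ c, c ≠ c₀ → Dir.{u} (M c) (D.curr b c) (D.volt w c))
    (gen : Subgroup.closure (Set.range w ∪ Set.range b) ⊔ ⨆ c, M c = ⊤) :
    Dir.{u} (⊤ : Subgroup G) (D.curr b c₀) (D.volt w c₀)⁻¹ := by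
  intro X _ ρ z
  have key : ((z < ρ (D.curr b c₀) z ∧ z < ρ (D.volt w c₀) z) ∨
      (ρ (D.curr b c₀) z < z ∧ ρ (D.volt w c₀) z < z) ∨
      (ρ (D.curr b c₀) z = z ∧ ρ (D.volt w c₀) z = z)) → ∀ g, ρ g z = z := by
    intro h0
    refine D.fixed hw hb gen ρ z fun c => ?_
    by_cases hc : c = c₀
    · subst hc
      rcases h0 with h | h | h
      · exact Or.inl h
      · exact Or.inr (Or.inl h)
      · refine Or.inr (Or.inr ⟨h.1, h.2, fun g hg => ?_⟩)
        rw [hM, Subgroup.mem_bot] at hg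
        rw [hg, map_one]
        rfl
    · exact dir c hc X ρ z
  have both : ρ (D.curr b c₀) z = z ∨ ρ (D.volt w c₀) z = z →
      ρ (D.curr b c₀) z = z ∧ ρ (D.volt w c₀) z = z := by
    let σ : G →* Aut X := ρ
    have e1 : ∀ c, D.curr (fun v => σ (b v)) c = σ (D.curr b c) := by
      intro c
      rw [Diagram.curr, Diagram.curr, map_mul, map_inv]
    have e2 : ∀ c, D.volt (fun v => σ (w v)) c = σ (D.volt w c) := by
      intro c
      rw [Diagram.volt, Diagram.volt, map_mul, map_inv]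
    have h3 := D.both (fun v => σ (w v)) (fun v => σ (b v)) z c₀ hc (fun c hc => by
      rw [e1, e2]
      rcases dir c hc X ρ z with h | h | h
      · exact Or.inl h
      · exact Or.inr (Or.inl h)
      · exact Or.inr (Or.inr ⟨h.1, h.2.1⟩))
    rw [e1, e2] at h3
    exact h3
  rw [map_inv]
  rcases lt_trichotomy (ρ (D.curr b c₀) z) z with h1 | h1 | h1
  · rcases lt_trichotomy (ρ (D.volt w c₀) z) z with h2 | h2 | h2
    · exact absurd (key (Or.inr (Or.inl ⟨h1, h2⟩)) _) h1.ne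
    · exact absurd (both (Or.inr h2)).1 h1.ne
    · exact Or.inr (Or.inl ⟨h1, inv_lt_iff.mpr h2⟩)
  · have h2 := both (Or.inl h1)
    exact Or.inr (Or.inr ⟨h1, inv_fix_iff.mpr h2.2, fun g _ => key (Or.inr (Or.inr h2)) g⟩)
  · rcases lt_trichotomy (ρ (D.volt w c₀) z) z with h2 | h2 | h2
    · exact Or.inl ⟨h1, lt_inv_iff.mpr h2⟩
    · exact absurd (both (Or.inr h2)).1 h1.ne'
    · exact absurd (key (Or.inl ⟨h1, h2⟩) _) h1.ne'

theorem Dir.mapR {N : Type} [Group N] {a b : N} (h : Dir.{u} (⊤ : Subgroup N) a b)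
    (js : N →* G) : Dir.{u} js.range (js a) (js b) := by
  intro X _ ρ z
  rcases h X (ρ.comp js) z with h | h | h
  · exact Or.inl h
  · exact Or.inr (Or.inl h)
  · refine Or.inr (Or.inr ⟨h.1, h.2.1, ?_⟩)
    rintro _ ⟨g, rfl⟩
    exact h.2.2 g (Subgroup.mem_top g)

theorem pow_up {X : Type u} [LinearOrder X] {f : X ≃o X} {z : X} (h : z ≤ f z) :
    ∀ A : ℕ, z ≤ (f ^ A) z
  | 0 => by rw [pow_zero]; exact le_rfl
  | A + 1 => by
    rw [pow_succ']
    exact h.trans (f.le_iff_le.mpr (pow_up h A))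

theorem InCl.up {a b g : G} (hg : InCl a b g) {X : Type u} [CompleteLinearOrder X]
    (ρ : G →* (X ≃o X)) {z : X} (ha : z < ρ a z) (hb : z < ρ b z) : z < ρ g z := by
  obtain ⟨k, A, B, hk, hAB, e⟩ := hg
  have h1 : z < (ρ a ^ A) ((ρ b ^ B) z) := by
    rcases Nat.eq_zero_or_pos B with h0 | h0
    · rw [h0, pow_zero]
      exact (lt_pow_iff (by omega)).mpr ha
    · have h2 : z < (ρ b ^ B) z := (lt_pow_iff h0).mpr hb
      exact (pow_up ha.le A).trans_lt ((ρ a ^ A).lt_iff_lt.mpr h2)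
  rw [← map_pow, ← map_pow] at h1
  have h2 : (ρ a ^ A) ((ρ b ^ B) z) = ρ (g ^ k) z := by
    rw [e, map_mul, map_pow, map_pow]
    rfl
  rw [← map_pow, ← map_pow] at h2
  rw [h2, map_pow] at h1
  exact (lt_pow_iff hk).mp h1

theorem pow_dn {X : Type u} [LinearOrder X] {f : X ≃o X} {z : X} (h : f z ≤ z) :
    ∀ A : ℕ, (f ^ A) z ≤ z
  | 0 => by rw [pow_zero]; exact le_rfl
  | A + 1 => by
    rw [pow_succ']
    exact (f.le_iff_le.mpr (pow_dn h A)).trans h

theorem InCl.dn {a b g : G} (hg : InCl a b g) {X : Type u} [CompleteLinearOrder X]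
    (ρ : G →* (X ≃o X)) {z : X} (ha : ρ a z < z) (hb : ρ b z < z) : ρ g z < z := by
  obtain ⟨k, A, B, hk, hAB, e⟩ := hg
  have h1 : (ρ a ^ A) ((ρ b ^ B) z) < z := by
    rcases Nat.eq_zero_or_pos B with h0 | h0
    · rw [h0, pow_zero]
      exact (pow_lt_iff (by omega)).mpr ha
    · have h2 : (ρ b ^ B) z < z := (pow_lt_iff h0).mpr hb
      exact ((ρ a ^ A).lt_iff_lt.mpr h2).trans_le (pow_dn ha.le A)
  have h2 : (ρ a ^ A) ((ρ b ^ B) z) = ρ (g ^ k) z := by
    rw [e, map_mul, map_pow, map_pow]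
    rfl
  rw [h2, map_pow] at h1
  exact (pow_lt_iff hk).mp h1

theorem InCl.fix {a b g : G} (hg : InCl a b g) {X : Type u} [CompleteLinearOrder X]
    (ρ : G →* (X ≃o X)) {z : X} (ha : ρ a z = z) (hb : ρ b z = z) : ρ g z = z := by
  obtain ⟨k, A, B, hk, hAB, e⟩ := hg
  have h2 : ρ (g ^ k) z = z := by
    rw [e, map_mul, map_pow, map_pow]
    refine mul_fix ?_ ?_
    · have := fix_zpow ha (A : ℤ)
      rwa [zpow_natCast] at this
    · have := fix_zpow hb (B : ℤ)
      rwa [zpow_natCast] at this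
  rw [map_pow] at h2
  exact (pow_fix_iff hk).mp h2

theorem Dir.sub {M : Subgroup G} {a b a' b' : G} (h : Dir.{u} M a b) (h1 : InCl a b a')
    (h2 : InCl a b b') : Dir.{u} M a' b' := by
  intro X _ ρ z
  rcases h X ρ z with h | h | h
  · exact Or.inl ⟨h1.up ρ h.1 h.2, h2.up ρ h.1 h.2⟩
  · exact Or.inr (Or.inl ⟨h1.dn ρ h.1 h.2, h2.dn ρ h.1 h.2⟩)
  · exact Or.inr (Or.inr ⟨h1.fix ρ h.1 h.2.1, h2.fix ρ h.1 h.2.1, h.2.2⟩)

theorem Dir.inv {M : Subgroup G} {a b : G} (h : Dir.{u} M a b) : Dir.{u} M a⁻¹ b⁻¹ := by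
  intro X _ ρ z
  rw [map_inv, map_inv]
  rcases h X ρ z with h | h | h
  · exact Or.inr (Or.inl ⟨inv_lt_iff.mpr h.1, inv_lt_iff.mpr h.2⟩)
  · exact Or.inl ⟨lt_inv_iff.mpr h.1, lt_inv_iff.mpr h.2⟩
  · exact Or.inr (Or.inr ⟨inv_fix_iff.mpr h.1, inv_fix_iff.mpr h.2.1, h.2.2⟩)

omit [Group G] in
theorem Rigid.dir {N : Type} [Group N] {x e a b : N} (h : Rigid.{u} N x e)
    (ha : InCone x e a) (hb : InCone x e b) : Dir.{u} (⊤ : Subgroup N) a b := by
  have h1 := dir_of_cone h.tameE (MonoidHom.id N) (a := a) (b := b) ha hb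
  rw [MonoidHom.range_eq_top.mpr Function.surjective_id] at h1
  exact h1

theorem Rigid.inv {x e : G} (h : Rigid.{u} G x e) : Rigid.{u} G x⁻¹ e⁻¹ := by
  refine ⟨h.comm.inv_inv, fun X _ ρ p h1 h2 => ?_, fun X _ ρ hs => ?_⟩
  · rw [map_inv, inv_fix_iff] at h1 h2
    exact h.fix X ρ p h1 h2
  · refine h.no X ρ ⟨fun v => ?_, fun v hv => ?_, fun v hv => ?_, fun v hv => ?_⟩
    · rw [← RelIso.mul_apply, ← RelIso.mul_apply, ← map_mul, ← map_mul, h.comm.eq]
    · have h1 := hs.down v (by rw [map_inv, inv_lt_iff]; exact hv)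
      rw [map_inv, lt_inv_iff] at h1
      exact h1
    · have h1 := hs.up v (by rw [map_inv, lt_inv_iff]; exact hv)
      rw [map_inv, inv_lt_iff] at h1
      exact h1
    · have h1 := hs.fix v (by rw [map_inv, inv_fix_iff]; exact hv)
      rw [map_inv, inv_fix_iff] at h1
      exact h1

theorem commute_ring {n : ℕ} {h a : G} {v : Fin n → G} (hc : ∀ i, Commute h (v i))
    (inv : a * h * a⁻¹ = h⁻¹) : Commute h ((List.ofFn v).prod * a ^ 2) := by
  have ha2 : Commute h (a ^ 2) := by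
    have h1 : a * h = h⁻¹ * a := by rw [← inv, inv_mul_cancel_right]
    have h2 : a * h⁻¹ = h * a := by
      rw [mul_inv_eq_iff_eq_mul, mul_assoc, h1, mul_inv_cancel_left]
    show h * a ^ 2 = a ^ 2 * h
    rw [pow_two, mul_assoc a a h, h1, ← mul_assoc, h2.symm, mul_assoc]
  exact (commute_prod _ v hc).mul_right ha2

/-- Circle bundles over the Möbius band with holes. -/
theorem rigidR {n : ℕ} {h a : G} {v : Fin n → G} {M : Fin n → Subgroup G} {m : ℕ}
    (hc : ∀ i, Commute h (v i)) (inv : a * h * a⁻¹ = h⁻¹)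
    (hfix : ∀ i (X : Type u) [CompleteLinearOrder X] (ρ : G →* (X ≃o X)) (z : X), ρ h z = z →
      ρ (v i) z = z ∧ ∀ g ∈ M i, ρ g z = z)
    (gen : Subgroup.closure ({h, a} ∪ Set.range v) ⊔ ⨆ i, M i = ⊤) (hm : 1 ≤ m) :
    Rigid.{u} G ((List.ofFn v).prod * a ^ 2 * h ^ (-(m : ℤ)))
      ((List.ofFn v).prod * a ^ 2 * h ^ (m : ℤ)) := by
  have hcw := commute_ring hc inv
  set w := (List.ofFn v).prod * a ^ 2 with hw
  -- points fixed by `h` and `w` are fixed by everything
  have key : ∀ (X : Type u) [CompleteLinearOrder X] (ρ : G →* (X ≃o X)) (z : X), ρ h z = z →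
      ρ w z = z → ∀ g, ρ g z = z := by
    intro X _ ρ z h1 h2
    have h3 : ρ (List.ofFn v).prod z = z := by
      rw [map_list_prod, List.map_ofFn]
      exact list_fix fun i => (hfix i X ρ z h1).1
    have h4 : (ρ a ^ 2) z = z := by
      have h5 : ρ w z = ρ (List.ofFn v).prod ((ρ a ^ 2) z) := by
        rw [hw, map_mul, map_pow]
        rfl
      rw [h5] at h2
      have h6 : ρ (List.ofFn v).prod ((ρ a ^ 2) z) = ρ (List.ofFn v).prod z := h2.trans h3.symm
      exact (ρ (List.ofFn v).prod).injective h6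
    have h7 : ρ a z = z := (pow_fix_iff (by omega)).mp h4
    have hle : (⊤ : Subgroup G) ≤ (MulAction.stabilizer (X ≃o X) z).comap ρ := by
      rw [← gen, sup_le_iff]
      constructor
      · rw [Subgroup.closure_le]
        rintro _ ((rfl | rfl) | ⟨i, rfl⟩)
        · exact h1
        · exact h7
        · exact (hfix i X ρ z h1).1
      · refine iSup_le fun i g hg => ?_
        exact (hfix i X ρ z h1).2 g hg
    exact fun g => hle (Subgroup.mem_top g)
  have cx : Commute (w * h ^ (-(m : ℤ))) (w * h ^ (m : ℤ)) :=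
    ((Commute.refl w).mul_right (hcw.symm.zpow_right _)).mul_left
      (((hcw.zpow_left _)).mul_right ((Commute.refl h).zpow_zpow _ _))
  refine ⟨cx, fun X _ ρ z h1 h2 => ?_, fun X _ ρ hs => ?_⟩
  · have e1 : w * h ^ (m : ℤ) * (w * h ^ (-(m : ℤ)))⁻¹ = h ^ (2 * m) := by
      rw [mul_inv_rev, ← zpow_neg, neg_neg, mul_assoc, ← mul_assoc (h ^ (m : ℤ)),
        ← zpow_add, ← mul_assoc, (hcw.symm.zpow_right _).eq, mul_inv_cancel_right]
      rw [← zpow_natCast]
      congr 1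
      push_cast
      ring
    have h3 : ρ (h ^ (2 * m)) z = z := by
      rw [← e1, map_mul, map_inv]
      exact mul_fix h2 (inv_fix_iff.mpr h1)
    rw [map_pow] at h3
    have h4 : ρ h z = z := (pow_fix_iff (by omega)).mp h3
    refine key X ρ z h4 ?_
    rw [map_mul, map_zpow] at h2
    have h5 : ρ w ((ρ h ^ (m : ℤ)) z) = z := h2
    rw [fix_zpow h4] at h5
    exact h5
  · -- points fixed by `h` are fixed by everything
    have key2 : ∀ z, ρ h z = z → ∀ g, ρ g z = z := by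
      intro z h1
      refine key X ρ z h1 ?_
      have e1 : ρ (w * h ^ (-(m : ℤ))) z = ρ w z := by
        rw [map_mul, map_zpow]
        show ρ w ((ρ h ^ (-(m : ℤ))) z) = ρ w z
        rw [fix_zpow h1]
      have e2 : ρ (w * h ^ (m : ℤ)) z = ρ w z := by
        rw [map_mul, map_zpow]
        show ρ w ((ρ h ^ (m : ℤ)) z) = ρ w z
        rw [fix_zpow h1]
      rcases lt_trichotomy (ρ w z) z with h | h | h
      · have := hs.down z (by rw [e1]; exact h)
        rw [e2] at this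
        exact absurd this (not_lt.mpr h.le)
      · exact h
      · have := hs.up z (by rw [e1]; exact h)
        rw [e2] at this
        exact absurd this (not_lt.mpr h.le)
    intro g z
    by_contra hcon
    obtain ⟨α, β, a1, a2, hα, hβ, hno⟩ := exists_interval ρ (v := z) (fun hh => hcon (hh g))
    have hmem : ∀ y, α < y → y < β → α < ρ a y ∧ ρ a y < β := by
      intro y y1 y2
      have b1 := (ρ a).lt_iff_lt.mpr y1
      have b2 := (ρ a).lt_iff_lt.mpr y2
      rw [hα] at b1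
      rw [hβ] at b2
      exact ⟨b1, b2⟩
    have hrel : ∀ y, ρ a (ρ h y) = (ρ h)⁻¹ (ρ a y) := by
      intro y
      have h1 : a * h = h⁻¹ * a := by rw [← inv, inv_mul_cancel_right]
      have h2 := congrArg (fun t => ρ t y) h1
      simp only [map_mul, map_inv] at h2
      exact h2
    obtain ⟨c1, c2⟩ := hmem z a1 a2
    rcases trich (α := α) (β := β) (ρ h) with k | k | ⟨y, y1, y2, y3⟩
    · have d1 : ρ a z < ρ a (ρ h z) := (ρ a).lt_iff_lt.mpr (k z a1 a2)
      rw [hrel, lt_inv_iff] at d1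
      exact absurd d1 (not_lt.mpr (k _ c1 c2).le)
    · have d1 : ρ a (ρ h z) < ρ a z := (ρ a).lt_iff_lt.mpr (k z a1 a2)
      rw [hrel, inv_lt_iff] at d1
      exact absurd d1 (not_lt.mpr (k _ c1 c2).le)
    · exact hno y y1 y2 (key2 y y3)

theorem pow_word {h w : G} (hc : Commute h w) (i : ℤ) (n : ℕ) :
    (w * h ^ i) ^ n = w ^ n * h ^ (i * n) := by
  rw [(hc.symm.zpow_right i).mul_pow, ← zpow_natCast (h ^ i), ← zpow_mul]

/-- Circle bundles over the Möbius band with holes: closed intervals of slopes. -/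
theorem dirR {N : Type} [Group N] {n : ℕ} {h a : N} {v : Fin n → N} {M : Fin n → Subgroup N}
    (m : ℕ) (hc : ∀ i, Commute h (v i)) (inv : a * h * a⁻¹ = h⁻¹)
    (hfix : ∀ i (X : Type u) [CompleteLinearOrder X] (ρ : N →* (X ≃o X)) (z : X), ρ h z = z →
      ρ (v i) z = z ∧ ∀ g ∈ M i, ρ g z = z)
    (gen : Subgroup.closure ({h, a} ∪ Set.range v) ⊔ ⨆ i, M i = ⊤) :
    Dir.{u} (⊤ : Subgroup N) ((List.ofFn v).prod * a ^ 2 * h ^ (-(m : ℤ)))
      ((List.ofFn v).prod * a ^ 2 * h ^ (m : ℤ)) := by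
  have hcw := commute_ring hc inv
  have R := rigidR (m := m + 1) hc inv hfix gen (by omega)
  set w := (List.ofFn v).prod * a ^ 2 with hw
  have key : ∀ (i : ℤ) (A B : ℕ), i * ((A + B : ℕ) : ℤ) = -((m : ℤ) + 1) * A + (m + 1) * B →
      (w * h ^ i) ^ (A + B) = (w * h ^ (-((m + 1 : ℕ) : ℤ))) ^ A *
        (w * h ^ ((m + 1 : ℕ) : ℤ)) ^ B := by
    intro i A B hij
    rw [pow_word hcw, pow_word hcw, pow_word hcw]
    have c1 : Commute (h ^ (-((m + 1 : ℕ) : ℤ) * A)) (w ^ B) := (hcw.zpow_left _).pow_right _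
    calc w ^ (A + B) * h ^ (i * ((A + B : ℕ) : ℤ))
        = w ^ A * w ^ B * (h ^ (-((m + 1 : ℕ) : ℤ) * A) * h ^ (((m + 1 : ℕ) : ℤ) * B)) := by
          rw [hij, ← zpow_add, pow_add]
          congr 2
      _ = w ^ A * (w ^ B * h ^ (-((m + 1 : ℕ) : ℤ) * A)) * h ^ (((m + 1 : ℕ) : ℤ) * B) := by
          simp only [mul_assoc]
      _ = _ := by
          rw [← c1.eq]
          simp only [mul_assoc]
  refine R.dir ⟨(2 * m + 1) + 1, 2 * m + 1, 1, by omega, by omega, le_rfl, ?_⟩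
    ⟨1 + (2 * m + 1), 1, 2 * m + 1, by omega, le_rfl, by omega, ?_⟩
  · exact key _ _ _ (by push_cast; ring)
  · exact key _ _ _ (by push_cast; ring)

end rigid

end Pool.Agent.J6H6.JN
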