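import Pool.Agent.J6H6.JN.Act

set_option autoImplicit false

/-!
# Seifert pieces
-/

universe u v

namespace Pool.Agent.J6H6.JN

open Pool.Agent.R649.BT

/-- The translation number of `v` with respect to `h` is between `r` and `r'`, in a strong sense, and
fixed points of `h` are fixed by `v` and by `M`. -/
structure Bd {G : Type v} [Group G] (M : Subgroup G) (h v : G) (r r' : ℚ) : Prop where
  up : ∀ (X : Type u) [CompleteLinearOrder X] (ρ : G →* (X ≃o X)) (z : X), z < ρ h z →
    z ≤ ρ (lev h v r) z ∧ ρ (lev h v r') z ≤ z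
  dn : ∀ (X : Type u) [CompleteLinearOrder X] (ρ : G →* (X ≃o X)) (z : X), ρ h z < z →
    ρ (lev h v r) z ≤ z ∧ z ≤ ρ (lev h v r') z
  fix : ∀ (X : Type u) [CompleteLinearOrder X] (ρ : G →* (X ≃o X)) (z : X), ρ h z = z →
    ρ v z = z ∧ ∀ g ∈ M, ρ g z = z

/-- `a` and `b` move all points in the same direction, and their fixed points are fixed by `M`. -/
def Dir {G : Type v} [Group G] (M : Subgroup G) (a b : G) : Prop :=
  ∀ (X : Type u) [CompleteLinearOrder X] (ρ : G →* (X ≃o X)) (z : X),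
    (z < ρ a z ∧ z < ρ b z) ∨ (ρ a z < z ∧ ρ b z < z) ∨
      (ρ a z = z ∧ ρ b z = z ∧ ∀ g ∈ M, ρ g z = z)

theorem dir_of_cone {N : Type} {G : Type v} [Group N] [Group G] {x e : N} (T : TameE.{u} N x e)
    (js : N →* G) {a b : G} (ha : InCone (js x) (js e) a) (hb : InCone (js x) (js e) b) :
    Dir.{u} js.range a b := by
  intro X _ ρ z
  obtain ⟨k, A, B, hk, hA, hB, ea⟩ := ha
  obtain ⟨l, C, D, hl, hC, hD, eb⟩ := hb
  have s := T.scap X (ρ.comp js) A B C D hA hB hC hD
  have e1 : (ρ.comp js) (x ^ A * e ^ B) = (ρ a) ^ k := by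
    rw [← map_pow, ea, MonoidHom.comp_apply, map_mul js, map_pow js, map_pow js]
  have e2 : (ρ.comp js) (x ^ C * e ^ D)⁻¹ = ((ρ b) ^ l)⁻¹ := by
    rw [map_inv, ← map_pow, eb, MonoidHom.comp_apply, map_mul js, map_pow js, map_pow js]
  have s1 := s.up z
  have s2 := s.down z
  have s3 := s.fix z
  rw [e1, e2] at s1 s2 s3
  rcases lt_trichotomy (ρ a z) z with h | h | h
  · right; left
    refine ⟨h, ?_⟩
    have h1 := s2 ((pow_lt_iff hk).mpr h)
    rw [lt_inv_iff] at h1
    exact (pow_lt_iff hl).mp h1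
  · right; right
    have h0 : (ρ a ^ k) z = z := (pow_fix_iff hk).mpr h
    have h1 := s3 h0
    rw [inv_fix_iff] at h1
    refine ⟨h, (pow_fix_iff hl).mp h1, ?_⟩
    rintro _ ⟨g, rfl⟩
    refine T.fix X (ρ.comp js) A B hA hB z ?_ g
    rw [e1]
    exact h0
  · left
    refine ⟨h, ?_⟩
    have h1 := s1 ((lt_pow_iff hk).mpr h)
    rw [inv_lt_iff] at h1
    exact (lt_pow_iff hl).mp h1

theorem bd_of_cone {N : Type} {G : Type v} [Group N] [Group G] {x e : N} (T : TameE.{u} N x e)
    (js : N →* G) {h v : G} {r r' : ℚ} (h0 : InCone (js x) (js e) h)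
    (h1 : InCone (js x) (js e) (lev h v r)) (h2 : InCone (js x) (js e) (lev h v r')⁻¹) :
    Bd.{u} js.range h v r r' := by
  have d1 := dir_of_cone T js h0 h1
  have d2 := dir_of_cone T js h0 h2
  refine ⟨fun X _ ρ z hz => ⟨?_, ?_⟩, fun X _ ρ z hz => ⟨?_, ?_⟩, fun X _ ρ z hz => ?_⟩
  · rcases d1 X ρ z with k | k | k
    · exact k.2.le
    · exact absurd hz (not_lt.mpr k.1.le)
    · rw [k.1] at hz; exact absurd hz (lt_irrefl _)
  · rcases d2 X ρ z with k | k | k
    · have := k.2
      rw [map_inv, lt_inv_iff] at this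
      exact this.le
    · exact absurd hz (not_lt.mpr k.1.le)
    · rw [k.1] at hz; exact absurd hz (lt_irrefl _)
  · rcases d1 X ρ z with k | k | k
    · exact absurd hz (not_lt.mpr k.1.le)
    · exact k.2.le
    · rw [k.1] at hz; exact absurd hz (lt_irrefl _)
  · rcases d2 X ρ z with k | k | k
    · exact absurd hz (not_lt.mpr k.1.le)
    · have := k.2
      rw [map_inv, inv_lt_iff] at this
      exact this.le
    · rw [k.1] at hz; exact absurd hz (lt_irrefl _)
  · rcases d1 X ρ z with k | k | k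
    · exact absurd hz k.1.ne'
    · exact absurd hz k.1.ne
    · refine ⟨?_, k.2.2⟩
      have h3 := k.2.1
      rw [lev_map] at h3
      exact of_lev_fix hz h3

section cross
variable {G : Type v} [Group G]

theorem lev_pow {h w : G} (hc : Commute h w) (s : ℚ) (m : ℕ) :
    lev h w s ^ m = w ^ (s.den * m) * h ^ (-(s.num * m)) := by
  unfold lev
  rw [((hc.symm.pow_left s.den).zpow_right (-s.num)).mul_pow, ← pow_mul, ← zpow_natCast
    (h ^ (-s.num)), ← zpow_mul, neg_mul]

theorem lev_cross {h w : G} (hc : Commute h w) (s s' : ℚ) :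
    lev h w s ^ s'.den * (lev h w s')⁻¹ ^ s.den =
      h ^ (s'.num * s.den - s.num * s'.den) := by
  rw [inv_pow, lev_pow hc, lev_pow hc, mul_comm s'.den s.den, mul_inv_rev, zpow_neg, zpow_neg,
    inv_inv]
  have c1 : Commute (h ^ (s'.num * (s.den : ℤ))) (w ^ (s.den * s'.den))⁻¹ :=
    (hc.zpow_left _).pow_right _ |>.inv_right
  have c2 : Commute (w ^ (s.den * s'.den)) ((h ^ (s.num * (s'.den : ℤ)))⁻¹ *
      h ^ (s'.num * (s.den : ℤ))) :=
    ((hc.symm.zpow_right _).pow_left _).inv_right.mul_right ((hc.symm.zpow_right _).pow_left _)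
  calc w ^ (s.den * s'.den) * (h ^ (s.num * (s'.den : ℤ)))⁻¹ *
        (h ^ (s'.num * (s.den : ℤ)) * (w ^ (s.den * s'.den))⁻¹)
      = (w ^ (s.den * s'.den) * ((h ^ (s.num * (s'.den : ℤ)))⁻¹ *
        h ^ (s'.num * (s.den : ℤ)))) * (w ^ (s.den * s'.den))⁻¹ := by simp only [mul_assoc]
    _ = (h ^ (s.num * (s'.den : ℤ)))⁻¹ * h ^ (s'.num * (s.den : ℤ)) := by
        rw [c2.eq, mul_inv_cancel_right]
    _ = _ := by rw [← zpow_neg, ← zpow_add]; congr 1; ring

theorem cross_pos {s s' : ℚ} (h : s < s') : 0 < s'.num * s.den - s.num * s'.den := by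
  have := (Rat.lt_iff s s').mp h
  linarith

theorem lev_comm {h w : G} (hc : Commute h w) (s s' : ℚ) :
    Commute (lev h w s) (lev h w s') := by
  unfold lev
  have c1 : Commute (w ^ s.den) (w ^ s'.den * h ^ (-s'.num)) :=
    ((Commute.refl w).pow_pow _ _).mul_right ((hc.symm.pow_left _).zpow_right _)
  have c2 : Commute (h ^ (-s.num)) (w ^ s'.den * h ^ (-s'.num)) :=
    ((hc.zpow_left _).pow_right _).mul_right (((Commute.refl h).zpow_left _).zpow_right _)
  exact c1.mul_left c2

variable {X : Type u} [CompleteLinearOrder X]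

theorem fix_of_zpow {g : X ≃o X} {z : X} {m : ℤ} (hm : m ≠ 0) (h : (g ^ m) z = z) : g z = z := by
  rcases lt_or_gt_of_ne hm with h1 | h1
  · obtain ⟨k, hk⟩ := Int.eq_ofNat_of_zero_le (show 0 ≤ -m by omega)
    have h2 : (g⁻¹ ^ k) z = z := by
      rw [← zpow_natCast, ← hk, inv_zpow', neg_neg]; exact h
    rw [pow_fix_iff (by omega), inv_fix_iff] at h2
    exact h2
  · obtain ⟨k, hk⟩ := Int.eq_ofNat_of_zero_le h1.le
    rw [hk, zpow_natCast, pow_fix_iff (by omega)] at h
    exact h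

/-- A point fixed by two levels is fixed by `h` and `w`. -/
theorem fix_of_two {h w : X ≃o X} (hc : Commute h w) {s s' : ℚ} (hs : s ≠ s') {z : X}
    (h1 : lev h w s z = z) (h2 : lev h w s' z = z) : h z = z ∧ w z = z := by
  have h3 : (h ^ (s'.num * s.den - s.num * s'.den)) z = z := by
    rw [← lev_cross hc s s']
    refine mul_fix ((pow_fix_iff s'.pos).mpr h1) ((pow_fix_iff s.pos).mpr ?_)
    exact inv_fix_iff.mpr h2
  have hne : s'.num * s.den - s.num * s'.den ≠ 0 := by
    rcases lt_or_gt_of_ne hs with h | h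
    · exact (cross_pos h).ne'
    · have := cross_pos h
      omega
  have h4 := fix_of_zpow hne h3
  exact ⟨h4, of_lev_fix h4 h1⟩

variable {α β : X}

theorem lev_end {h w : X ≃o X} (hh : h α = α) (hw : w α = α) (r : ℚ) : lev h w r α = α :=
  lev_fix hh hw r

/-- Levels are monotone. -/
theorem lev_mono {h w : X ≃o X} (hc : Commute h w) (hα : h α = α) (hβ : h β = β) (wα : w α = α)
    (wβ : w β = β) (hz : ∃ z, α < z ∧ z < β) (h1 : Up α β h) {s s' : ℚ} (hs : s' < s)
    (a1 : Dn α β (lev h w s')) (a2 : Up α β (lev h w s)) : False := by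
  obtain ⟨z, z1, z2⟩ := hz
  have b1 : Up α β (lev h w s')⁻¹ := a1.inv (lev_end hα wα _) (lev_end hβ wβ _)
  have c1 := Up.mul (P := lev h w s) (Q := (lev h w s')⁻¹) (lev_end hα wα s) (lev_end hβ wβ s)
    (symm_fix (lev_end hα wα s')) (symm_fix (lev_end hβ wβ s')) a2 b1 (i := s'.den) (j := s.den) (by
      have := s'.pos
      omega) (by omega)
  rw [zpow_natCast, zpow_natCast, lev_cross hc] at c1
  have h5 := cross_pos hs
  have h6 := (h1.pow hα hβ (n := s.num * s'.den - s'.num * s.den) h5).inv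
    (by exact fix_zpow hα _) (by exact fix_zpow hβ _)
  rw [← zpow_neg, neg_sub] at h6
  exact absurd (c1 z z1 z2) (not_lt.mpr (h6 z z1 z2).le)

theorem lev_mono' {h w : X ≃o X} (hc : Commute h w) (hα : h α = α) (hβ : h β = β) (wα : w α = α)
    (wβ : w β = β) (hz : ∃ z, α < z ∧ z < β) (h1 : Dn α β h) {s s' : ℚ} (hs : s' < s)
    (a1 : Up α β (lev h w s')) (a2 : Dn α β (lev h w s)) : False := by
  obtain ⟨z, z1, z2⟩ := hz
  have b1 : Up α β (lev h w s)⁻¹ := a2.inv (lev_end hα wα _) (lev_end hβ wβ _)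
  have c1 := Up.mul (P := lev h w s') (Q := (lev h w s)⁻¹) (lev_end hα wα s') (lev_end hβ wβ s')
    (symm_fix (lev_end hα wα s)) (symm_fix (lev_end hβ wβ s)) a1 b1 (i := s.den) (j := s'.den) (by
      have := s.pos
      omega) (by omega)
  rw [zpow_natCast, zpow_natCast, lev_cross hc] at c1
  have h5 := cross_pos hs
  have iα : h⁻¹ α = α := symm_fix hα
  have iβ : h⁻¹ β = β := symm_fix hβ
  have h6 := (Up.pow (g := h⁻¹) iα iβ (h1.inv hα hβ)
    (n := s.num * s'.den - s'.num * s.den) h5).inv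
    (by exact fix_zpow iα _) (by exact fix_zpow iβ _)
  rw [inv_zpow, inv_inv] at h6
  exact absurd (c1 z z1 z2) (not_lt.mpr (h6 z z1 z2).le)

end cross

/-- A group generated by `h`, the `v i` and the subgroups `M i`. -/
theorem fix_all {G : Type v} [Group G] {n : ℕ} {h : G} {v : Fin n → G} {M : Fin n → Subgroup G}
    (gen : Subgroup.closure ({h} ∪ Set.range v) ⊔ ⨆ i, M i = ⊤) {X : Type u}
    [CompleteLinearOrder X] (ρ : G →* (X ≃o X)) {z : X} (hz : ρ h z = z)
    (hv : ∀ i, ρ (v i) z = z) (hM : ∀ i, ∀ g ∈ M i, ρ g z = z) : ∀ g, ρ g z = z := by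
  intro g
  have hle : (⊤ : Subgroup G) ≤ (MulAction.stabilizer (X ≃o X) z).comap ρ := by
    rw [← gen, sup_le_iff, Subgroup.closure_le]
    refine ⟨?_, iSup_le fun i g hg => hM i g hg⟩
    rintro _ (rfl | ⟨i, rfl⟩)
    · exact hz
    · exact hv i
  exact hle (Subgroup.mem_top g)

theorem map_ofFn_prod {G H : Type*} [Group G] [Group H] (f : G →* H) {n : ℕ} (v : Fin n → G) :
    f (List.ofFn v).prod = (List.ofFn fun i => f (v i)).prod := by
  rw [map_list_prod, List.map_ofFn]
  rfl

theorem list_fix {X : Type u} [CompleteLinearOrder X] {n : ℕ} {v : Fin n → X ≃o X} {z : X}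
    (h : ∀ i, v i z = z) : (List.ofFn v).prod z = z := by
  have : (List.ofFn v).prod ∈ MulAction.stabilizer (X ≃o X) z := by
    refine Subgroup.list_prod_mem _ fun g hg => ?_
    obtain ⟨i, rfl⟩ := (List.mem_ofFn' v g).mp hg
    exact h i
  exact this

section comp
variable {G : Type v} [Group G] {n : ℕ} {h : G} {v : Fin (n + 2) → G}
  {M : Fin (n + 2) → Subgroup G} {r r' : Fin (n + 2) → ℚ} {s s' : ℚ}

/-- A Seifert piece with an open boundary torus, the fibre being in the open cones of all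
sides. -/
theorem rigidA (hc : ∀ i, Commute h (v i)) (hb : ∀ i, Bd.{u} (M i) h (v i) (r i) (r' i))
    (lo : Jnn r s) (hi : Jnn (fun i => -r' i) (-s')) (lt : s < s')
    (gen : Subgroup.closure ({h} ∪ Set.range v) ⊔ ⨆ i, M i = ⊤) :
    Rigid.{u} G (lev h (List.ofFn v).prod s) (lev h (List.ofFn v).prod s')⁻¹ := by
  set w := (List.ofFn v).prod with hw
  have hcw : Commute h w := commute_prod _ v hc
  have hfix : ∀ (X : Type u) [CompleteLinearOrder X] (ρ : G →* (X ≃o X)) (z : X),
      ρ h z = z → ∀ g, ρ g z = z := fun X _ ρ z hz =>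
    fix_all gen ρ hz (fun i => ((hb i).fix X ρ z hz).1) (fun i => ((hb i).fix X ρ z hz).2)
  have hfix2 : ∀ (X : Type u) [CompleteLinearOrder X] (ρ : G →* (X ≃o X)) (z : X),
      ρ (lev h w s) z = z → ρ (lev h w s')⁻¹ z = z → ∀ g, ρ g z = z := by
    intro X _ ρ z h1 h2
    refine hfix X ρ z ?_
    rw [lev_map] at h1
    rw [map_inv, inv_fix_iff, lev_map] at h2
    exact (fix_of_two (hcw.map ρ) lt.ne h1 h2).1
  refine ⟨(lev_comm hcw s s').inv_right, hfix2, fun X _ ρ hs g z0 => ?_⟩
  by_contra hg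
  obtain ⟨α, β, a1, a2, hα, hβ, hno⟩ := exists_interval ρ (fun hh => hg (hh g))
  have hcρ : ∀ i, Commute (ρ h) (ρ (v i)) := fun i => (hc i).map ρ
  have ew : ρ w = (List.ofFn fun i => ρ (v i)).prod := map_ofFn_prod ρ v
  rcases trich (α := α) (β := β) (ρ h) with hu | hu | ⟨z, z1, z2, z3⟩
  · -- `h` moves all points up
    have L : ¬ Dn α β (ρ (lev h w s)) := by
      rw [lev_map, ew]
      exact low ⟨z0, a1, a2⟩ (hα h) (hβ h) (fun i => hα _) (fun i => hβ _) hcρ hu
        (fun i z z1 z2 => by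
          have := ((hb i).up X ρ z (hu z z1 z2)).1
          rwa [lev_map] at this) lo
    have U : ¬ Up α β (ρ (lev h w s')) := by
      rw [lev_map, ew]
      exact upp ⟨z0, a1, a2⟩ (hα h) (hβ h) (fun i => hα _) (fun i => hβ _) hcρ hu
        (fun i z z1 z2 => by
          have := ((hb i).up X ρ z (hu z z1 z2)).2
          rwa [lev_map] at this) hi
    rcases trich (α := α) (β := β) (ρ (lev h w s)) with hx | hx | ⟨z, z1, z2, z3⟩
    · refine U fun z z1 z2 => ?_
      have := hs.up z (hx z z1 z2)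
      rwa [map_inv, inv_lt_iff] at this
    · exact L hx
    · exact hno z z1 z2 (hfix2 X ρ z z3 (hs.fix z z3))
  · -- `h` moves all points down
    have L : ¬ Up α β (ρ (lev h w s)) := by
      rw [lev_map, ew]
      exact low' ⟨z0, a1, a2⟩ (hα h) (hβ h) (fun i => hα _) (fun i => hβ _) hcρ hu
        (fun i z z1 z2 => by
          have := ((hb i).dn X ρ z (hu z z1 z2)).1
          rwa [lev_map] at this) lo
    have U : ¬ Dn α β (ρ (lev h w s')) := by
      rw [lev_map, ew]
      exact upp' ⟨z0, a1, a2⟩ (hα h) (hβ h) (fun i => hα _) (fun i => hβ _) hcρ hu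
        (fun i z z1 z2 => by
          have := ((hb i).dn X ρ z (hu z z1 z2)).2
          rwa [lev_map] at this) hi
    rcases trich (α := α) (β := β) (ρ (lev h w s)) with hx | hx | ⟨z, z1, z2, z3⟩
    · exact L hx
    · refine U fun z z1 z2 => ?_
      have := hs.down z (hx z z1 z2)
      rwa [map_inv, lt_inv_iff] at this
    · exact hno z z1 z2 (hfix2 X ρ z z3 (hs.fix z z3))
  · exact hno z z1 z2 (hfix X ρ z z3)

/-- A Seifert piece with an open boundary torus, the fibre being outside the cone of the side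
`0`. -/
theorem rigidB (hc : ∀ i, Commute h (v i)) (hb : ∀ i, i ≠ 0 → Bd.{u} (M i) h (v i) (r i) (r' i))
    (h0 : Dir.{u} (M 0) (lev h (v 0) (r 0)) (lev h (v 0) (r' 0))) (h0' : r' 0 < r 0)
    (lo : Jnn r s) (hi : Jnn (fun i => -r' i) (-s')) (lt : s' < s)
    (gen : Subgroup.closure ({h} ∪ Set.range v) ⊔ ⨆ i, M i = ⊤) :
    Rigid.{u} G (lev h (List.ofFn v).prod s') (lev h (List.ofFn v).prod s) := by
  set w := (List.ofFn v).prod with hw
  have hcw : Commute h w := commute_prod _ v hc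
  -- points fixed by `h`
  have hwz : ∀ (X : Type u) [CompleteLinearOrder X] (ρ : G →* (X ≃o X)) (z : X),
      ρ h z = z → ρ w z = ρ (v 0) z := by
    intro X _ ρ z hz
    have e1 : ρ w = ρ (v 0) * (List.ofFn fun i : Fin (n + 1) => ρ (v i.succ)).prod := by
      rw [hw, map_ofFn_prod, List.ofFn_succ, List.prod_cons]
    rw [e1]
    show ρ (v 0) ((List.ofFn fun i : Fin (n + 1) => ρ (v i.succ)).prod z) = _
    rw [list_fix fun i => ((hb i.succ (Fin.succ_ne_zero i)).fix X ρ z hz).1]
  have hfix : ∀ (X : Type u) [CompleteLinearOrder X] (ρ : G →* (X ≃o X)) (z : X),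
      ρ h z = z → ρ w z = z → ∀ g, ρ g z = z := by
    intro X _ ρ z hz hz'
    rw [hwz X ρ z hz] at hz'
    have hM0 : ∀ g ∈ M 0, ρ g z = z := by
      have h3 : ρ (lev h (v 0) (r 0)) z = z := by
        rw [lev_map]; exact lev_fix hz hz' _
      rcases h0 X ρ z with k | k | k
      · exact absurd h3 k.1.ne'
      · exact absurd h3 k.1.ne
      · exact k.2.2
    refine fix_all gen ρ hz (fun i => ?_) (fun i => ?_)
    · by_cases hi : i = 0
      · rw [hi]; exact hz'
      · exact ((hb i hi).fix X ρ z hz).1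
    · by_cases hi : i = 0
      · rw [hi]; exact hM0
      · exact ((hb i hi).fix X ρ z hz).2
  have hfix2 : ∀ (X : Type u) [CompleteLinearOrder X] (ρ : G →* (X ≃o X)) (z : X),
      ρ (lev h w s') z = z → ρ (lev h w s) z = z → ∀ g, ρ g z = z := by
    intro X _ ρ z h1 h2
    rw [lev_map] at h1 h2
    obtain ⟨k1, k2⟩ := fix_of_two (hcw.map ρ) lt.ne h1 h2
    exact hfix X ρ z k1 k2
  refine ⟨lev_comm hcw s' s, hfix2, fun X _ ρ hs g z0 => ?_⟩
  by_contra hg
  obtain ⟨α, β, a1, a2, hα, hβ, hno⟩ := exists_interval ρ (fun hh => hg (hh g))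
  have hcρ : ∀ i, Commute (ρ h) (ρ (v i)) := fun i => (hc i).map ρ
  have ew : ρ w = (List.ofFn fun i => ρ (v i)).prod := map_ofFn_prod ρ v
  -- the side `0` where `h` has no fixed points
  have side : (∀ z, α < z → z < β → ρ h z ≠ z) →
      (∀ z, α < z → z < β → z < ρ (lev h (v 0) (r 0)) z ∧ z < ρ (lev h (v 0) (r' 0)) z) ∨
      (∀ z, α < z → z < β → ρ (lev h (v 0) (r 0)) z < z ∧ ρ (lev h (v 0) (r' 0)) z < z) := by
    intro hh
    have nf : ∀ z, α < z → z < β → ρ (lev h (v 0) (r 0)) z ≠ z := by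
      intro z z1 z2 z3
      rcases h0 X ρ z with k | k | k
      · exact absurd z3 k.1.ne'
      · exact absurd z3 k.1.ne
      · refine hh z z1 z2 ?_
        have k1 := k.1
        have k2 := k.2.1
        rw [lev_map] at k1 k2
        exact (fix_of_two (hcρ 0) h0'.ne' k1 k2).1
    rcases trich (α := α) (β := β) (ρ (lev h (v 0) (r 0))) with hx | hx | ⟨z, z1, z2, z3⟩
    · left
      intro z z1 z2
      rcases h0 X ρ z with k | k | k
      · exact k
      · exact absurd (hx z z1 z2) (not_lt.mpr k.1.le)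
      · exact absurd k.1 (nf z z1 z2)
    · right
      intro z z1 z2
      rcases h0 X ρ z with k | k | k
      · exact absurd (hx z z1 z2) (not_lt.mpr k.1.le)
      · exact k
      · exact absurd k.1 (nf z z1 z2)
    · exact absurd z3 (nf z z1 z2)
  rcases trich (α := α) (β := β) (ρ h) with hu | hu | ⟨z, z1, z2, z3⟩
  · -- `h` moves all points up
    rcases trich (α := α) (β := β) (ρ (lev h w s')) with hx | hx | ⟨z, z1, z2, z3⟩
    · have hy : Dn α β (ρ (lev h w s)) := fun z z1 z2 => hs.up z (hx z z1 z2)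
      rcases side (fun z z1 z2 => (hu z z1 z2).ne') with k | k
      · revert hy
        rw [lev_map, ew]
        refine low ⟨z0, a1, a2⟩ (hα h) (hβ h) (fun i => hα _) (fun i => hβ _) hcρ hu
          (fun i z z1 z2 => ?_) lo
        rw [← lev_map]
        by_cases hi : i = 0
        · rw [hi]; exact (k z z1 z2).1.le
        · exact ((hb i hi).up X ρ z (hu z z1 z2)).1
      · revert hx
        rw [lev_map, ew]
        refine upp (r := r') ⟨z0, a1, a2⟩ (hα h) (hβ h) (fun i => hα _) (fun i => hβ _) hcρ hu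
          (fun i z z1 z2 => ?_) hi
        rw [← lev_map]
        by_cases hi : i = 0
        · rw [hi]; exact (k z z1 z2).2.le
        · exact ((hb i hi).up X ρ z (hu z z1 z2)).2
    · have hy : Up α β (ρ (lev h w s)) := fun z z1 z2 => hs.down z (hx z z1 z2)
      rw [lev_map] at hx hy
      exact lev_mono (hcw.map ρ) (hα h) (hβ h) (hα w) (hβ w) ⟨z0, a1, a2⟩ hu lt hx hy
    · exact hno z z1 z2 (hfix2 X ρ z z3 (hs.fix z z3))
  · -- `h` moves all points down
    rcases trich (α := α) (β := β) (ρ (lev h w s')) with hx | hx | ⟨z, z1, z2, z3⟩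
    · have hy : Dn α β (ρ (lev h w s)) := fun z z1 z2 => hs.up z (hx z z1 z2)
      rw [lev_map] at hx hy
      exact lev_mono' (hcw.map ρ) (hα h) (hβ h) (hα w) (hβ w) ⟨z0, a1, a2⟩ hu lt hx hy
    · have hy : Up α β (ρ (lev h w s)) := fun z z1 z2 => hs.down z (hx z z1 z2)
      rcases side (fun z z1 z2 => (hu z z1 z2).ne) with k | k
      · revert hx
        rw [lev_map, ew]
        refine upp' (r := r') ⟨z0, a1, a2⟩ (hα h) (hβ h) (fun i => hα _) (fun i => hβ _) hcρ hu
          (fun i z z1 z2 => ?_) hi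
        rw [← lev_map]
        by_cases hi : i = 0
        · rw [hi]; exact (k z z1 z2).2.le
        · exact ((hb i hi).dn X ρ z (hu z z1 z2)).2
      · revert hy
        rw [lev_map, ew]
        refine low' ⟨z0, a1, a2⟩ (hα h) (hβ h) (fun i => hα _) (fun i => hβ _) hcρ hu
          (fun i z z1 z2 => ?_) lo
        rw [← lev_map]
        by_cases hi : i = 0
        · rw [hi]; exact (k z z1 z2).1.le
        · exact ((hb i hi).dn X ρ z (hu z z1 z2)).1
    · exact hno z z1 z2 (hfix2 X ρ z z3 (hs.fix z z3))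
  · -- a fixed point of `h`
    have el : ∀ t : ℚ, ρ (lev h w t) z = (ρ w ^ t.den) z := by
      intro t
      rw [lev_map]
      show (ρ w ^ t.den) ((ρ h ^ (-t.num)) z) = _
      rw [fix_zpow z3]
    rcases lt_trichotomy (ρ w z) z with k | k | k
    · have k1 : ρ (lev h w s') z < z := by
        rw [el]; exact (pow_lt_iff s'.pos).mpr k
      have k2 := hs.down z k1
      rw [el, lt_pow_iff s.pos] at k2
      exact absurd k (not_lt.mpr k2.le)
    · exact hno z z1 z2 (hfix X ρ z z3 k)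
    · have k1 : z < ρ (lev h w s') z := by
        rw [el]; exact (lt_pow_iff s'.pos).mpr k
      have k2 := hs.up z k1
      rw [el, pow_lt_iff s.pos] at k2
      exact absurd k (not_lt.mpr k2.le)

/-- A group with strong bounds. -/
theorem rigidT {h v : G} (hc : Commute h v) (hb : Bd.{u} ⊤ h v s s') (lt : s < s') :
    Rigid.{u} G (lev h v s) (lev h v s')⁻¹ := by
  have hfix2 : ∀ (X : Type u) [CompleteLinearOrder X] (ρ : G →* (X ≃o X)) (z : X),
      ρ (lev h v s) z = z → ρ (lev h v s')⁻¹ z = z → ρ h z = z := by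
    intro X _ ρ z h1 h2
    rw [lev_map] at h1
    rw [map_inv, inv_fix_iff, lev_map] at h2
    exact (fix_of_two (hc.map ρ) lt.ne h1 h2).1
  refine ⟨(lev_comm hc s s').inv_right, fun X _ ρ z h1 h2 g =>
    (hb.fix X ρ z (hfix2 X ρ z h1 h2)).2 g (Subgroup.mem_top g), fun X _ ρ hs g z => ?_⟩
  rcases lt_trichotomy (ρ h z) z with k | k | k
  · exfalso
    obtain ⟨k1, k2⟩ := hb.dn X ρ z k
    rcases k1.lt_or_eq with k3 | k3
    · have k4 := hs.down z k3
      rw [map_inv, lt_inv_iff] at k4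
      exact absurd k4 (not_lt.mpr k2)
    · exact absurd (hfix2 X ρ z k3 (hs.fix z k3)) k.ne
  · exact (hb.fix X ρ z k).2 g (Subgroup.mem_top g)
  · exfalso
    obtain ⟨k1, k2⟩ := hb.up X ρ z k
    rcases k1.lt_or_eq with k3 | k3
    · have k4 := hs.up z k3
      rw [map_inv, inv_lt_iff] at k4
      exact absurd k4 (not_lt.mpr k2)
    · exact absurd (hfix2 X ρ z k3.symm (hs.fix z k3.symm)) k.ne'

end comp

end Pool.Agent.J6H6.JN
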