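import Pool.Agent.J6H6.JN.Extremal

set_option autoImplicit false

/-!
# Products of order automorphisms: reduction to the extremal triples
-/

namespace Pool.Agent.J6H6.JN

open Pool.Agent.Y479.LS Aut

section arith

/-- Farey parents of the fraction with the smallest denominator between two given numbers. -/
theorem parents {p₁ q₁ p₂ q₂ a m : ℕ} (hq₁ : 1 ≤ q₁) (hq₂ : 1 ≤ q₂) (ham : a < m)
    (h1 : p₁ * m < a * q₁) (h2 : p₂ * m < (m - a) * q₂)
    (hmin : ∀ a' m' : ℕ, a' < m' → m' < m → p₁ * m' < a' * q₁ → ¬ p₂ * m' < (m' - a') * q₂)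
    (h3 : q₁ ≤ p₁ * m) (h4 : q₂ ≤ p₂ * m) :
    ∃ p q p' q' : ℕ, p' * q = p * q' + 1 ∧ 2 ≤ q ∧ 2 ≤ q' ∧ p' < q' ∧ q + q' = m ∧
      p * q₁ ≤ p₁ * q ∧ q₂ * q' ≤ p' * q₂ + p₂ * q' := by
  have ha : 1 ≤ a := by
    rcases Nat.eq_zero_or_pos a with h | h
    · rw [h, zero_mul] at h1; omega
    · exact h
  have hcop : Nat.Coprime a m := by
    by_contra hc
    have hd : 1 < Nat.gcd a m := by
      have : 0 < Nat.gcd a m := Nat.gcd_pos_of_pos_left _ (by omega)
      have h5 : Nat.gcd a m ≠ 1 := hc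
      omega
    obtain ⟨a', ha'⟩ := Nat.gcd_dvd_left a m
    obtain ⟨m', hm'⟩ := Nat.gcd_dvd_right a m
    set d := Nat.gcd a m with hdef
    have k1 : a' < m' := by
      rw [ha', hm'] at ham
      exact Nat.lt_of_mul_lt_mul_left ham
    have k2 : m' < m := by
      rw [hm']
      nlinarith
    refine hmin a' m' k1 k2 ?_ ?_
    · have h5 : d * (p₁ * m') < d * (a' * q₁) := by
        calc d * (p₁ * m') = p₁ * (d * m') := by ring
          _ = p₁ * m := by rw [← hm']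
          _ < a * q₁ := h1
          _ = d * (a' * q₁) := by rw [← mul_assoc, ← ha']
      exact Nat.lt_of_mul_lt_mul_left h5
    · have h5 : d * (p₂ * m') < d * ((m' - a') * q₂) := by
        calc d * (p₂ * m') = p₂ * (d * m') := by ring
          _ = p₂ * m := by rw [← hm']
          _ < (m - a) * q₂ := h2
          _ = d * ((m' - a') * q₂) := by
            rw [← mul_assoc, Nat.mul_sub, ← ha', ← hm']
      exact Nat.lt_of_mul_lt_mul_left h5
  obtain ⟨q, p, hqm, hpq⟩ : ∃ q p : ℕ, q < m ∧ a * q = p * m + 1 := by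
    obtain ⟨q, hqm, haq⟩ := Nat.exists_mul_mod_eq_one_of_coprime hcop (by omega)
    refine ⟨q, a * q / m, hqm, ?_⟩
    have := Nat.div_add_mod (a * q) m
    rw [haq] at this
    linarith [mul_comm m (a * q / m)]
  have hq1 : 1 ≤ q := by
    rcases Nat.eq_zero_or_pos q with h | h
    · rw [h, mul_zero] at hpq; omega
    · exact h
  have hpa : p < a := by
    by_contra hcon
    rw [not_lt] at hcon
    have k1 : a * q < a * m := Nat.mul_lt_mul_of_pos_left hqm (by omega)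
    have k2 : a * m ≤ p * m := Nat.mul_le_mul_right _ hcon
    omega
  have hpq' : p < q := by
    by_contra hcon
    rw [not_lt] at hcon
    have k1 : q * m ≤ p * m := Nat.mul_le_mul_right _ hcon
    have k2 : a * q < m * q := Nat.mul_lt_mul_of_pos_right ham (by omega)
    nlinarith
  obtain ⟨q', hmq⟩ : ∃ q', m = q + q' := ⟨m - q, by omega⟩
  obtain ⟨p', hap⟩ : ∃ p', a = p + p' := ⟨a - p, by omega⟩
  have hq'1 : 1 ≤ q' := by omega
  have hp'1 : 1 ≤ p' := by omega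
  have em : (m : ℤ) = q + q' := by omega
  have ea : (a : ℤ) = p + p' := by omega
  have hpqZ : (a : ℤ) * q = p * m + 1 := by exact_mod_cast hpq
  have hF : (p' : ℤ) * q = p * q' + 1 := by
    rw [em, ea] at hpqZ; linarith
  have hFN : p' * q = p * q' + 1 := by exact_mod_cast hF
  have h1Z : (p₁ : ℤ) * m < a * q₁ := by exact_mod_cast h1
  have h2Z : (p₂ : ℤ) * m < (m - a) * q₂ := by
    have h5 : ((p₂ * m : ℕ) : ℤ) < (((m - a) * q₂ : ℕ) : ℤ) := by exact_mod_cast h2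
    rw [Nat.cast_mul, Nat.cast_mul, Nat.cast_sub ham.le] at h5
    exact h5
  have hq₂Z : (1 : ℤ) ≤ q₂ := by exact_mod_cast hq₂
  have hq₁Z : (1 : ℤ) ≤ q₁ := by exact_mod_cast hq₁
  have hmZ : (0 : ℤ) < m := by omega
  have hqZ : (1 : ℤ) ≤ q := by exact_mod_cast hq1
  have hq'Z : (1 : ℤ) ≤ q' := by exact_mod_cast hq'1
  -- `p / q ≤ r₁`
  have hr1 : p * q₁ ≤ p₁ * q := by
    by_contra hcon
    rw [not_le] at hcon
    refine hmin p q hpq' hqm hcon ?_
    have k1 : (p₂ : ℤ) * q < (q - p) * q₂ := by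
      have k2 : (m : ℤ) * (p₂ * q) < m * ((q - p) * q₂) := by
        have k3 : (q : ℤ) * (p₂ * m) < q * ((m - a) * q₂) := by
          exact mul_lt_mul_of_pos_left h2Z (by omega)
        have k4 : (q : ℤ) * ((m - a) * q₂) = m * ((q - p) * q₂) - q₂ := by
          linear_combination (-(q₂ : ℤ)) * hpqZ
        linarith
      exact lt_of_mul_lt_mul_left k2 hmZ.le
    have k5 : ((p₂ * q : ℕ) : ℤ) < (((q - p) * q₂ : ℕ) : ℤ) := by
      rw [Nat.cast_mul, Nat.cast_mul, Nat.cast_sub hpq'.le]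
      exact k1
    exact_mod_cast k5
  -- `q ≥ 2`
  have hq2 : 2 ≤ q := by
    by_contra hcon
    have hq1' : q = 1 := by omega
    have hp0 : p = 0 := by
      by_contra hne
      have : m ≤ p * m := Nat.le_mul_of_pos_left _ (by omega)
      rw [hq1', mul_one] at hpq
      omega
    rw [hq1', hp0, zero_mul, mul_one] at hpq
    rw [hpq] at h1
    omega
  have hq'2 : 2 ≤ q' := by
    by_contra hcon
    have hq1' : q' = 1 := by omega
    rw [hq1', mul_one] at hFN
    have k1 : p' = 1 := by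
      by_contra hne
      have : 2 ≤ p' := by omega
      nlinarith
    have k2 : m - a = 1 := by
      rw [k1] at hFN; omega
    rw [k2] at h2
    omega
  have hpq'' : p' < q' := by
    by_contra hcon
    rw [not_lt] at hcon
    have k1 : q' * q ≤ p' * q := Nat.mul_le_mul_right _ hcon
    have k2 : p + 1 ≤ q := hpq'
    have k3 : q' * (p + 1) ≤ q' * q := Nat.mul_le_mul_left _ k2
    nlinarith
  refine ⟨p, q, p', q', hFN, hq2, hq'2, hpq'', by omega, hr1, ?_⟩
  by_contra hcon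
  rw [not_le] at hcon
  have hconZ : (p' : ℤ) * q₂ + p₂ * q' < q₂ * q' := by exact_mod_cast hcon
  refine hmin p' q' hpq'' (by omega) ?_ ?_
  · have k1 : (p₁ : ℤ) * q' < p' * q₁ := by
      have k2 : (m : ℤ) * (p₁ * q') < m * (p' * q₁) := by
        have k3 : (q' : ℤ) * (p₁ * m) < q' * (a * q₁) :=
          mul_lt_mul_of_pos_left h1Z (by omega)
        have k4 : (q' : ℤ) * (a * q₁) = m * (p' * q₁) - q₁ := by
          rw [em, ea]
          linear_combination (-(q₁ : ℤ)) * hF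
        linarith
      exact lt_of_mul_lt_mul_left k2 hmZ.le
    exact_mod_cast k1
  · have k5 : ((p₂ * q' : ℕ) : ℤ) < (((q' - p') * q₂ : ℕ) : ℤ) := by
      rw [Nat.cast_mul, Nat.cast_mul, Nat.cast_sub hpq''.le]
      linarith
    exact_mod_cast k5

end arith

section roots
variable {X : Type*} [LinearOrder X]

/-- Roots of inequalities between commuting automorphisms. -/
theorem root_le {u v : Aut X} (h : Commute u v) {n : ℕ} (hn : 1 ≤ n) (hle : u ^ n ≤ v ^ n) :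
    u ≤ v := by
  by_contra hcon
  obtain ⟨z, hz⟩ : ∃ z, v z < u z := by
    by_contra h1
    push Not at h1
    exact hcon h1
  have k : ∀ k : ℕ, (v ^ k) z ≤ (u ^ k) z ∧ (v ^ (k + 1)) z < (u ^ (k + 1)) z := by
    intro k
    induction k with
    | zero => simpa using hz
    | succ k ih =>
      refine ⟨ih.2.le, ?_⟩
      rw [iter_mul_apply' v, iter_mul_apply u (k + 1)]
      refine lt_of_lt_of_le ((lt_iff (v ^ (k + 1))).mpr hz) ?_
      rw [← mul_apply, ← (h.pow_right (k + 1)).eq, mul_apply, le_iff]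
      exact ih.2.le
  obtain ⟨m, rfl⟩ := Nat.exists_eq_add_of_le' hn
  exact absurd (hle z) (not_le.mpr (k m).2)

theorem rotate_le {P : Type*} [Group P] [PartialOrder P] [MulLeftMono P] [MulRightMono P]
    {x y z g : P} (hx : Commute g x) (h : x * y * z ≤ g) : y * z * x ≤ g := by
  have h1 : y * z ≤ x⁻¹ * g := by
    rw [le_inv_mul_iff_mul_le, ← mul_assoc]; exact h
  calc y * z * x ≤ x⁻¹ * g * x := mul_le_mul_left h1 _
    _ = g := by rw [mul_assoc, hx.eq, inv_mul_cancel_left]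

end roots

section triple
variable {X : Type*} [LinearOrder X] [Nonempty X]

/-- From `r₂` for `y`: `v y ≤ g` gives `1 - r₂` for `v`. -/
theorem compl_le {P : Type*} [Group P] [PartialOrder P] [MulLeftMono P] [MulRightMono P]
    {v y g : P} {p q : ℕ} (cy : Commute g y) (hv : v * y ≤ g) (hy : g ^ p ≤ y ^ q) (hpq : p ≤ q) :
    v ^ q ≤ g ^ (q - p) := by
  have h1 : v ≤ g * y⁻¹ := le_mul_inv_iff_mul_le.mpr hv
  refine (pow_le_pow_of_le h1 q).trans ?_
  rw [cy.inv_right.mul_pow, inv_pow, mul_inv_le_iff_le_mul]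
  calc g ^ q = g ^ (q - p) * g ^ p := by rw [← pow_add]; congr 1; omega
    _ ≤ g ^ (q - p) * y ^ q := mul_le_mul_right hy _

/-- **Three automorphisms.** -/
theorem triple {x y z g : Aut X} {p₁ q₁ p₂ q₂ p₃ q₃ : ℕ} (cx : Commute g x) (cy : Commute g y)
    (cz : Commute g z) (x1 : ∀ w, w < x w) (z1 : ∀ w, w < z w)
    (g1 : ∀ w, w < g w) (hcyc : x * z * y ≤ g ∨ z * x * y ≤ g) (hq₁ : 1 ≤ q₁) (hq₂ : 1 ≤ q₂)
    (hq₃ : 1 ≤ q₃) (hx : g ^ p₁ ≤ x ^ q₁) (hy : g ^ p₂ ≤ y ^ q₂) (hz : g ^ p₃ ≤ z ^ q₃)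
    (h31 : p₃ * q₁ ≤ p₁ * q₃) (h32 : p₃ * q₂ ≤ p₂ * q₃) :
    ∃ a m : ℕ, 0 < a ∧ a < m ∧ p₁ * m < a * q₁ ∧ p₂ * m < (m - a) * q₂ ∧ p₃ * m < q₃ := by
  have g1' : (1 : Aut X) < g := Aut.lt_of g1
  by_contra H
  rcases Nat.lt_or_ge (p₁ * q₂ + p₂ * q₁) (q₁ * q₂) with hlt | hge
  · have hex : ∃ m : ℕ, ∃ a, a < m ∧ p₁ * m < a * q₁ ∧ p₂ * m < (m - a) * q₂ := by
      refine ⟨2 * (q₁ * q₂), 2 * (p₁ * q₂) + 1, ?_, ?_, ?_⟩
      · have : p₁ * q₂ ≤ p₁ * q₂ + p₂ * q₁ := Nat.le_add_right _ _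
        omega
      · nlinarith
      · have e : 2 * (q₁ * q₂) - (2 * (p₁ * q₂) + 1) =
            2 * (p₂ * q₁) + (2 * (q₁ * q₂ - p₁ * q₂ - p₂ * q₁) - 1) := by omega
        have e2 : 1 ≤ 2 * (q₁ * q₂ - p₁ * q₂ - p₂ * q₁) - 1 := by omega
        rw [e]
        nlinarith
    classical
    obtain ⟨a, ham, h1, h2⟩ := Nat.find_spec hex
    have hmin := fun m' (h : m' < Nat.find hex) => Nat.find_min hex h
    set m := Nat.find hex with hm
    have ha : 0 < a := by
      rcases Nat.eq_zero_or_pos a with h | h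
      · rw [h, zero_mul] at h1; omega
      · exact h
    have h3 : q₃ ≤ p₃ * m := by
      by_contra hcon
      exact H ⟨a, m, ha, ham, h1, h2, not_le.mp hcon⟩
    have k1 : q₁ ≤ p₁ * m := by
      have : q₃ * q₁ ≤ q₃ * (p₁ * m) := by
        calc q₃ * q₁ ≤ p₃ * m * q₁ := Nat.mul_le_mul_right _ h3
          _ = p₃ * q₁ * m := by ring
          _ ≤ p₁ * q₃ * m := Nat.mul_le_mul_right _ h31
          _ = q₃ * (p₁ * m) := by ring
      exact Nat.le_of_mul_le_mul_left this hq₃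
    have k2 : q₂ ≤ p₂ * m := by
      have : q₃ * q₂ ≤ q₃ * (p₂ * m) := by
        calc q₃ * q₂ ≤ p₃ * m * q₂ := Nat.mul_le_mul_right _ h3
          _ = p₃ * q₂ * m := by ring
          _ ≤ p₂ * q₃ * m := Nat.mul_le_mul_right _ h32
          _ = q₃ * (p₂ * m) := by ring
      exact Nat.le_of_mul_le_mul_left this hq₃
    obtain ⟨p, q, p', q', hF, hq, hq', hpq', hqm, l1, l2⟩ := parents hq₁ hq₂ ham h1 h2
      (fun a' m' k3 k4 k5 k6 => hmin m' k4 ⟨a', k3, k5, k6⟩) k1 k2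
    have hpow : ∀ {i j : ℕ}, i ≤ j → g ^ i ≤ g ^ j := fun {i j} hij =>
      pow_le_pow_right' g1'.le hij
    -- the three inequalities
    have A : g ^ p ≤ x ^ q := by
      refine root_le (cx.pow_pow p q) hq₁ ?_
      rw [← pow_mul, ← pow_mul]
      calc g ^ (p * q₁) ≤ g ^ (p₁ * q) := hpow l1
        _ = (g ^ p₁) ^ q := pow_mul _ _ _
        _ ≤ (x ^ q₁) ^ q := pow_le_pow_of_le hx q
        _ = x ^ (q * q₁) := by rw [← pow_mul, mul_comm]
    have B : g ≤ z ^ (q + q') := by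
      have : g ^ 1 ≤ z ^ (q + q') := by
        refine root_le (cz.pow_pow 1 _) hq₃ ?_
        rw [← pow_mul, ← pow_mul, one_mul, hqm]
        calc g ^ q₃ ≤ g ^ (p₃ * m) := hpow h3
          _ = (g ^ p₃) ^ m := pow_mul _ _ _
          _ ≤ (z ^ q₃) ^ m := pow_le_pow_of_le hz m
          _ = z ^ (m * q₃) := by rw [← pow_mul, mul_comm]
      rwa [pow_one] at this
    have hp2 : p₂ ≤ q₂ := by
      by_contra hcon
      have k3 : q₂ * m ≤ p₂ * m := Nat.mul_le_mul_right _ (not_le.mp hcon).le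
      have k4 : (m - a) * q₂ ≤ m * q₂ := Nat.mul_le_mul_right _ (Nat.sub_le _ _)
      have k5 : m * q₂ = q₂ * m := mul_comm _ _
      omega
    have C : ∀ v : Aut X, Commute g v → v * y ≤ g → v ^ q' ≤ g ^ p' := by
      intro v cv hv
      have k3 := compl_le cy hv hy hp2
      refine root_le ((cv.pow_pow p' q').symm) hq₂ ?_
      rw [← pow_mul, ← pow_mul, mul_comm q']
      calc v ^ (q₂ * q') = (v ^ q₂) ^ q' := pow_mul _ _ _
        _ ≤ (g ^ (q₂ - p₂)) ^ q' := pow_le_pow_of_le k3 _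
        _ = g ^ ((q₂ - p₂) * q') := (pow_mul _ _ _).symm
        _ ≤ g ^ (p' * q₂) := hpow (by
          rw [Nat.sub_mul]
          omega)
    have V : (x * z) ^ q' ≤ g ^ p' := by
      rcases hcyc with h | h
      · exact C _ (cx.mul_right cz) h
      · have k3 := C _ (cz.mul_right cx) h
        have e : x * z = z⁻¹ * (z * x) * z := by
          rw [inv_mul_cancel_left]
        have e2 : (z⁻¹ * (z * x) * z) ^ q' = z⁻¹ * (z * x) ^ q' * z := by
          have := conj_pow (i := q') (a := z⁻¹) (b := z * x)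
          rwa [inv_inv] at this
        rw [e, e2]
        calc z⁻¹ * (z * x) ^ q' * z ≤ z⁻¹ * g ^ p' * z :=
              mul_le_mul_left (mul_le_mul_right k3 _) _
          _ = g ^ p' := by rw [mul_assoc, (cz.pow_left _).eq, inv_mul_cancel_left]
    exact corner cx cz z1 x1 g1 A V B hF hq hq' hpq'
  · -- `r₁ + r₂ ≥ 1`
    have hxy : ∀ w, (x * y) w < g w := by
      intro w
      rcases hcyc with h | h
      · refine lt_of_lt_of_le ?_ (h w)
        exact (lt_iff x).mpr (z1 (y w))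
      · exact lt_of_lt_of_le (z1 _) (h w)
    have hyu : ∀ w, y w < (x⁻¹ * g) w := by
      intro w
      rw [mul_apply, ← lt_iff x, self_inv]
      exact hxy w
    obtain ⟨w⟩ := ‹Nonempty X›
    obtain ⟨n, hn⟩ : ∃ n, q₁ * q₂ = n + 1 :=
      ⟨q₁ * q₂ - 1, by have : 1 ≤ q₁ * q₂ := Nat.mul_le_mul hq₁ hq₂; omega⟩
    have k1 := pow_lt_pow hyu n w
    rw [← hn] at k1
    have k2 : (x⁻¹ * g) ^ (q₁ * q₂) = (x ^ (q₁ * q₂))⁻¹ * g ^ (q₁ * q₂) := by
      rw [(cx.symm.inv_left).mul_pow, inv_pow]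
    have k3 : g ^ (p₁ * q₂) ≤ x ^ (q₁ * q₂) := by
      rw [pow_mul, pow_mul]; exact pow_le_pow_of_le hx _
    have k4 : g ^ (p₂ * q₁) ≤ y ^ (q₁ * q₂) := by
      rw [mul_comm q₁, pow_mul, pow_mul]; exact pow_le_pow_of_le hy _
    have k5 : (g ^ (p₂ * q₁)) w < ((g ^ (p₁ * q₂))⁻¹ * g ^ (q₁ * q₂)) w := by
      refine lt_of_le_of_lt (k4 w) (k1.trans_le ?_)
      rw [k2]
      exact (mul_le_mul_left (inv_le_inv_iff.mpr k3) (g ^ (q₁ * q₂))) w
    rw [mul_apply, ← lt_iff (g ^ (p₁ * q₂)), self_inv, ← mul_apply, ← pow_add] at k5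
    exact absurd (pow_le_pow_right' g1'.le hge w) (not_le.mpr k5)

end triple

end Pool.Agent.J6H6.JN
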