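import Pool.Agent.Y479.LS.Sum
import Pool.Agent.J6H6.JN.Triple

set_option autoImplicit false

/-!
# Alternating tangles that contain rational tangles
-/

namespace Pool.Agent.J6H6.JN

open Pool.Agent.Y479.LS

/-- `S` is a part of the diagram `T`: regions and crossings of `S` are regions and crossings of `T`. -/
structure Sub (S T : Tangle) where
  W : S.W → T.W
  B : S.B → T.B
  C : S.C → T.C
  w₁ : ∀ c, T.w₁ (C c) = W (S.w₁ c)
  b₁ : ∀ c, T.b₁ (C c) = B (S.b₁ c)
  w₂ : ∀ c, T.w₂ (C c) = W (S.w₂ c)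
  b₂ : ∀ c, T.b₂ (C c) = B (S.b₂ c)

/-- The tangle `T` contains the rational tangle `p / q`, with the same white poles `west`, `east`.

* `walk`: a walk of length `d` from `west` to `east` in the white graph is the rational tangle `1 / d`;
* `series`, `series'`: a walk of length `m` and a part `S` which contains `p / q` form
  `1 / (m + q / p)`;
* `parallel`: a part `S` with the poles `west`, `east` which contains `p / q`, and `s` crossings between
  `west` and `east`, before and after `S` in the cyclic order around `west`, form `s + p / q`. -/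
inductive Contains : Tangle → ℕ → ℕ → Prop
  | walk {T : Tangle} {d : ℕ} : Walk T.w₁ T.w₂ d T.west T.east → Contains T 1 d
  | series {T S : Tangle} {m p q : ℕ} (φ : Sub S T) :
      Walk T.w₁ T.w₂ m T.west (φ.W S.west) → φ.W S.east = T.east → Contains S p q →
      Contains T p (q + m * p)
  | series' {T S : Tangle} {m p q : ℕ} (φ : Sub S T) :
      φ.W S.west = T.west → Walk T.w₁ T.w₂ m (φ.W S.east) T.east → Contains S p q →
      Contains T p (q + m * p)
  | parallel {T S : Tangle} {p q : ℕ} {l₁ l₂ l₃ : List (T.C × Bool)} (φ : Sub S T) :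
      φ.W S.west = T.west → φ.W S.east = T.east → T.starW T.west = l₁ ++ l₂ ++ l₃ →
      Path T.b₁ T.b₂ T.north l₁ (φ.B S.north) → Path T.b₁ T.b₂ (φ.B S.south) l₃ T.south →
      Contains S p q →
      Contains T (p + (facing T.w₁ T.w₂ l₁ T.east + facing T.w₁ T.w₂ l₃ T.east) * q) q

theorem Contains.pos {T : Tangle} {p q : ℕ} (h : Contains T p q) : 1 ≤ p ∧ 1 ≤ q := by
  induction h with
  | @walk T d hw =>
    refine ⟨le_rfl, ?_⟩
    rcases Nat.eq_zero_or_pos d with h0 | h0
    · rw [h0] at hw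
      exact absurd hw T.white.ne
    · exact h0
  | series _ _ _ _ ih => exact ⟨ih.1, ih.2.trans (Nat.le_add_right _ _)⟩
  | series' _ _ _ _ ih => exact ⟨ih.1, ih.2.trans (Nat.le_add_right _ _)⟩
  | parallel _ _ _ _ _ _ _ ih => exact ⟨ih.1.trans (Nat.le_add_right _ _), ih.2⟩

section dom
variable {X : Type*} [LinearOrder X] [Nonempty X]

/-- A representation with positive voltage. -/
structure Pos (T : Tangle) (w : T.W → Aut X) (b : T.B → Aut X) : Prop where
  rep : T.Rep w b
  pos : ∀ x, w T.west x < w T.east x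

theorem Sub.rep {S T : Tangle} (φ : Sub S T) {G : Type*} [Group G] {w : T.W → G} {b : T.B → G}
    (h : T.Rep w b) : S.Rep (fun v => w (φ.W v)) (fun v => b (φ.B v)) := by
  intro c
  have := h (φ.C c)
  rw [φ.w₁, φ.b₁, φ.w₂, φ.b₂] at this
  exact this

theorem Pos.bounds {T : Tangle} {w : T.W → Aut X} {b : T.B → Aut X} (h : Pos T w b) :
    T.Rep (fun v => (w T.west)⁻¹ * w v) (fun v => (b T.north)⁻¹ * b v) ∧
      Bounds (fun v => (w T.west)⁻¹ * w v) T.west T.east ∧
      Bounds (fun v => (b T.north)⁻¹ * b v) T.north T.south := by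
  have hr : T.Rep (fun v => (w T.west)⁻¹ * w v) (fun v => (b T.north)⁻¹ * b v) := by
    intro c
    have := h.rep c
    simp only [mul_inv_rev, inv_inv, mul_assoc, mul_inv_cancel_left]
    exact this
  obtain ⟨h1, h2, -⟩ := Tangle.bounds hr (inv_mul_cancel _) (inv_mul_cancel _) (by
    intro x
    rw [Aut.mul_apply, ← Aut.lt_iff (w T.west), Aut.self_inv]
    exact h.pos x)
  exact ⟨hr, h1, h2⟩

/-- A contained rational tangle gives an inequality between voltage and current. -/
theorem Contains.le {T : Tangle} {p q : ℕ} (h : Contains T p q) {w : T.W → Aut X}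
    {b : T.B → Aut X} (hp : Pos T w b) {z z' : Aut X} (hc : Commute z z')
    (hz : z ≤ (w T.west)⁻¹ * w T.east) (hz' : (b T.north)⁻¹ * b T.south ≤ z') :
    z ^ p ≤ z' ^ q := by
  induction h generalizing z z' with
  | @walk T d hw =>
    obtain ⟨hr, hW, hB⟩ := hp.bounds
    have h1 := Side.walk_le hr.white hB d _ _ hw
    rw [hW.base, inv_one, one_mul] at h1
    rw [pow_one]
    exact hz.trans (h1.trans (pow_le_pow_of_le hz' d))
  | @series T S m p q φ hw he hS ih =>
    obtain ⟨hr, hW, hB⟩ := hp.bounds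
    have h1 := Side.walk_le hr.white hB m _ _ hw
    rw [hW.base, inv_one, one_mul] at h1
    have h2 : (w T.west)⁻¹ * w (φ.W S.west) ≤ z' ^ m := h1.trans (pow_le_pow_of_le hz' m)
    have hz1 : 1 ≤ z' := le_trans (hB.one_le _) hz'
    by_cases heq : φ.W S.west = T.east
    · rw [heq] at h2
      calc z ^ p ≤ (z' ^ m) ^ p := pow_le_pow_of_le (hz.trans h2) p
        _ = z' ^ (m * p) := (pow_mul _ _ _).symm
        _ ≤ z' ^ (q + m * p) := pow_le_pow_right' hz1 (Nat.le_add_left _ _)
    · have hp' : Pos S (fun v => w (φ.W v)) (fun v => b (φ.B v)) := by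
        have := T.finW
        refine ⟨φ.rep hp.rep, fun x => ?_⟩
        show w (φ.W S.west) x < w (φ.W S.east) x
        rw [he]
        exact T.white.lt_second hp.rep.white x (hp.pos x) heq
      have h3 := ih hp' (z := (z' ^ m)⁻¹ * z) (z' := z')
        (((Commute.refl z').pow_left m).inv_left.mul_left hc) ?_ ?_
      · rw [(hc.symm.pow_left m).inv_left.mul_pow, inv_pow, ← pow_mul, inv_mul_le_iff_le_mul,
          ← pow_add, add_comm] at h3
        exact h3
      · show _ ≤ (w (φ.W S.west))⁻¹ * w (φ.W S.east)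
        rw [he]
        calc (z' ^ m)⁻¹ * z ≤ ((w T.west)⁻¹ * w (φ.W S.west))⁻¹ * ((w T.west)⁻¹ * w T.east) :=
              mul_le_mul' (inv_le_inv_iff.mpr h2) hz
          _ = _ := by group
      · refine le_trans ?_ hz'
        have h4 := hB.one_le (φ.B S.north)
        have h5 := hB.le (φ.B S.south)
        calc (b (φ.B S.north))⁻¹ * b (φ.B S.south)
            = ((b T.north)⁻¹ * b (φ.B S.north))⁻¹ * ((b T.north)⁻¹ * b (φ.B S.south)) := by group
          _ ≤ 1 * ((b T.north)⁻¹ * b T.south) := mul_le_mul' (inv_le_one'.mpr h4) h5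
          _ = _ := one_mul _
  | @series' T S m p q φ he hw hS ih =>
    obtain ⟨hr, hW, hB⟩ := hp.bounds
    have h1 := Side.walk_le hr.white hB m _ _ hw
    have h2 : (w (φ.W S.east))⁻¹ * w T.east ≤ z' ^ m := by
      refine le_trans (le_of_eq ?_) (h1.trans (pow_le_pow_of_le hz' m))
      simp only [mul_inv_rev, inv_inv, mul_assoc, mul_inv_cancel_left]
    have hz1 : 1 ≤ z' := le_trans (hB.one_le _) hz'
    by_cases heq : φ.W S.east = T.west
    · rw [heq] at h2
      calc z ^ p ≤ (z' ^ m) ^ p := pow_le_pow_of_le (hz.trans h2) p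
        _ = z' ^ (m * p) := (pow_mul _ _ _).symm
        _ ≤ z' ^ (q + m * p) := pow_le_pow_right' hz1 (Nat.le_add_left _ _)
    · have hp' : Pos S (fun v => w (φ.W v)) (fun v => b (φ.B v)) := by
        have := T.finW
        refine ⟨φ.rep hp.rep, fun x => ?_⟩
        show w (φ.W S.west) x < w (φ.W S.east) x
        rw [he]
        exact T.white.first_lt hp.rep.white x (hp.pos x) heq
      have h3 := ih hp' (z := z * (z' ^ m)⁻¹) (z' := z')
        (hc.mul_left ((Commute.refl z').pow_left m).inv_left) ?_ ?_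
      · rw [(hc.pow_right m).inv_right.mul_pow, inv_pow, ← pow_mul, mul_inv_le_iff_le_mul,
          ← pow_add] at h3
        exact h3
      · show _ ≤ (w (φ.W S.west))⁻¹ * w (φ.W S.east)
        rw [he]
        calc z * (z' ^ m)⁻¹ ≤ ((w T.west)⁻¹ * w T.east) * ((w (φ.W S.east))⁻¹ * w T.east)⁻¹ :=
              mul_le_mul' hz (inv_le_inv_iff.mpr h2)
          _ = _ := by group
      · refine le_trans ?_ hz'
        have h4 := hB.one_le (φ.B S.north)
        have h5 := hB.le (φ.B S.south)
        calc (b (φ.B S.north))⁻¹ * b (φ.B S.south)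
            = ((b T.north)⁻¹ * b (φ.B S.north))⁻¹ * ((b T.north)⁻¹ * b (φ.B S.south)) := by group
          _ ≤ 1 * ((b T.north)⁻¹ * b T.south) := mul_le_mul' (inv_le_one'.mpr h4) h5
          _ = _ := one_mul _
  | @parallel T S p q l₁ l₂ l₃ φ hw he hl hp1 hp3 hS ih =>
    obtain ⟨hr, hW, hB⟩ := hp.bounds
    have hp' : Pos S (fun v => w (φ.W v)) (fun v => b (φ.B v)) := by
      refine ⟨φ.rep hp.rep, fun x => ?_⟩
      show w (φ.W S.west) x < w (φ.W S.east) x
      rw [he, hw]
      exact hp.pos x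
    have s1 := (T.white.seg_first hr.white hW (l := l₁) (fun k hk => by
      rw [hl]; exact List.mem_append_left _ (List.mem_append_left _ hk)) hp1).1
    have s3 := (T.white.seg_first hr.white hW (l := l₃) (fun k hk => by
      rw [hl]; exact List.mem_append_right _ hk) hp3).1
    set n₁ := facing T.w₁ T.w₂ l₁ T.east with hn₁
    set n₃ := facing T.w₁ T.w₂ l₃ T.east with hn₃
    have s1' : z ^ n₁ ≤ (b T.north)⁻¹ * b (φ.B S.north) := by
      refine (pow_le_pow_of_le hz n₁).trans (s1.trans (le_of_eq ?_))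
      group
    have s3' : z ^ n₃ ≤ (b (φ.B S.south))⁻¹ * b T.south := by
      refine (pow_le_pow_of_le hz n₃).trans (s3.trans (le_of_eq ?_))
      group
    have h3 := ih hp' (z := z) (z' := z' * (z ^ (n₁ + n₃))⁻¹)
      (hc.mul_right ((Commute.refl z).pow_right _).inv_right) ?_ ?_
    · rw [(hc.symm.pow_right _).inv_right.mul_pow, inv_pow, ← pow_mul, le_mul_inv_iff_mul_le,
        ← pow_add] at h3
      exact h3
    · show _ ≤ (w (φ.W S.west))⁻¹ * w (φ.W S.east)
      rw [he, hw]
      exact hz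
    · show (b (φ.B S.north))⁻¹ * b (φ.B S.south) ≤ _
      have h4 : z ^ n₁ * ((b (φ.B S.north))⁻¹ * b (φ.B S.south)) * z ^ n₃ ≤ z' := by
        refine le_trans (mul_le_mul' (mul_le_mul_left s1' _) s3') (le_trans (le_of_eq ?_) hz')
        group
      have c3 : Commute z' (z ^ n₁) := (hc.symm.pow_right n₁)
      calc (b (φ.B S.north))⁻¹ * b (φ.B S.south)
          = (z ^ n₁)⁻¹ * (z ^ n₁ * ((b (φ.B S.north))⁻¹ * b (φ.B S.south)) * z ^ n₃) *
            (z ^ n₃)⁻¹ := by group
        _ ≤ (z ^ n₁)⁻¹ * z' * (z ^ n₃)⁻¹ := mul_le_mul_left (mul_le_mul_right h4 _) _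
        _ = z' * (z ^ (n₁ + n₃))⁻¹ := by
            rw [← c3.inv_right.eq, mul_assoc, ← mul_inv_rev, ← pow_add, add_comm n₃]

end dom

section swap

theorem cAt_flip {V C : Type} (v₁ v₂ : C → V) (k : C × Bool) :
    cAt v₂ v₁ (k.1, !k.2) = cAt v₁ v₂ k := by
  obtain ⟨c, s⟩ := k
  cases s <;> rfl

theorem cOpp_flip {V C : Type} (v₁ v₂ : C → V) (k : C × Bool) :
    cOpp v₂ v₁ (k.1, !k.2) = cOpp v₁ v₂ k := by
  obtain ⟨c, s⟩ := k
  cases s <;> rfl

/-- The other corner of the same colour. -/
def flipK {C : Type} (k : C × Bool) : C × Bool := (k.1, !k.2)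

theorem flipK_flipK {C : Type} (k : C × Bool) : flipK (flipK k) = k := by
  obtain ⟨c, s⟩ := k
  cases s <;> rfl

theorem path_flip {E C : Type} {e₁ e₂ : C → E} : ∀ (l : List (C × Bool)) {a b : E},
    Path e₁ e₂ a l b → Path e₂ e₁ a (l.map flipK) b
  | [], _, _, h => h
  | k :: l, a, b, h => by
    obtain ⟨h1, h2⟩ : cOpp e₁ e₂ k = a ∧ Path e₁ e₂ (cAt e₁ e₂ k) l b := h
    refine ⟨?_, ?_⟩
    · rw [← h1]; exact cOpp_flip e₁ e₂ k
    · have := path_flip l h2
      rw [← cAt_flip e₁ e₂ k] at this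
      exact this

theorem adj_flip {V C : Type} {v₁ v₂ : C → V} {x y : V} (h : Adj v₁ v₂ x y) : Adj v₂ v₁ x y := by
  obtain ⟨k, h1, h2⟩ := h
  exact ⟨flipK k, by rw [← h1]; exact cAt_flip v₁ v₂ k, by rw [← h2]; exact cOpp_flip v₁ v₂ k⟩

theorem side_flip {V E C : Type} {v₁ v₂ : C → V} {e₁ e₂ : C → E} {p q : V} {a b : E}
    {star : V → List (C × Bool)} (S : Side v₁ v₂ e₁ e₂ p q a b star) :
    Side v₂ v₁ e₂ e₁ p q a b (fun v => (star v).map flipK) where
  ne := S.ne
  noLoop c := (S.noLoop c).symm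
  mem v k := by
    rw [List.mem_map]
    constructor
    · rintro ⟨k', h1, rfl⟩
      rw [← (S.mem v k').mp h1]
      exact cAt_flip v₁ v₂ k'
    · intro h
      refine ⟨flipK k, (S.mem v _).mpr ?_, flipK_flipK k⟩
      rw [← h]
      exact cAt_flip v₂ v₁ k
  nodup v := (S.nodup v).map fun k k' h => by
    rw [← flipK_flipK k, h, flipK_flipK]
  inner v h1 h2 := by
    obtain ⟨e, he⟩ := S.inner v h1 h2
    exact ⟨e, path_flip _ he⟩
  first := path_flip _ S.first
  second := path_flip _ S.second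
  toSecond v hv := Relation.ReflTransGen.mono (fun _ _ h => ⟨adj_flip h.1, h.2⟩) _ _ (S.toSecond v hv)
  toFirst v hv := Relation.ReflTransGen.mono (fun _ _ h => ⟨adj_flip h.1, h.2⟩) _ _ (S.toFirst v hv)

/-- The diagram with exchanged colours, reflected: its poles `west`, `east` are the black regions
`north`, `south`. -/
def swapT (T : Tangle) : Tangle where
  W := T.B
  B := T.W
  C := T.C
  finW := T.finB
  finB := T.finW
  w₁ := T.b₂
  b₁ := T.w₂
  w₂ := T.b₁
  b₂ := T.w₁
  west := T.north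
  north := T.west
  east := T.south
  south := T.east
  starW := fun v => (T.starB v).map flipK
  starB := fun v => (T.starW v).map flipK
  white := side_flip T.black
  black := side_flip T.white

theorem swapT_rep {T : Tangle} {G : Type*} [Group G] {w : T.W → G} {b : T.B → G}
    (h : T.Rep w b) : (swapT T).Rep b w := fun c => (h c).symm

end swap

end Pool.Agent.J6H6.JN
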