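import Pool.Agent.J6H6.JN.TSum

set_option autoImplicit false

/-!
# Lower bounds for the translation number of a product, for rational bounds
-/

namespace Pool.Agent.J6H6.JN

open Pool.Agent.Y479.LS Aut

section prod
variable {P : Type*} [Group P] [PartialOrder P] [MulLeftMono P] [MulRightMono P]

/-- Partial products in the order of the list are at most the product. -/
theorem sub_prod : ∀ (n : ℕ) (f : Fin n → P), (∀ i, 1 ≤ f i) →
    1 ≤ (List.ofFn f).prod ∧ (∀ i, f i ≤ (List.ofFn f).prod) ∧
    (∀ i j, i < j → f i * f j ≤ (List.ofFn f).prod) ∧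
    (∀ i j l, i < j → j < l → f i * f j * f l ≤ (List.ofFn f).prod)
  | 0, f, _ => ⟨by simp, fun i => i.elim0, fun i => i.elim0, fun i => i.elim0⟩
  | n + 1, f, hf => by
    obtain ⟨h0, h1, h2, h3⟩ := sub_prod n (fun i => f i.succ) (fun i => hf i.succ)
    rw [List.ofFn_succ, List.prod_cons]
    set Q := (List.ofFn fun i : Fin n => f i.succ).prod with hQ
    have up : Q ≤ f 0 * Q := le_mul_of_one_le_left' (hf 0)
    refine ⟨(hf 0).trans (le_mul_of_one_le_right' h0), fun i => ?_, fun i j hij => ?_,
      fun i j l hij hjl => ?_⟩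
    · refine Fin.cases ?_ (fun i => ?_) i
      · exact le_mul_of_one_le_right' h0
      · exact (h1 i).trans up
    · obtain ⟨j, rfl⟩ := Fin.exists_succ_eq.mpr (ne_of_gt (lt_of_le_of_lt (Fin.zero_le i) hij))
      revert hij
      refine Fin.cases (fun _ => ?_) (fun i hij => ?_) i
      · exact mul_le_mul_right (h1 j) _
      · exact (h2 i j (Fin.succ_lt_succ_iff.mp hij)).trans up
    · obtain ⟨j, rfl⟩ := Fin.exists_succ_eq.mpr (ne_of_gt (lt_of_le_of_lt (Fin.zero_le i) hij))
      obtain ⟨l, rfl⟩ := Fin.exists_succ_eq.mpr (ne_of_gt (lt_of_le_of_lt (Fin.zero_le _) hjl))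
      revert hij
      refine Fin.cases (fun _ => ?_) (fun i hij => ?_) i
      · rw [mul_assoc]
        exact mul_le_mul_right (h2 j l (Fin.succ_lt_succ_iff.mp hjl)) _
      · exact (h3 i j l (Fin.succ_lt_succ_iff.mp hij) (Fin.succ_lt_succ_iff.mp hjl)).trans up

theorem commute_prod {G : Type*} [Group G] {h : G} : ∀ (n : ℕ) (v : Fin n → G),
    (∀ i, Commute h (v i)) → Commute h (List.ofFn v).prod
  | 0, v, _ => by simp
  | n + 1, v, hv => by
    rw [List.ofFn_succ, List.prod_cons]
    exact (hv 0).mul_right (commute_prod n _ fun i => hv i.succ)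

theorem prod_shift {G : Type*} [Group G] {h : G} : ∀ (n : ℕ) (v : Fin n → G) (k : Fin n → ℤ),
    (∀ i, Commute h (v i)) →
    (List.ofFn fun i => v i * h ^ (-k i)).prod = (List.ofFn v).prod * h ^ (-∑ i, k i)
  | 0, v, k, _ => by simp
  | n + 1, v, k, hv => by
    rw [List.ofFn_succ, List.prod_cons, prod_shift n (fun i => v i.succ) (fun i => k i.succ)
      (fun i => hv i.succ), List.ofFn_succ, List.prod_cons, Fin.sum_univ_succ, neg_add, zpow_add]
    have hc : Commute (h ^ (-k 0)) (List.ofFn fun i : Fin n => v i.succ).prod :=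
      (commute_prod n _ fun i => hv i.succ).zpow_left _
    calc v 0 * h ^ (-k 0) * ((List.ofFn fun i : Fin n => v i.succ).prod * h ^ (-∑ i : Fin n, k i.succ))
        = v 0 * (h ^ (-k 0) * (List.ofFn fun i : Fin n => v i.succ).prod) *
            h ^ (-∑ i : Fin n, k i.succ) := by simp only [mul_assoc]
      _ = v 0 * ((List.ofFn fun i : Fin n => v i.succ).prod * h ^ (-k 0)) *
            h ^ (-∑ i : Fin n, k i.succ) := by rw [hc.eq]
      _ = _ := by simp only [mul_assoc]

end prod

section lex
variable {X : Type*} [LinearOrder X]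

/-- The automorphism `(x, t) ↦ (u x, t + c)` of the lexicographic product. -/
def shiftFun (u : Aut X) (c : ℤ) : Aut (X ×ₗ ℤ) where
  toFun a := toLex (u (ofLex a).1, (ofLex a).2 + c)
  invFun a := toLex (u⁻¹ (ofLex a).1, (ofLex a).2 - c)
  left_inv a := by
    apply ofLex.injective
    refine Prod.ext ?_ ?_
    · exact Aut.inv_self u _
    · show (ofLex a).2 + c - c = _
      ring
  right_inv a := by
    apply ofLex.injective
    refine Prod.ext ?_ ?_
    · exact Aut.self_inv u _
    · show (ofLex a).2 - c + c = _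
      ring
  map_rel_iff' := by
    intro a b
    show toLex (u (ofLex a).1, (ofLex a).2 + c) ≤ toLex (u (ofLex b).1, (ofLex b).2 + c) ↔ a ≤ b
    rw [Prod.Lex.le_iff, Prod.Lex.le_iff]
    show (u (ofLex a).1 < u (ofLex b).1 ∨ u (ofLex a).1 = u (ofLex b).1 ∧
      (ofLex a).2 + c ≤ (ofLex b).2 + c) ↔ _
    rw [Aut.lt_iff, Aut.inj, add_le_add_iff_right]

/-- `shiftFun` as a homomorphism. -/
def shift : Aut X × Multiplicative ℤ →* Aut (X ×ₗ ℤ) where
  toFun u := shiftFun u.1 u.2.toAdd
  map_one' := by
    refine Aut.ext' fun a => ?_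
    apply ofLex.injective
    refine Prod.ext rfl ?_
    show (ofLex a).2 + 0 = (ofLex a).2
    ring
  map_mul' u u' := by
    refine Aut.ext' fun a => ?_
    apply ofLex.injective
    refine Prod.ext rfl ?_
    show (ofLex a).2 + (u.2.toAdd + u'.2.toAdd) = (ofLex a).2 + u'.2.toAdd + u.2.toAdd
    ring

theorem shift_le {u u' : Aut X} {c c' : Multiplicative ℤ} (h : u ≤ u')
    (hc : c.toAdd ≤ c'.toAdd) : shift (u, c) ≤ shift (u', c') := by
  intro a
  show toLex (u (ofLex a).1, (ofLex a).2 + c.toAdd) ≤ toLex (u' (ofLex a).1, (ofLex a).2 + c'.toAdd)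
  rw [Prod.Lex.le_iff]
  rcases (h (ofLex a).1).lt_or_eq with h1 | h1
  · exact Or.inl h1
  · exact Or.inr ⟨h1, add_le_add le_rfl hc⟩

theorem shift_lt {u u' : Aut X} {c c' : Multiplicative ℤ} (h : ∀ x, u x < u' x)
    (a : X ×ₗ ℤ) : shift (u, c) a < shift (u', c') a := by
  show toLex (u (ofLex a).1, (ofLex a).2 + c.toAdd) < toLex (u' (ofLex a).1, (ofLex a).2 + c'.toAdd)
  rw [Prod.Lex.lt_iff]
  exact Or.inl (h _)

theorem shift_pos {u : Aut X} {c : Multiplicative ℤ} (h : 1 ≤ u) (hc : 0 < c.toAdd)
    (a : X ×ₗ ℤ) : a < shift (u, c) a := by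
  show a < toLex (u (ofLex a).1, (ofLex a).2 + c.toAdd)
  rw [Prod.Lex.lt_iff]
  rcases (h (ofLex a).1).lt_or_eq with h1 | h1
  · exact Or.inl h1
  · exact Or.inr ⟨h1, by show (ofLex a).2 < (ofLex a).2 + c.toAdd; omega⟩

end lex

section sum
variable {X : Type*} [LinearOrder X] [Nonempty X]

/-- The comparison theorem for the automorphisms `x i` and `y = S⁻¹ g`, where partial products of the
`x i` are at most `S`. -/
theorem real_of_sum {n : ℕ} {x : Fin (n + 2) → Aut X} {g S : Aut X} {p q : Fin (n + 2) → ℕ}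
    {e d : ℕ} (hq : ∀ i, 1 ≤ q i) (hd : 1 ≤ d) (g1 : ∀ w, w < g w) (hc : ∀ i, Commute g (x i))
    (hcS : Commute g S) (hpos : ∀ i w, w < x i w) (hS : ∀ w, S w < g w)
    (pair : ∀ i j, i < j → x i * x j ≤ S) (tri : ∀ i j l, i < j → j < l → x i * x j * x l ≤ S)
    (hle : ∀ i, g ^ p i ≤ x i ^ q i) (hy : g ^ e ≤ (S⁻¹ * g) ^ d) :
    Realizable fun o : Option (Fin (n + 2)) => o.elim ((e : ℚ) / d) fun i => (p i : ℚ) / q i := by
  set y : Aut X := S⁻¹ * g with hy'
  have hcy : Commute g y := hcS.inv_right.mul_right (Commute.refl g)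
  have hypos : ∀ w, w < y w := by
    intro w
    rw [hy', Aut.mul_apply, ← Aut.lt_iff S, Aut.self_inv]
    exact hS w
  have three : ∀ s t : WithTop (Fin (n + 2)), ∃ l, l ≠ s ∧ l ≠ t := by
    intro s t
    refine TSum.exists_third ?_ s t
    have h2 : Fintype.card (Option (Fin (n + 2))) = n + 3 := by
      rw [Fintype.card_option, Fintype.card_fin]
    have h3 : Fintype.card (WithTop (Fin (n + 2))) = n + 3 := h2
    omega
  have hmain := Pool.Agent.J6H6.JN.realizable (ι := WithTop (Fin (n + 2)))
    (x := fun o => Option.elim o y x) (g := g) (p := fun o => Option.elim o e p)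
    (q := fun o => Option.elim o d q) three ⟨⊤⟩
    (fun o => by
      cases o with
      | top => exact hd
      | coe i => exact hq i)
    (fun o => by
      cases o with
      | top => exact hcy
      | coe i => exact hc i)
    (fun o => by
      cases o with
      | top => exact hypos
      | coe i => exact hpos i)
    g1
    (fun s t u hst htu => by
      cases s with
      | top => exact absurd hst not_top_lt
      | coe i =>
        cases t with
        | top => exact absurd htu not_top_lt
        | coe j =>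
          have hij : i < j := WithTop.coe_lt_coe.mp hst
          cases u with
          | top =>
            show x i * x j * (S⁻¹ * g) ≤ g
            calc x i * x j * (S⁻¹ * g) ≤ S * (S⁻¹ * g) := mul_le_mul_left (pair i j hij) _
              _ = g := mul_inv_cancel_left _ _
          | coe l =>
            have hjl : j < l := WithTop.coe_lt_coe.mp htu
            exact (tri i j l hij hjl).trans fun w => (hS w).le)
    (fun o => by
      cases o with
      | top => exact hy
      | coe i => exact hle i)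
  have e1 : (fun o : WithTop (Fin (n + 2)) => ((Option.elim o e p : ℕ) : ℚ) /
      ((Option.elim o d q : ℕ) : ℚ)) =
      fun o : Option (Fin (n + 2)) => o.elim ((e : ℚ) / d) fun i => (p i : ℚ) / q i := by
    funext o
    cases o with
    | top => rfl
    | coe i => rfl
  rw [e1] at hmain
  exact hmain

end sum

section core
variable {X : Type*} [LinearOrder X] [Nonempty X]

theorem core {n : ℕ} {v : Fin (n + 2) → Aut X} {h : Aut X} (hc : ∀ i, Commute h (v i))
    (h1 : ∀ z, z < h z) {r : Fin (n + 2) → ℚ} (hle : ∀ i, h ^ (r i).num ≤ v i ^ (r i).den)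
    {s : ℚ} (hs : Jnn r s) : ¬ ∀ z, ((List.ofFn v).prod ^ s.den) z < (h ^ s.num) z := by
  intro hlt
  obtain ⟨k, hk, hK, hno⟩ := hs
  refine hno ?_
  set K : ℤ := ∑ i, k i with hKdef
  set w := (List.ofFn v).prod with hw
  have hcw : Commute h w := commute_prod _ v hc
  set u : Fin (n + 2) → Aut X := fun i => v i * h ^ (-k i) with hu
  have hcu : ∀ i, Commute h (u i) := fun i =>
    (hc i).mul_right ((Commute.refl h).zpow_right _)
  set S := (List.ofFn u).prod with hS
  have eS : S = w * h ^ (-K) := prod_shift _ v k hc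
  have hcS : Commute h S := commute_prod _ u hcu
  -- the lower bounds of the shifted automorphisms
  have hp0 : ∀ i, 0 ≤ (r i).num - k i * (r i).den := by
    intro i
    have h2 := hk i
    have h3 : (0 : ℚ) < (r i).den := by exact_mod_cast (r i).pos
    have h4 : (k i : ℚ) * (r i).den ≤ (r i).num := by
      have h5 := mul_le_mul_of_nonneg_right h2 h3.le
      rwa [Rat.mul_den_eq_num] at h5
    have h5 : k i * (r i).den ≤ (r i).num := by exact_mod_cast h4
    linarith
  choose p hp using fun i => Int.eq_ofNat_of_zero_le (hp0 i)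
  have hupow : ∀ i, h ^ p i ≤ u i ^ (r i).den := by
    intro i
    have e1 : u i ^ (r i).den = v i ^ (r i).den * h ^ (-(k i * (r i).den)) := by
      rw [hu]
      simp only
      rw [((hc i).symm.zpow_right (-k i)).mul_pow, ← zpow_natCast (h ^ (-k i)), ← zpow_mul,
        neg_mul]
    rw [e1, zpow_neg, le_mul_inv_iff_mul_le, ← zpow_natCast, ← zpow_add, ← hp i, sub_add_cancel]
    exact hle i
  have hu1 : ∀ i, 1 ≤ u i := by
    intro i
    refine root_le (Commute.one_left _) (r i).pos ?_
    rw [one_pow]
    exact (one_le_pow' (fun z => (h1 z).le) (p i)).trans (hupow i)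
  -- the last invariant
  have he0 : 0 ≤ (1 + K) * s.den - s.num := by
    have h3 : (0 : ℚ) < s.den := by exact_mod_cast s.pos
    have h5 := mul_le_mul_of_nonneg_right hK h3.le
    rw [Rat.mul_den_eq_num] at h5
    have h6 : s.num ≤ (1 + K) * s.den := by exact_mod_cast h5
    linarith
  obtain ⟨e, he⟩ := Int.eq_ofNat_of_zero_le he0
  have hylt : ∀ z, (h ^ e) z < ((S⁻¹ * h) ^ s.den) z := by
    intro z
    have e1 : (S⁻¹ * h) ^ s.den = (w ^ s.den)⁻¹ * h ^ ((1 + K) * s.den) := by
      have e2 : S⁻¹ * h = w⁻¹ * h ^ (1 + K) := by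
        rw [eS, mul_inv_rev, zpow_neg, inv_inv, ((hcw.inv_right).zpow_left K).eq, mul_assoc,
          ← zpow_add_one, add_comm]
      rw [e2, ((hcw.symm.inv_left).zpow_right (1 + K)).mul_pow, inv_pow,
        ← zpow_natCast (h ^ (1 + K)), ← zpow_mul]
    rw [e1, Aut.mul_apply, ← Aut.lt_iff (w ^ s.den), Aut.self_inv, ← Aut.mul_apply,
      ← zpow_natCast h e, ← he]
    have e3 : (w ^ s.den * h ^ ((1 + K) * s.den - s.num)) z =
        (w ^ s.den) ((h ^ ((1 + K) * s.den - s.num)) z) := rfl
    have e4 : (h ^ ((1 + K) * s.den)) z = (h ^ s.num) ((h ^ ((1 + K) * s.den - s.num)) z) := by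
      rw [← Aut.mul_apply, ← zpow_add]
      congr 2
      ring
    rw [e3, e4]
    exact hlt _
  have hSlt : ∀ z, S z < h z := by
    have hy1 : ∀ z, z < (S⁻¹ * h) z := by
      intro z
      by_contra hcon
      rw [not_lt] at hcon
      have h2 := pow_le_self hcon s.den
      have h3 : z ≤ (h ^ e) z := le_pow h1 e z
      exact absurd ((h3.trans_lt (hylt z)).trans_le h2) (lt_irrefl _)
    intro z
    have := hy1 z
    rwa [Aut.mul_apply, ← Aut.lt_iff S, Aut.self_inv] at this
  -- the lexicographic product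
  let one : Multiplicative ℤ := Multiplicative.ofAdd 1
  let x : Fin (n + 2) → Aut (X ×ₗ ℤ) := fun i => shift (u i, one)
  have hprod : (List.ofFn x).prod = shift (S, one ^ (n + 2)) := by
    have e1 : List.ofFn x = (List.ofFn fun i => (u i, one)).map shift := by
      rw [List.map_ofFn]; rfl
    rw [e1, ← map_list_prod]
    congr 1
    have e2 : ∀ (m : ℕ) (f : Fin m → Aut X), (List.ofFn fun i => (f i, one)).prod =
        ((List.ofFn f).prod, one ^ m) := by
      intro m
      induction m with
      | zero => intro f; rfl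
      | succ m ih =>
        intro f
        rw [List.ofFn_succ, List.prod_cons, ih (fun i => f i.succ), List.ofFn_succ,
          List.prod_cons, pow_succ']
        rfl
    exact e2 _ u
  set S' : Aut (X ×ₗ ℤ) := shift (S, one ^ (n + 2)) with hS'
  set g : Aut (X ×ₗ ℤ) := shift (h, 1) with hg
  have hxpos : ∀ i a, a < x i a := fun i a => shift_pos (hu1 i) (by
    show (0 : ℤ) < 1
    norm_num) a
  obtain ⟨-, -, pair, tri⟩ := sub_prod (n + 2) x (fun i a => (hxpos i a).le)
  rw [hprod] at pair tri
  have gpow : ∀ m : ℕ, g ^ m = shift (h ^ m, 1) := by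
    intro m
    rw [hg, ← map_pow]
    congr 1
  have := real_of_sum (x := x) (g := g) (S := S') (p := p) (q := fun i => (r i).den) (e := e)
    (d := s.den) (fun i => (r i).pos) s.pos
    (fun a => by
      have := shift_lt (u := 1) (u' := h) (c := 1) (c' := 1) h1 a
      have e1 : shift ((1 : Aut X), (1 : Multiplicative ℤ)) = 1 := map_one shift
      rw [e1] at this
      exact this)
    (fun i => by
      have : Commute ((h, 1) : Aut X × Multiplicative ℤ) (u i, one) :=
        Prod.ext (hcu i).eq (mul_comm _ _)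
      exact this.map shift)
    (by
      have : Commute ((h, 1) : Aut X × Multiplicative ℤ) (S, one ^ (n + 2)) :=
        Prod.ext hcS.eq (mul_comm _ _)
      exact this.map shift)
    hxpos (fun a => shift_lt hSlt a) pair tri
    (fun i => by
      rw [gpow, ← map_pow]
      refine shift_le (hupow i) ?_
      show (0 : ℤ) ≤ Multiplicative.toAdd (one ^ (r i).den)
      rw [toAdd_pow]
      show (0 : ℤ) ≤ (r i).den • (1 : ℤ)
      positivity)
    (by
      rw [gpow, hS', hg, ← map_inv, ← map_mul, ← map_pow]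
      intro a
      exact (shift_lt hylt a).le)
  have e5 : (fun o : Option (Fin (n + 2)) => o.elim ((e : ℚ) / s.den)
      fun i => (p i : ℚ) / (r i).den) = fun o : Option (Fin (n + 2)) =>
      o.elim (1 + (K : ℚ) - s) fun i => r i - k i := by
    funext o
    cases o with
    | none =>
      show (e : ℚ) / s.den = 1 + (K : ℚ) - s
      have h3 : (s.den : ℚ) ≠ 0 := by exact_mod_cast s.pos.ne'
      rw [div_eq_iff h3, sub_mul, Rat.mul_den_eq_num]
      exact_mod_cast he.symm
    | some i =>
      show (p i : ℚ) / (r i).den = r i - k i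
      have h3 : ((r i).den : ℚ) ≠ 0 := by exact_mod_cast (r i).pos.ne'
      rw [div_eq_iff h3, sub_mul, Rat.mul_den_eq_num]
      exact_mod_cast (hp i).symm
  rw [e5] at this
  exact this

end core

end Pool.Agent.J6H6.JN
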