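import Pool.Agent.J6H6.JN.Point

set_option autoImplicit false

/-!
# Three order automorphisms at an extremal triple

For `p' q - p q' = 1`, `2 ≤ q, q'`, `p' < q'`: there are no order automorphisms `a`, `b`, `g` which move all
points up, such that `g` commutes with `a` and `b`, and `g ^ p ≤ a ^ q`, `(a b) ^ q' ≤ g ^ p'`,
`g ≤ b ^ (q + q')`.
-/

namespace Pool.Agent.J6H6.JN

open Pool.Agent.Y479.LS Aut

section seq
variable {X : Type*} [LinearOrder X] {a b g : Aut X} {p q p' q' : ℕ}

/-- The sequence through `x`. -/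
theorem exists_seq (ca : Commute g a) (cb : Commute g b) (b1 : ∀ x, x < b x) (a1 : ∀ x, x < a x)
    (g1 : ∀ x, x < g x) (ha : g ^ p ≤ a ^ q) (hV : (a * b) ^ q' ≤ g ^ p')
    (hb : g ≤ b ^ (q + q')) (hF : p' * q = p * q' + 1) (h2 : 2 ≤ q) (hlt : q < q') (x : X) :
    ∃ (s : ℤ → X) (M : ℕ), Seq a b g s M p q p' q' ∧
      ∀ (z k : ℕ), k < M → s (z * M + k) = (g ^ z) ((b ^ k) x) := by
  have hex : ∃ n : ℕ, g x ≤ (b ^ n) x := ⟨_, hb x⟩
  classical
  set M := Nat.find hex with hMdef
  have hM1 : g x ≤ (b ^ M) x := Nat.find_spec hex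
  have hM2 : ∀ n < M, (b ^ n) x < g x := fun n hn => not_le.mp (Nat.find_min hex hn)
  have hMle : M ≤ q + q' := Nat.find_min' hex (hb x)
  have hMpos : 1 ≤ M := by
    rcases Nat.eq_zero_or_pos M with h | h
    · rw [h, pow_zero, one_apply] at hM1
      exact absurd hM1 (not_le.mpr (g1 x))
    · exact h
  have hMpos' : (0 : ℤ) < M := by exact_mod_cast hMpos
  set s : ℤ → X := fun t => (g ^ (t / (M : ℤ)) * b ^ (t % (M : ℤ))) x with hs
  have sval : ∀ (z : ℤ) (k : ℕ), k < M → s (z * M + k) = (g ^ z) ((b ^ k) x) := by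
    intro z k hk
    have hk' : (k : ℤ) < M := by exact_mod_cast hk
    have e1 : (z * (M : ℤ) + k) / (M : ℤ) = z := by
      rw [Int.add_comm, Int.add_mul_ediv_right _ _ hMpos'.ne', Int.ediv_eq_zero_of_lt
        (Int.natCast_nonneg k) hk', zero_add]
    have e2 : (z * (M : ℤ) + k) % (M : ℤ) = k := by
      rw [Int.add_comm, Int.add_mul_emod_self_right, Int.emod_eq_of_lt (Int.natCast_nonneg k) hk']
    simp only [hs]
    rw [e1, e2, zpow_natCast, mul_apply]
  have split : ∀ t : ℤ, ∃ (z : ℤ) (k : ℕ), k < M ∧ t = z * M + k := by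
    intro t
    refine ⟨t / M, (t % M).toNat, ?_, ?_⟩
    · have := Int.emod_lt_of_pos t hMpos'
      have := Int.emod_nonneg t hMpos'.ne'
      omega
    · have h1 := Int.emod_nonneg t hMpos'.ne'
      have h3 := Int.emod_add_mul_ediv t M
      rw [Int.toNat_of_nonneg h1]
      linarith [mul_comm (M : ℤ) (t / M)]
  have cbz : ∀ (z : ℤ) (y : X), (g ^ z) (b y) = b ((g ^ z) y) := by
    intro z y
    rw [← mul_apply, ← mul_apply, (cb.zpow_left z).eq]
  refine ⟨s, M, ⟨strictMono_int_of_lt_succ fun t => ?_, fun t => ?_, fun t => ?_, fun y => ?_, b1,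
    a1, ha, hV, hF, h2, hlt, hMpos, hMle⟩, fun z k hk => ?_⟩
  · obtain ⟨z, k, hk, rfl⟩ := split t
    rw [sval z k hk]
    by_cases hk1 : k + 1 < M
    · rw [add_assoc, show (k : ℤ) + 1 = ((k + 1 : ℕ) : ℤ) by push_cast; ring, sval z _ hk1,
        lt_iff, iter_mul_apply]
      exact b1 _
    · have e : k + 1 = M := by omega
      have e' : (k : ℤ) + 1 = M := by exact_mod_cast e
      have : z * (M : ℤ) + k + 1 = (z + 1) * M + (0 : ℕ) := by
        push_cast; linarith
      rw [this, sval (z + 1) 0 (by omega), pow_zero, one_apply, zpow_add, zpow_one, mul_apply,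
        lt_iff]
      exact hM2 k hk
  · obtain ⟨z, k, hk, rfl⟩ := split t
    rw [show z * (M : ℤ) + k + M = (z + 1) * M + k by ring, sval z k hk, sval (z + 1) k hk,
      add_comm z 1, zpow_add, zpow_one, mul_apply]
  · obtain ⟨z, k, hk, rfl⟩ := split t
    rw [sval z k hk, ← cbz]
    by_cases hk1 : k + 1 < M
    · rw [add_assoc, show (k : ℤ) + 1 = ((k + 1 : ℕ) : ℤ) by push_cast; ring, sval z _ hk1,
        iter_mul_apply]
    · have e : k + 1 = M := by omega
      have e' : (k : ℤ) + 1 = M := by exact_mod_cast e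
      have : z * (M : ℤ) + k + 1 = (z + 1) * M + (0 : ℕ) := by
        push_cast; linarith
      rw [this, sval (z + 1) 0 (by omega), pow_zero, one_apply, zpow_add, zpow_one, mul_apply,
        le_iff, ← iter_mul_apply, e]
      exact hM1
  · rw [← mul_apply, ← mul_apply, ca.eq]
  · have := sval z k hk
    rwa [zpow_natCast] at this

/-- The pointwise inequalities. -/
theorem bounds (ca : Commute g a) (cb : Commute g b) (b1 : ∀ x, x < b x) (a1 : ∀ x, x < a x)
    (g1 : ∀ x, x < g x) (ha : g ^ p ≤ a ^ q) (hV : (a * b) ^ q' ≤ g ^ p')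
    (hb : g ≤ b ^ (q + q')) (hF : p' * q = p * q' + 1) (h2 : 2 ≤ q) (hlt : q < q')
    (hp' : p' < q') : b ^ (p + p' - 1) ≤ a ∧ a * b ^ (q + q' - (p + p')) ≤ g := by
  have hp1 : 1 ≤ p' := by
    rcases Nat.eq_zero_or_pos p' with h | h
    · rw [h, zero_mul] at hF; omega
    · exact h
  have hpq : p < q := by
    by_contra hcon
    rw [not_lt] at hcon
    have : q * q' ≤ p * q' := Nat.mul_le_mul_right _ hcon
    have : p' * q < q' * q := Nat.mul_lt_mul_of_pos_right hp' (by omega)
    nlinarith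
  constructor
  · intro x
    obtain ⟨s, M, S, hs⟩ := exists_seq ca cb b1 a1 g1 ha hV hb hF h2 hlt x
    obtain ⟨hM, hc⟩ := S.conclusion
    have h1 := (hc 0).1
    have h0 := hs 0 0 (by omega)
    have h3 := hs 0 (p + p' - 1) (by omega)
    simp only [Nat.cast_zero, zero_mul, zero_add, pow_zero, one_apply] at h0 h3
    rw [h0] at h1
    rw [← h3]
    convert h1 using 2
    omega
  · intro x
    obtain ⟨s, M, S, hs⟩ := exists_seq ca cb b1 a1 g1 ha hV hb hF h2 hlt x
    obtain ⟨hM, hc⟩ := S.conclusion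
    have h1 := (hc ((q + q' - (p + p') : ℕ) : ℤ)).2
    have h0 := hs 0 (q + q' - (p + p')) (by omega)
    have h3 := hs 1 0 (by omega)
    simp only [Nat.cast_zero, zero_mul, zero_add, pow_zero, one_apply, Nat.cast_one, one_mul,
      add_zero, pow_one] at h0 h3
    rw [h0, ← Nat.cast_add, show q + q' - (p + p') + (p + p') = M by omega, h3] at h1
    exact h1.le

end seq

end Pool.Agent.J6H6.JN
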