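import Mathlib

set_option autoImplicit false

/-!
# Definitions: the bound of Jankins, Neumann and Naimi; levels; open cones
-/

universe v

namespace Pool.Agent.J6H6.JN

/-- The criterion of Jankins, Neumann and Naimi: there are integers `0 < a < m` such that the numbers
`r i`, in some order, are smaller than `a / m, (m - a) / m, 1 / m, ..., 1 / m`. -/
def Realizable {ι : Type} (r : ι → ℚ) : Prop :=
  ∃ a m : ℕ, 0 < a ∧ a < m ∧ ∃ i j : ι, i ≠ j ∧ r i < (a : ℚ) / m ∧ r j < ((m : ℚ) - a) / m ∧
    ∀ l, l ≠ i → l ≠ j → r l < 1 / (m : ℚ)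

/-- The bound of Jankins, Neumann and Naimi: if the order automorphisms `v i` commute with the positive
automorphism `h`, and the translation number of `v i` with respect to `h` is at least `r i`, then the
translation number of the product of the `v i` is at least `s`. For integers `k i ≤ r i` with sum `K`
the numbers `r i - k i` and `1 + K - s ≥ 0` do not satisfy the criterion `Realizable`. -/
def Jnn {n : ℕ} (r : Fin n → ℚ) (s : ℚ) : Prop :=
  ∃ k : Fin n → ℤ, (∀ i, (k i : ℚ) ≤ r i) ∧ s ≤ 1 + ((∑ i, k i : ℤ) : ℚ) ∧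
    ¬ Realizable fun o : Option (Fin n) =>
      o.elim (1 + ((∑ i, k i : ℤ) : ℚ) - s) fun i => r i - k i

/-- The element `v ^ q * h ^ (-p)` for `r = p / q`. -/
def lev {G : Type v} [Group G] (h v : G) (r : ℚ) : G := v ^ r.den * h ^ (-r.num)

/-- Some positive power of `g` is a product of positive powers of `x` and `e`. -/
def InCone {G : Type v} [Group G] (x e g : G) : Prop :=
  ∃ k A B : ℕ, 1 ≤ k ∧ 1 ≤ A ∧ 1 ≤ B ∧ g ^ k = x ^ A * e ^ B

end Pool.Agent.J6H6.JN
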