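import Pool.Agent.J6H6.JN.Alg

set_option autoImplicit false

/-!
# Three order automorphisms at an extremal triple: the theorem
-/

namespace Pool.Agent.J6H6.JN

open Pool.Agent.Y479.LS Aut

section corner
variable {X : Type*} [LinearOrder X] [Nonempty X] {a b g : Aut X} {p q p' q' : ℕ}

theorem farey_lt (hF : p' * q = p * q' + 1) (h2 : 2 ≤ q) (hp' : p' < q') : 1 ≤ p ∧ p < q := by
  constructor
  · rcases Nat.eq_zero_or_pos p with h | h
    · rw [h, zero_mul, zero_add] at hF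
      have := Nat.eq_one_of_mul_eq_one_left hF
      omega
    · exact h
  · by_contra hcon
    rw [not_lt] at hcon
    have h3 : q * q' ≤ p * q' := Nat.mul_le_mul_right _ hcon
    have h4 : p' * q < q' * q := Nat.mul_lt_mul_of_pos_right hp' (by omega)
    nlinarith

omit [Nonempty X] in
/-- `v ^ q' ≤ g ^ p'` with `p' < q'`: then `v` moves all points less than `g`. -/
theorem lt_of_pow {v : Aut X} (cv : Commute g v) (g1 : ∀ x, x < g x) (hV : v ^ q' ≤ g ^ p')
    (hp' : p' < q') (x : X) : v x < g x := by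
  by_contra hcon
  rw [not_lt] at hcon
  have k : ∀ n : ℕ, (g ^ n) x ≤ (v ^ n) x := by
    intro n
    induction n with
    | zero => simp
    | succ n ih =>
      rw [iter_mul_apply, iter_mul_apply' v]
      refine le_trans ?_ ((le_iff (v ^ n)).mpr hcon)
      rw [← mul_apply, ← mul_apply, ← (cv.pow_right n).eq, mul_apply, mul_apply]
      exact (le_iff g).mpr ih
  have k1 := (k q').trans (hV x)
  obtain ⟨n, hn⟩ : ∃ n, q' = n + 1 + p' := ⟨q' - 1 - p', by omega⟩
  rw [hn, pow_add, mul_apply] at k1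
  exact absurd (lt_pow g1 n _) (not_lt.mpr k1)

omit [Nonempty X] in
/-- The data after exchanging the first two automorphisms. -/
theorem swap (ca : Commute g a) (cb : Commute g b) (g1 : ∀ x, x < g x)
    (ha : g ^ p ≤ a ^ q) (hV : (a * b) ^ q' ≤ g ^ p') (hpq : p < q) (hp' : p' < q') :
    Commute g (g * (a * b)⁻¹) ∧ (∀ x, x < (g * (a * b)⁻¹) x) ∧
      g ^ (q' - p') ≤ (g * (a * b)⁻¹) ^ q' ∧ (g * (a * b)⁻¹ * b) ^ q ≤ g ^ (q - p) := by
  have cV : Commute g (a * b) := ca.mul_right cb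
  refine ⟨(Commute.refl g).mul_right cV.inv_right, fun x => ?_, ?_, ?_⟩
  · rw [mul_apply]
    have h1 := lt_of_pow cV g1 hV hp' ((a * b)⁻¹ x)
    rwa [self_inv] at h1
  · rw [cV.inv_right.mul_pow, inv_pow, le_mul_inv_iff_mul_le]
    calc g ^ (q' - p') * (a * b) ^ q' ≤ g ^ (q' - p') * g ^ p' := mul_le_mul_right hV _
      _ = g ^ q' := by rw [← pow_add]; congr 1; omega
  · have e : g * (a * b)⁻¹ * b = b⁻¹ * (g * a⁻¹) * b := by
      rw [mul_inv_rev, ← mul_assoc g, cb.inv_right.eq]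
      simp only [mul_assoc]
    have e2 : (b⁻¹ * (g * a⁻¹) * b) ^ q = b⁻¹ * (g * a⁻¹) ^ q * b := by
      have := conj_pow (i := q) (a := b⁻¹) (b := g * a⁻¹)
      rwa [inv_inv] at this
    rw [e, e2, ca.inv_right.mul_pow, inv_pow]
    have h1 : g ^ q * (a ^ q)⁻¹ ≤ g ^ (q - p) := by
      rw [mul_inv_le_iff_le_mul]
      calc g ^ q = g ^ (q - p) * g ^ p := by rw [← pow_add]; congr 1; omega
        _ ≤ g ^ (q - p) * a ^ q := mul_le_mul_right ha _
    calc b⁻¹ * (g ^ q * (a ^ q)⁻¹) * b ≤ b⁻¹ * g ^ (q - p) * b :=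
          mul_le_mul_left (mul_le_mul_right h1 _) _
      _ = g ^ (q - p) := by
          rw [mul_assoc, (cb.pow_left _).eq, inv_mul_cancel_left]

/-- The case `q < q'`. -/
theorem corner_lt (ca : Commute g a) (cb : Commute g b) (b1 : ∀ x, x < b x) (a1 : ∀ x, x < a x)
    (g1 : ∀ x, x < g x) (ha : g ^ p ≤ a ^ q) (hV : (a * b) ^ q' ≤ g ^ p')
    (hb : g ≤ b ^ (q + q')) (hF : p' * q = p * q' + 1) (h2 : 2 ≤ q) (hlt : q < q')
    (hp' : p' < q') : False := by
  obtain ⟨hp1, hpq⟩ := farey_lt hF h2 hp'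
  by_cases h : p + 2 ≤ q
  · obtain ⟨k1, k2⟩ := bounds ca cb b1 a1 g1 ha hV hb hF h2 hlt hp'
    exact alg (Aut.lt_of b1) cb ha hV hb hF h2 hlt hp' h k1 k2
  · have hq : q = p + 1 := by omega
    obtain ⟨c1, c2, c3, c4⟩ := swap ca cb g1 ha hV hpq hp'
    obtain ⟨r, hr⟩ : ∃ r, q = r + 2 := ⟨q - 2, by omega⟩
    obtain ⟨s, hs⟩ : ∃ s, q' = p' + (s + 1) := ⟨q' - p' - 1, by omega⟩
    have e1 : q' - p' = s + 1 := by omega
    have e2 : q - p = 1 := by omega
    have e3 : q' = (r + 2) * (s + 1) + 1 := by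
      have h5 : p = r + 1 := by omega
      rw [h5, hr, hs] at hF
      rw [hs]
      nlinarith
    refine farey (a := g * (a * b)⁻¹) (b := b) (g := g) (r := r) (s := s) (Aut.lt_of b1)
      (Or.inl ?_) ?_ ?_
    · rw [← hr]
      rw [e2, pow_one] at c4
      exact c4
    · set A := g * (a * b)⁻¹ with hA
      rw [e1, e3, pow_succ A, pow_mul A] at c3
      have cA : Commute ((A ^ (r + 2))⁻¹) g := (c1.pow_right _).inv_right.symm
      rw [cA.mul_pow, inv_pow, inv_mul_le_iff_le_mul]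
      exact c3
    · refine hb.trans (le_of_eq ?_)
      congr 1
      rw [hr, e3]; ring

/-- **The extremal triples.** -/
theorem corner (ca : Commute g a) (cb : Commute g b) (b1 : ∀ x, x < b x) (a1 : ∀ x, x < a x)
    (g1 : ∀ x, x < g x) (ha : g ^ p ≤ a ^ q) (hV : (a * b) ^ q' ≤ g ^ p')
    (hb : g ≤ b ^ (q + q')) (hF : p' * q = p * q' + 1) (h2 : 2 ≤ q) (h2' : 2 ≤ q')
    (hp' : p' < q') : False := by
  obtain ⟨hp1, hpq⟩ := farey_lt hF h2 hp'
  rcases lt_trichotomy q q' with h | h | h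
  · exact corner_lt ca cb b1 a1 g1 ha hV hb hF h2 h hp'
  · subst h
    have h1 : q ∣ 1 := by
      have h3 : q ∣ p * q + 1 := ⟨p', by rw [← hF]; ring⟩
      exact (Nat.dvd_add_right (Dvd.intro_left p rfl)).mp h3
    have := Nat.le_of_dvd one_pos h1
    omega
  · obtain ⟨c1, c2, c3, c4⟩ := swap ca cb g1 ha hV hpq hp'
    refine corner_lt c1 cb b1 c2 g1 c3 c4 (by rwa [add_comm]) ?_ h2' h (by omega)
    zify [hpq.le, hp'.le]
    have hF' : (p' : ℤ) * q = p * q' + 1 := by exact_mod_cast hF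
    linarith

end corner

end Pool.Agent.J6H6.JN
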