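import Pool.Agent.Y479.LS.Farey

set_option autoImplicit false

/-!
# Three order automorphisms at an extremal triple: the pointwise part

`a`, `b`, `g` are order automorphisms of a linear order, `g` commutes with `a` and `b`, and
`g ^ p ≤ a ^ q`, `(a b) ^ q' ≤ g ^ p'`, `g ≤ b ^ (q + q')`, where `p' q - p q' = 1` and `2 ≤ q < q'`.
With `e = p + p'` we show `b ^ (e - 1) ≤ a ≤ g b ^ (e - q - q')`.
-/

namespace Pool.Agent.J6H6.JN

open Pool.Agent.Y479.LS Aut

section aux
variable {X : Type*} [LinearOrder X]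

theorem iter_mul_apply (f : Aut X) (n : ℕ) (x : X) : (f ^ (n + 1)) x = f ((f ^ n) x) := by
  rw [pow_succ', mul_apply]

theorem iter_mul_apply' (f : Aut X) (n : ℕ) (x : X) : (f ^ (n + 1)) x = (f ^ n) (f x) := by
  rw [pow_succ, mul_apply]

/-- `f` moves all points up: so do its powers. -/
theorem lt_pow {f : Aut X} (hf : ∀ x, x < f x) : ∀ (n : ℕ) (x : X), x < (f ^ (n + 1)) x
  | 0, x => by rw [zero_add, pow_one]; exact hf x
  | n + 1, x => by
    rw [iter_mul_apply]
    exact (lt_pow hf n x).trans (hf _)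

theorem le_pow {f : Aut X} (hf : ∀ x, x < f x) : ∀ (n : ℕ) (x : X), x ≤ (f ^ n) x
  | 0, x => by rw [pow_zero, one_apply]
  | n + 1, x => (lt_pow hf n x).le

theorem pow_lt_pow {f h : Aut X} (hf : ∀ x, f x < h x) :
    ∀ (n : ℕ) (x : X), (f ^ (n + 1)) x < (h ^ (n + 1)) x
  | 0, x => by rw [zero_add, pow_one, pow_one]; exact hf x
  | n + 1, x => by
    rw [iter_mul_apply f, iter_mul_apply h]
    exact ((lt_iff f).mpr (pow_lt_pow hf n x)).trans (hf _)

/-- A monotone map that moves a point not up: neither do its powers. -/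
theorem pow_le_self {f : Aut X} {x : X} (hf : f x ≤ x) : ∀ n : ℕ, (f ^ n) x ≤ x
  | 0 => by rw [pow_zero, one_apply]
  | n + 1 => by
    rw [iter_mul_apply]
    exact ((le_iff f).mpr (pow_le_self hf n)).trans hf

end aux

section int

/-- A map of the integers whose two iterates of coprime orders are the given translations. -/
theorem int_shift {h : ℤ → ℤ} {p q p' q' : ℕ} (hF : p' * q = p * q' + 1)
    (h1 : ∀ t, h^[q] t = t + (p * (q + q' : ℕ) + 1 : ℕ))
    (h2 : ∀ t, h^[q'] t = t + ((p' * (q + q') : ℕ) - 1 : ℤ)) (t : ℤ) : h t = t + (p + p' : ℕ) := by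
  have k1 : ∀ (n : ℕ) t, h^[q * n] t = t + n * (p * (q + q' : ℕ) + 1 : ℕ) := by
    intro n
    induction n with
    | zero => intro t; simp
    | succ n ih =>
      intro t
      rw [Nat.mul_succ, Function.iterate_add_apply, h1, ih]
      push_cast; ring
  have k2 : ∀ (n : ℕ) t, h^[q' * n] t = t + n * ((p' * (q + q') : ℕ) - 1 : ℤ) := by
    intro n
    induction n with
    | zero => intro t; simp
    | succ n ih =>
      intro t
      rw [Nat.mul_succ, Function.iterate_add_apply, h2, ih]
      push_cast; ring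
  -- `q * p' = q' * p + 1`
  have k3 := k1 p' (t - p * ((p' * (q + q') : ℕ) - 1 : ℤ))
  rw [show q * p' = 1 + q' * p by linarith [mul_comm q p', mul_comm q' p],
    Function.iterate_add_apply, k2, Function.iterate_one] at k3
  rw [show t - p * ((p' * (q + q') : ℕ) - 1 : ℤ) + p * ((p' * (q + q') : ℕ) - 1 : ℤ) = t by ring]
    at k3
  rw [k3]
  push_cast
  ring

end int

section core
variable {X : Type*} [LinearOrder X] {a b g : Aut X} {s : ℤ → X} {M p q p' q' : ℕ}

/-- The hypotheses, with an increasing sequence along which `b` moves by at least one step, and `g`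
by `M` steps. -/
structure Seq (a b g : Aut X) (s : ℤ → X) (M p q p' q' : ℕ) : Prop where
  mono : StrictMono s
  hg : ∀ t, g (s t) = s (t + M)
  hb : ∀ t, s (t + 1) ≤ b (s t)
  ca : ∀ x, g (a x) = a (g x)
  b1 : ∀ x, x < b x
  a1 : ∀ x, x < a x
  ha : ∀ x, (g ^ p) x ≤ (a ^ q) x
  hV : ∀ x, ((a * b) ^ q') x ≤ (g ^ p') x
  farey : p' * q = p * q' + 1
  two : 2 ≤ q
  lt : q < q'
  M1 : 1 ≤ M
  le : M ≤ q + q'

namespace Seq
variable (S : Seq a b g s M p q p' q')
include S

theorem gpow (n : ℕ) (t : ℤ) : (g ^ n) (s t) = s (t + n * M) := by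
  induction n with
  | zero => simp [one_apply]
  | succ n ih =>
    rw [iter_mul_apply, ih, S.hg]
    congr 1
    push_cast; ring

theorem V1 (x : X) : x < (a * b) x := (S.b1 x).trans (S.a1 _)

theorem aV (x : X) : a x < (a * b) x := (lt_iff a).mpr (S.b1 x)

theorem a_lt (t : ℤ) : a (s t) < s (t + p' * M) := by
  obtain ⟨n, hn⟩ : ∃ n, q' = n + 1 := ⟨q' - 1, by have := S.lt; omega⟩
  have h1 := S.hV (s t)
  rw [S.gpow, hn, iter_mul_apply'] at h1
  exact (S.aV (s t)).trans_le ((le_pow S.V1 n _).trans h1)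

theorem exists_index (t : ℤ) : ∃ n : ℤ, s n ≤ a (s t) ∧ a (s t) < s (n + 1) := by
  obtain ⟨n, h1, h2⟩ := Int.exists_greatest_of_bdd (P := fun n => s n ≤ a (s t))
    ⟨t + p' * M, fun z hz => (S.mono.lt_iff_lt.mp (lt_of_le_of_lt hz (S.a_lt t))).le⟩
    ⟨t, (S.a1 (s t)).le⟩
  refine ⟨n, h1, ?_⟩
  by_contra hcon
  have := h2 (n + 1) (not_lt.mp hcon)
  omega

theorem unique_index {y : X} {m n : ℤ} (h1 : s m ≤ y) (h2 : y < s (m + 1)) (h3 : s n ≤ y)
    (h4 : y < s (n + 1)) : m = n := by
  have k1 := S.mono.lt_iff_lt.mp (lt_of_le_of_lt h1 h4)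
  have k2 := S.mono.lt_iff_lt.mp (lt_of_le_of_lt h3 h2)
  omega

/-- The conclusion. -/
theorem conclusion : M = q + q' ∧
    ∀ t, s (t + (p + p' : ℕ) - 1) ≤ a (s t) ∧ a (s t) < s (t + (p + p' : ℕ)) := by
  choose A hA1 hA2 using S.exists_index
  set h : ℤ → ℤ := fun t => A t + 1 with hh
  set f : ℤ → ℤ := fun t => A (t + 1) with hf
  have Amono : ∀ t t', t ≤ t' → A t ≤ A t' := by
    intro t t' htt
    have h1 := lt_of_le_of_lt (le_trans (hA1 t) ((le_iff a).mpr (S.mono.monotone htt))) (hA2 t')
    have := S.mono.lt_iff_lt.mp h1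
    omega
  have Ashift : ∀ t, A (t + M) = A t + M := by
    intro t
    have e1 : a (s (t + M)) = g (a (s t)) := by rw [S.ca, S.hg]
    refine S.unique_index (hA1 (t + M)) (hA2 (t + M)) ?_ ?_
    · rw [e1, ← S.hg]; exact (le_iff g).mpr (hA1 t)
    · rw [e1, show A t + (M : ℤ) + 1 = A t + 1 + M by ring, ← S.hg]
      exact (lt_iff g).mpr (hA2 t)
  have hlt : ∀ t, a (s t) < s (h t) := hA2
  have hpow : ∀ (n : ℕ) t, (a ^ n) (s t) ≤ s (h^[n] t) := by
    intro n
    induction n with
    | zero => intro t; simp [one_apply]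
    | succ n ih =>
      intro t
      rw [iter_mul_apply, Function.iterate_succ_apply']
      exact ((le_iff a).mpr (ih t)).trans (hlt _).le
  have hpow' : ∀ (n : ℕ) t, (a ^ (n + 1)) (s t) < s (h^[n + 1] t) := by
    intro n t
    rw [iter_mul_apply, Function.iterate_succ_apply']
    exact lt_of_le_of_lt ((le_iff a).mpr (hpow n t)) (hlt _)
  have fV : ∀ t, s (f t) ≤ (a * b) (s t) := fun t =>
    (hA1 (t + 1)).trans ((le_iff a).mpr (S.hb t))
  have fpow : ∀ (n : ℕ) t, s (f^[n] t) ≤ ((a * b) ^ n) (s t) := by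
    intro n
    induction n with
    | zero => intro t; simp [one_apply]
    | succ n ih =>
      intro t
      rw [iter_mul_apply, Function.iterate_succ_apply']
      exact (fV _).trans ((le_iff (a * b)).mpr (ih t))
  have fh : ∀ (n : ℕ) t, f^[n] t = h^[n] (t + 1) - 1 := by
    intro n
    induction n with
    | zero => intro t; simp
    | succ n ih =>
      intro t
      rw [Function.iterate_succ_apply', Function.iterate_succ_apply', ih]
      simp [hh, hf]
  have hshift : ∀ (n : ℕ) (t : ℤ) (c : ℕ), f^[n] (t + c * M) = f^[n] t + c * M := by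
    have h0 : ∀ (t : ℤ) (c : ℕ), f (t + c * M) = f t + c * M := by
      intro t c
      induction c with
      | zero => simp
      | succ c ih =>
        have e : t + ((c + 1 : ℕ) : ℤ) * M = t + c * M + M := by push_cast; ring
        have e2 : f t + ((c + 1 : ℕ) : ℤ) * M = f t + c * M + M := by push_cast; ring
        rw [e, e2, ← ih]
        simp only [hf]
        rw [show t + (c : ℤ) * M + M + 1 = t + c * M + 1 + M by ring, Ashift]
    intro n
    induction n with
    | zero => intro t c; simp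
    | succ n ih =>
      intro t c
      rw [Function.iterate_succ_apply', Function.iterate_succ_apply', ih, h0]
  -- the two bounds
  have B1 : ∀ t, t + p * M + 1 ≤ h^[q] t := by
    intro t
    obtain ⟨n, hn⟩ : ∃ n, q = n + 1 := ⟨q - 1, by have := S.two; omega⟩
    have h1 := S.ha (s t)
    rw [S.gpow] at h1
    have h2 := hpow' n t
    rw [← hn] at h2
    have := S.mono.lt_iff_lt.mp (lt_of_le_of_lt h1 h2)
    omega
  have B2 : ∀ t, f^[q'] t ≤ t + p' * M := by
    intro t
    have h1 := (fpow q' t).trans (S.hV (s t))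
    rw [S.gpow] at h1
    exact S.mono.le_iff_le.mp h1
  have B1f : ∀ t, t + p * M + 1 ≤ f^[q] t := by
    intro t
    rw [fh]
    have := B1 (t + 1)
    omega
  -- a point at which the second bound is attained
  have good1 : ∀ t, f^[q'] t = t + p' * M → (a * b) (s t) = s (f t) ∧ a (s (t + 1)) = s (f t) ∧
      f^[q'] (f t) = f t + p' * M := by
    intro t ht
    have k1 : (a * b) (s t) = s (f t) := by
      refine le_antisymm ?_ (fV t)
      by_contra hcon
      rw [not_le] at hcon
      obtain ⟨n, hn⟩ : ∃ n, q' = n + 1 := ⟨q' - 1, by have := S.lt; omega⟩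
      have h1 := fpow n (f t)
      have h2 : ((a * b) ^ n) (s (f t)) < ((a * b) ^ n) ((a * b) (s t)) := (lt_iff _).mpr hcon
      rw [← Function.iterate_succ_apply] at h1
      rw [← iter_mul_apply', ← hn] at h2
      have h3 : s (f^[q'] t) < ((a * b) ^ q') (s t) := by
        rw [hn]; rw [hn] at h2; exact lt_of_le_of_lt h1 h2
      have h4 := lt_of_lt_of_le h3 (S.hV (s t))
      rw [S.gpow, ht] at h4
      exact lt_irrefl _ h4
    refine ⟨k1, le_antisymm ?_ (hA1 (t + 1)), ?_⟩
    · rw [← k1]; exact (le_iff a).mpr (S.hb t)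
    · rw [← Function.iterate_succ_apply, Function.iterate_succ_apply', ht]
      have := hshift 1 t p'
      simpa using this
  have goodV : ∀ (n : ℕ) t, f^[q'] t = t + p' * M → ((a * b) ^ n) (s t) = s (f^[n] t) ∧
      f^[q'] (f^[n] t) = f^[n] t + p' * M := by
    intro n
    induction n with
    | zero => intro t ht; simpa [one_apply] using ht
    | succ n ih =>
      intro t ht
      obtain ⟨k1, k2⟩ := ih t ht
      obtain ⟨k3, -, k5⟩ := good1 _ k2
      rw [iter_mul_apply, Function.iterate_succ_apply', k1]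
      exact ⟨k3, k5⟩
  have good2 : ∀ t, f^[q'] t = t + p' * M → t + p * M + 2 ≤ f^[q] t := by
    intro t ht
    by_contra hcon
    have hq : f^[q] t = t + 1 + p * M := by
      have := B1f t
      omega
    obtain ⟨k1, k2, k3⟩ := good1 t ht
    obtain ⟨n, hn⟩ : ∃ n, q = n + 2 := ⟨q - 2, by have := S.two; omega⟩
    have h1 := S.ha (s (t + 1))
    rw [S.gpow, ← hq, hn, show n + 2 = (n + 1) + 1 from rfl, iter_mul_apply', k2] at h1
    have h2 := pow_lt_pow S.aV n (s (f t))
    rw [(goodV (n + 1) (f t) k3).1, ← Function.iterate_succ_apply] at h2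
    exact absurd h1 (not_le.mpr h2)
  have notgood : ∀ t, f^[q'] t ≠ t + p' * M := by
    intro t ht
    have k1 : ∀ n : ℕ, t + n * (p * M + 2) ≤ f^[q * n] t := by
      intro n
      induction n with
      | zero => simp
      | succ n ih =>
        have h1 := good2 _ (goodV (q * n) t ht).2
        rw [Nat.mul_succ, Nat.add_comm (q * n), Function.iterate_add_apply]
        push_cast
        push_cast at ih
        linarith
    have k2 : ∀ n : ℕ, f^[q' * n] t = t + n * (p' * M) := by
      intro n
      induction n with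
      | zero => simp
      | succ n ih =>
        have h1 := (goodV (q' * n) t ht).2
        rw [Nat.mul_succ, Nat.add_comm (q' * n), Function.iterate_add_apply, h1, ih]
        push_cast; ring
    have h1 := k1 q'
    rw [Nat.mul_comm, k2 q] at h1
    have h2 : (q' : ℤ) * (p * M + 2) ≤ q * (p' * M) := by linarith
    have h3 : (p' : ℤ) * q = p * q' + 1 := by exact_mod_cast S.farey
    have h4 : (q : ℤ) * (p' * M) = (p * q' + 1) * M := by rw [← h3]; ring
    rw [h4] at h2
    have h5 : 2 * (q' : ℤ) ≤ M := by linarith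
    have := S.le
    have := S.lt
    omega
  have B2' : ∀ t, h^[q'] t ≤ t + p' * M - 1 := by
    intro t
    have h1 := B2 (t - 1)
    have h2 := notgood (t - 1)
    rw [fh, sub_add_cancel] at h1 h2
    omega
  have C1 : ∀ (n : ℕ) t, t + n * (p * M + 1) ≤ h^[q * n] t := by
    intro n
    induction n with
    | zero => intro t; simp
    | succ n ih =>
      intro t
      have h1 := B1 (h^[q * n] t)
      have h2 := ih t
      rw [Nat.mul_succ, Nat.add_comm (q * n), Function.iterate_add_apply]
      push_cast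
      push_cast at h2
      linarith
  have C2 : ∀ (n : ℕ) t, h^[q' * n] t ≤ t + n * (p' * M - 1) := by
    intro n
    induction n with
    | zero => intro t; simp
    | succ n ih =>
      intro t
      have h1 := B2' (h^[q' * n] t)
      have h2 := ih t
      rw [Nat.mul_succ, Nat.add_comm (q' * n), Function.iterate_add_apply]
      push_cast
      push_cast at h2
      linarith
  have h3 : (p' : ℤ) * q = p * q' + 1 := by exact_mod_cast S.farey
  have h4 : (q : ℤ) * (p' * M) = (p * q' + 1) * M := by rw [← h3]; ring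
  have hM : M = q + q' := by
    have h1 := C1 q' 0
    rw [Nat.mul_comm] at h1
    have h2 := h1.trans (C2 q 0)
    have h5 : (q : ℤ) * (p' * M - 1) = (p * q' + 1) * M - q := by rw [← h4]; ring
    rw [h5] at h2
    have h6 : (q : ℤ) + q' ≤ M := by linarith
    have := S.le
    omega
  have D1 : ∀ t, h^[q] t = t + (p * (q + q' : ℕ) + 1 : ℕ) := by
    intro t
    have hb := B1 t
    obtain ⟨n, hn⟩ : ∃ n, q' = n + 1 := ⟨q' - 1, by have := S.lt; omega⟩
    have k1 := C1 n (h^[q] t)
    rw [← Function.iterate_add_apply, ← Nat.mul_succ, Nat.succ_eq_add_one, ← hn, Nat.mul_comm]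
      at k1
    have k2 := k1.trans (C2 q t)
    have h5 : (q : ℤ) * (p' * M - 1) = (p * q' + 1) * M - q := by rw [← h4]; ring
    rw [h5] at k2
    have hn' : (q' : ℤ) = n + 1 := by exact_mod_cast hn
    have hM' : (M : ℤ) = q + q' := by exact_mod_cast hM
    have h6 : h^[q] t ≤ t + p * M + 1 := by
      rw [hn'] at k2
      rw [hn'] at hM'
      nlinarith
    have h7 : h^[q] t = t + p * M + 1 := le_antisymm h6 hb
    rw [h7, hM]
    push_cast; ring
  have D2 : ∀ t, h^[q'] t = t + ((p' * (q + q') : ℕ) - 1 : ℤ) := by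
    intro t
    have hb := B2' t
    obtain ⟨n, hn⟩ : ∃ n, q = n + 1 := ⟨q - 1, by have := S.two; omega⟩
    have k1 := C2 n (h^[q'] t)
    rw [← Function.iterate_add_apply, ← Nat.mul_succ, Nat.succ_eq_add_one, ← hn, Nat.mul_comm]
      at k1
    have k2 := (C1 q' t).trans k1
    have hn' : (q : ℤ) = n + 1 := by exact_mod_cast hn
    have hM' : (M : ℤ) = q + q' := by exact_mod_cast hM
    have h6 : t + p' * M - 1 ≤ h^[q'] t := by
      rw [hn'] at h4 hM'
      nlinarith
    have h7 : h^[q'] t = t + p' * M - 1 := le_antisymm hb h6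
    rw [h7, hM]
    push_cast; ring
  refine ⟨hM, fun t => ?_⟩
  have hE := int_shift S.farey D1 D2 t
  have h1 := hA1 t
  have h2 := hA2 t
  have h8 : A t + 1 = t + (p + p' : ℕ) := hE
  rw [h8] at h2
  rw [show A t = t + (p + p' : ℕ) - 1 by omega] at h1
  exact ⟨h1, h2⟩

end Seq

end core

end Pool.Agent.J6H6.JN
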