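import Pool.Agent.J6H6.JN.Triple
import Pool.Agent.J6H6.JN.Defs

set_option autoImplicit false

/-!
# The criterion of Jankins, Neumann and Naimi for families of order automorphisms
-/

namespace Pool.Agent.J6H6.JN

open Pool.Agent.Y479.LS Aut

section
variable {X : Type*} [LinearOrder X] [Nonempty X]

/-- **Comparison.** Positive automorphisms `x i`, the products of any three of them (in their order) are
at most `g`, and the translation number of `x i` with respect to `g` is at least `r i = p i / q i`. Then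
the numbers `r i` satisfy the criterion. -/
theorem realizable {ι : Type} [Finite ι] [LinearOrder ι] {x : ι → Aut X} {g : Aut X}
    {p q : ι → ℕ} (h3 : ∀ i j : ι, ∃ l, l ≠ i ∧ l ≠ j) (hne : Nonempty ι) (hq : ∀ i, 1 ≤ q i)
    (hc : ∀ i, Commute g (x i)) (hpos : ∀ i w, w < x i w) (g1 : ∀ w, w < g w)
    (tri : ∀ i j l, i < j → j < l → x i * x j * x l ≤ g)
    (hle : ∀ i, g ^ p i ≤ x i ^ q i) :
    Realizable fun i => (p i : ℚ) / (q i : ℚ) := by
  have := Fintype.ofFinite ι
  set r : ι → ℚ := fun i => (p i : ℚ) / (q i : ℚ) with hr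
  have hqQ : ∀ i, (0 : ℚ) < q i := fun i => by exact_mod_cast hq i
  obtain ⟨i, hi⟩ := Finite.exists_max r
  obtain ⟨j, hj, hjm⟩ : ∃ j, j ≠ i ∧ ∀ l, l ≠ i → r l ≤ r j := by
    obtain ⟨l, hl, -⟩ := h3 i i
    have hfin : (Finset.univ.filter fun l => l ≠ i).Nonempty := ⟨l, by simpa using hl⟩
    obtain ⟨j, hj, hjm⟩ := Finset.exists_max_image _ r hfin
    exact ⟨j, by simpa using hj, fun l hl => hjm l (by simpa using hl)⟩
  obtain ⟨l, hli, hlj, hlm⟩ : ∃ l, l ≠ i ∧ l ≠ j ∧ ∀ l', l' ≠ i → l' ≠ j → r l' ≤ r l := by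
    obtain ⟨l, hl, hl'⟩ := h3 i j
    have hfin : (Finset.univ.filter fun l => l ≠ i ∧ l ≠ j).Nonempty :=
      ⟨l, by simp [hl, hl']⟩
    obtain ⟨l, hl, hlm⟩ := Finset.exists_max_image _ r hfin
    have h2 : l ≠ i ∧ l ≠ j := by simpa using hl
    exact ⟨l, h2.1, h2.2, fun l' h1 h2 => hlm l' (by simp [h1, h2])⟩
  have cross : ∀ {s t : ι}, r s ≤ r t → p s * q t ≤ p t * q s := by
    intro s t h
    rw [hr] at h
    simp only at h
    rw [div_le_div_iff₀ (hqQ s) (hqQ t)] at h
    exact_mod_cast h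
  have hcyc : x i * x l * x j ≤ g ∨ x l * x i * x j ≤ g := by
    rcases lt_or_gt_of_ne hj with h1 | h1
    · -- `j < i`
      rcases lt_or_gt_of_ne hli with h2 | h2
      · rcases lt_or_gt_of_ne hlj with h3 | h3
        · -- `l < j < i`
          left
          exact rotate_le (hc j) (rotate_le (hc l) (tri l j i h3 h1))
        · -- `j < l < i`
          right
          exact rotate_le (hc j) (tri j l i h3 h2)
      · -- `j < i < l`
        left
        exact rotate_le (hc j) (tri j i l h1 h2)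
    · -- `i < j`
      rcases lt_or_gt_of_ne hlj with h2 | h2
      · rcases lt_or_gt_of_ne hli with h3 | h3
        · -- `l < i < j`
          right
          exact tri l i j h3 h1
        · -- `i < l < j`
          left
          exact tri i l j h3 h2
      · -- `i < j < l`
        right
        exact rotate_le (hc j) (rotate_le (hc i) (tri i j l h1 h2))
  obtain ⟨a, m, ha, ham, e1, e2, e3⟩ := triple (hc i) (hc j) (hc l) (hpos i) (hpos l) g1 hcyc
    (hq i) (hq j) (hq l) (hle i) (hle j) (hle l) (cross (hi l)) (cross (hjm l hli))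
  have hm : (0 : ℚ) < m := by
    have : 0 < m := lt_of_le_of_lt (Nat.zero_le _) ham
    exact_mod_cast this
  have f3 : r l < 1 / (m : ℚ) := by
    rw [hr]
    simp only
    rw [div_lt_div_iff₀ (hqQ l) hm, one_mul]
    exact_mod_cast e3
  refine ⟨a, m, ha, ham, i, j, hj.symm, ?_, ?_, fun l' h1 h2 => (hlm l' h1 h2).trans_lt f3⟩
  · rw [div_lt_div_iff₀ (hqQ i) hm]
    exact_mod_cast e1
  · rw [div_lt_div_iff₀ (hqQ j) hm]
    have h5 : ((p j * m : ℕ) : ℚ) < (((m - a) * q j : ℕ) : ℚ) := by exact_mod_cast e2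
    rw [Nat.cast_mul, Nat.cast_mul, Nat.cast_sub ham.le] at h5
    exact h5

end

end Pool.Agent.J6H6.JN
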