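import Pool.Agent.J6H6.JN.Comp

set_option autoImplicit false

/-!
# Double branched covers of alternating tangles as pieces
-/

universe u v

namespace Pool.Agent.J6H6.JN

open Pool.Agent.R649.BT
open Pool.Agent.Y479.LS (Aut Tangle hom_trivial LeftOrderable)

namespace TG

/-- the generator of a white region -/
def w (T : Tangle) (v : T.W) : FreeGroup (T.W ⊕ T.B) := FreeGroup.of (Sum.inl v)
/-- the generator of a black region -/
def b (T : Tangle) (v : T.B) : FreeGroup (T.W ⊕ T.B) := FreeGroup.of (Sum.inr v)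

/-- Relators: the crossings, `west = north = 1`, and the commutator of the curves `east` and `south`
on the boundary torus (which follows from the others if the diagram is planar). -/
def relators (T : Tangle) : Set (FreeGroup (T.W ⊕ T.B)) :=
  {r | (∃ c, r = (b T (T.b₂ c))⁻¹ * b T (T.b₁ c) * ((w T (T.w₁ c))⁻¹ * w T (T.w₂ c))⁻¹) ∨
    r = w T T.west ∨ r = b T T.north ∨
    r = w T T.east * b T T.south * (b T T.south * w T T.east)⁻¹}

/-- The fundamental group of the double branched cover of the tangle `T`. -/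
abbrev Grp (T : Tangle) : Type := PresentedGroup (relators T)

/-- The curve `west⁻¹ * east = east` on the boundary torus. -/
def volt (T : Tangle) : Grp T := PresentedGroup.mk _ (w T T.east)

/-- The curve `north⁻¹ * south = south` on the boundary torus. -/
def curr (T : Tangle) : Grp T := PresentedGroup.mk _ (b T T.south)

variable {T : Tangle}

/-- the images of the generators -/
def W (v : T.W) : Grp T := PresentedGroup.mk _ (w T v)
def B (v : T.B) : Grp T := PresentedGroup.mk _ (b T v)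

theorem rep : T.Rep (W (T := T)) B := by
  intro c
  have := PresentedGroup.one_of_mem (rels := relators T) (Or.inl ⟨c, rfl⟩)
  rw [map_mul, map_inv, mul_inv_eq_one] at this
  simp only [map_mul, map_inv] at this
  exact this

theorem west_one : W T.west = 1 :=
  PresentedGroup.one_of_mem (rels := relators T) (Or.inr (Or.inl rfl))

theorem north_one : B T.north = 1 :=
  PresentedGroup.one_of_mem (rels := relators T) (Or.inr (Or.inr (Or.inl rfl)))

theorem comm : Commute (volt T) (curr T) := by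
  have := PresentedGroup.one_of_mem (rels := relators T) (Or.inr (Or.inr (Or.inr rfl)))
  rw [map_mul, map_inv, mul_inv_eq_one, map_mul, map_mul] at this
  exact this

theorem fix_all {X : Type u} [LinearOrder X] (φ : Grp T →* Aut X) {x : X}
    (hx : φ (volt T) x = x) (γ : Grp T) : φ γ x = x := by
  have e3 : φ (W T.west) x = x := by rw [west_one, map_one, Aut.one_apply]
  have e5 : φ (B T.north) x = x := by rw [north_one, map_one, Aut.one_apply]
  have hx' : φ (W T.east) x = x := hx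
  obtain ⟨h3, h4⟩ := Tangle.fix (rep.map φ) (x := x) (e3.trans hx'.symm)
  have hmem : γ ∈ Subgroup.closure (Set.range (PresentedGroup.of (rels := relators T))) := by
    rw [PresentedGroup.closure_range_of]; trivial
  induction hmem using Subgroup.closure_induction with
  | mem y hy =>
    obtain ⟨(v | v), rfl⟩ := hy
    · exact (h3 v).trans e3
    · exact (h4 v).trans e5
  | one => rw [map_one, Aut.one_apply]
  | mul y z _ _ h5 h6 => rw [map_mul, Aut.mul_apply, h6, h5]
  | inv y _ h5 => rw [map_inv, ← Aut.inj (φ y), Aut.self_inv, h5]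

end TG

section lev
variable {Y : Type u} [LinearOrder Y]

theorem lev_ge {H V : Aut Y} (hc : Commute H V) {p q : ℕ} (hq : 1 ≤ q) (h : H ^ p ≤ V ^ q) :
    1 ≤ lev H V ((p : ℚ) / q) := by
  set r : ℚ := (p : ℚ) / q with hr
  have hq0 : (q : ℚ) ≠ 0 := by exact_mod_cast (show q ≠ 0 by omega)
  have hnd : (r.num : ℤ) * q = p * r.den := by
    have h1 : (r.num : ℚ) / r.den = p / q := by rw [Rat.num_div_den]
    have h2 : (r.den : ℚ) ≠ 0 := by exact_mod_cast r.pos.ne'
    rw [div_eq_div_iff h2 hq0] at h1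
    exact_mod_cast h1
  have h1 : H ^ r.num ≤ V ^ r.den := by
    refine root_le ((hc.zpow_left _).pow_right _) hq ?_
    calc (H ^ r.num) ^ q = (H ^ p) ^ r.den := by
          rw [← zpow_natCast, ← zpow_mul, hnd, zpow_mul, zpow_natCast, zpow_natCast]
      _ ≤ (V ^ q) ^ r.den := Pool.Agent.Y479.LS.pow_le_pow_of_le h _
      _ = (V ^ r.den) ^ q := by rw [← pow_mul, ← pow_mul, mul_comm]
  unfold lev
  rw [zpow_neg, le_mul_inv_iff_mul_le, one_mul]
  exact h1

theorem lev_le {H V : Aut Y} (hc : Commute H V) {p q : ℕ} (hp : 1 ≤ p) (h : V ^ p ≤ H ^ q) :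
    lev H V ((q : ℚ) / p) ≤ 1 := by
  set r : ℚ := (q : ℚ) / p with hr
  have hp0 : (p : ℚ) ≠ 0 := by exact_mod_cast (show p ≠ 0 by omega)
  have hnd : (r.num : ℤ) * p = q * r.den := by
    have h1 : (r.num : ℚ) / r.den = q / p := by rw [Rat.num_div_den]
    have h2 : (r.den : ℚ) ≠ 0 := by exact_mod_cast r.pos.ne'
    rw [div_eq_div_iff h2 hp0] at h1
    exact_mod_cast h1
  have h1 : V ^ r.den ≤ H ^ r.num := by
    refine root_le ((hc.zpow_left _).pow_right _).symm hp ?_
    calc (V ^ r.den) ^ p = (V ^ p) ^ r.den := by rw [← pow_mul, ← pow_mul, mul_comm]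
      _ ≤ (H ^ q) ^ r.den := Pool.Agent.Y479.LS.pow_le_pow_of_le h _
      _ = (H ^ r.num) ^ p := by
          rw [← zpow_natCast (H ^ r.num), ← zpow_mul, hnd, zpow_mul, zpow_natCast, zpow_natCast]
  unfold lev
  rw [zpow_neg, mul_inv_le_iff_le_mul, one_mul]
  exact h1

end lev

section bd

/-- Restriction of an action to an interval with fixed end points. -/
def resHom {N : Type v} [Group N] {X : Type u} [CompleteLinearOrder X] (ρ : N →* (X ≃o X))
    {α β : X} (hα : ∀ g, ρ g α = α) (hβ : ∀ g, ρ g β = β) : N →* Aut (Set.Ioo α β) :=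
  (Aut.res α β).comp (MonoidHom.codRestrict (ρ : N →* Aut X) (Aut.stab α β)
    fun g => ⟨hα g, hβ g⟩)

theorem resHom_apply {N : Type v} [Group N] {X : Type u} [CompleteLinearOrder X]
    (ρ : N →* (X ≃o X)) {α β : X} (hα : ∀ g, ρ g α = α) (hβ : ∀ g, ρ g β = β) (g : N)
    (z : Set.Ioo α β) : (resHom ρ hα hβ g z).1 = ρ g z.1 := rfl

theorem tangle_up {T : Tangle} {p q p' q' : ℕ} (h1 : Contains T p q)
    (h2 : Contains (swapT T) p' q') {X : Type u} [CompleteLinearOrder X]
    (ρ : TG.Grp T →* (X ≃o X)) {z : X} (hz : z < ρ (TG.volt T) z) :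
    z ≤ ρ (lev (TG.volt T) (TG.curr T) ((p : ℚ) / q)) z ∧
      ρ (lev (TG.volt T) (TG.curr T) ((q' : ℚ) / p')) z ≤ z := by
  obtain ⟨α, β, a1, a2, hα, hβ, hno⟩ := exists_interval ρ (v := z)
    (fun hh => by rw [hh] at hz; exact lt_irrefl _ hz)
  have hfix : ∀ y, ρ (TG.volt T) y = y → ∀ g, ρ g y = y := fun y hy g =>
    TG.fix_all (ρ : TG.Grp T →* Aut X) hy g
  have hup : Up α β (ρ (TG.volt T)) := by
    rcases trich (α := α) (β := β) (ρ (TG.volt T)) with h | h | ⟨y, y1, y2, y3⟩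
    · exact h
    · exact absurd (h z a1 a2) (not_lt.mpr hz.le)
    · exact absurd (hfix y y3) (hno y y1 y2)
  set σ : TG.Grp T →* Aut (Set.Ioo α β) := resHom ρ hα hβ with hσ
  have : Nonempty (Set.Ioo α β) := ⟨⟨z, a1, a2⟩⟩
  set H := σ (TG.volt T) with hH
  set C := σ (TG.curr T) with hC
  have hc : Commute H C := TG.comm.map σ
  have rep := (TG.rep (T := T)).map σ
  have ew : σ (TG.W T.west) = 1 := by rw [TG.west_one, map_one]
  have en : σ (TG.B T.north) = 1 := by rw [TG.north_one, map_one]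
  have Hpos : ∀ y, y < H y := fun y => hup y.1 y.2.1 y.2.2
  have P1 : Pos T (fun v => σ (TG.W v)) (fun v => σ (TG.B v)) := by
    refine ⟨rep, fun y => ?_⟩
    rw [ew, Aut.one_apply]
    exact Hpos y
  have L1 : H ^ p ≤ C ^ q := by
    refine h1.le P1 hc ?_ ?_
    · rw [ew, inv_one, one_mul]
      exact le_rfl
    · rw [en, inv_one, one_mul]
      exact le_rfl
  have hpos : ∀ y, y < σ (TG.B T.south) y := by
    obtain ⟨-, -, h3⟩ := Tangle.bounds rep ew en Hpos
    exact h3
  have P2 : Pos (swapT T) (fun v => σ (TG.B v)) (fun v => σ (TG.W v)) := by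
    refine ⟨swapT_rep rep, fun y => ?_⟩
    show σ (TG.B T.north) y < σ (TG.B T.south) y
    rw [en, Aut.one_apply]
    exact hpos y
  have L2 : C ^ p' ≤ H ^ q' := by
    refine h2.le P2 hc.symm ?_ ?_
    · show C ≤ (σ (TG.B T.north))⁻¹ * σ (TG.B T.south)
      rw [en, inv_one, one_mul]
      exact le_rfl
    · show (σ (TG.W T.west))⁻¹ * σ (TG.W T.east) ≤ H
      rw [ew, inv_one, one_mul]
      exact le_rfl
  have k1 := lev_ge hc h1.pos.2 L1 ⟨z, a1, a2⟩
  have k2 := lev_le hc h2.pos.1 L2 ⟨z, a1, a2⟩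
  rw [hH, hC, ← lev_map] at k1 k2
  exact ⟨k1, k2⟩

/-- Double branched covers of alternating tangles satisfy the strong bounds. -/
theorem bd_tangle {T : Tangle} {p q p' q' : ℕ} (h1 : Contains T p q)
    (h2 : Contains (swapT T) p' q') :
    Bd.{u} ⊤ (TG.volt T) (TG.curr T) ((p : ℚ) / q) ((q' : ℚ) / p') := by
  refine ⟨fun X _ ρ z hz => tangle_up h1 h2 ρ hz, fun X _ ρ z hz => ?_, fun X _ ρ z hz => ?_⟩
  · let D : (X ≃o X) →* (Xᵒᵈ ≃o Xᵒᵈ) := Aut.dual
    obtain ⟨k1, k2⟩ := tangle_up h1 h2 (D.comp ρ) (z := OrderDual.toDual z) hz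
    exact ⟨k1, k2⟩
  · have := TG.fix_all (ρ : TG.Grp T →* Aut X) hz
    exact ⟨this _, fun g _ => this g⟩

theorem Bd.map {N : Type} {G : Type v} [Group N] [Group G] {h v : N} {r r' : ℚ}
    (hb : Bd.{u} ⊤ h v r r') (f : N →* G) : Bd.{u} f.range (f h) (f v) r r' := by
  refine ⟨fun X _ ρ z hz => ?_, fun X _ ρ z hz => ?_, fun X _ ρ z hz => ?_⟩
  · rw [← lev_map, ← lev_map]
    exact hb.up X (ρ.comp f) z hz
  · rw [← lev_map, ← lev_map]
    exact hb.dn X (ρ.comp f) z hz
  · obtain ⟨k1, k2⟩ := hb.fix X (ρ.comp f) z hz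
    refine ⟨k1, ?_⟩
    rintro _ ⟨g, rfl⟩
    exact k2 g (Subgroup.mem_top g)

theorem num_add (r : ℚ) (c : ℤ) : (r + c).num = r.num + c * r.den := by
  have h1 : (r + c).den = r.den := Rat.add_intCast_den r c
  have h2 : ((r + c).num : ℚ) = (r + c) * (r + c).den := (Rat.mul_den_eq_num _).symm
  rw [h1, add_mul, Rat.mul_den_eq_num] at h2
  exact_mod_cast h2

theorem lev_shift {G : Type v} [Group G] {h v : G} (hc : Commute h v) (r : ℚ) (c : ℤ) :
    lev h (v * h ^ c) (r + c) = lev h v r := by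
  unfold lev
  rw [Rat.add_intCast_den, num_add, ((hc.symm).zpow_right c).mul_pow, mul_assoc,
    ← zpow_natCast (h ^ c), ← zpow_mul, ← zpow_add]
  congr 2
  ring

theorem lev_mirror {G : Type v} [Group G] {h v : G} (hc : Commute h v) (r : ℚ) :
    lev h v⁻¹ (-r) = (lev h v r)⁻¹ := by
  unfold lev
  rw [Rat.neg_den, Rat.neg_num, neg_neg, mul_inv_rev, zpow_neg, inv_inv, inv_pow]
  exact ((hc.symm.pow_left _).zpow_right _).inv_left.eq

theorem Bd.shift {G : Type v} [Group G] {M : Subgroup G} {h v : G} {r r' : ℚ}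
    (hb : Bd.{u} M h v r r') (hc : Commute h v) (c : ℤ) :
    Bd.{u} M h (v * h ^ c) (r + c) (r' + c) := by
  refine ⟨fun X _ ρ z hz => ?_, fun X _ ρ z hz => ?_, fun X _ ρ z hz => ?_⟩
  · rw [lev_shift hc, lev_shift hc]
    exact hb.up X ρ z hz
  · rw [lev_shift hc, lev_shift hc]
    exact hb.dn X ρ z hz
  · obtain ⟨k1, k2⟩ := hb.fix X ρ z hz
    refine ⟨?_, k2⟩
    rw [map_mul, map_zpow]
    exact mul_fix k1 (fix_zpow hz c)

theorem Bd.mirror {G : Type v} [Group G] {M : Subgroup G} {h v : G} {r r' : ℚ}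
    (hb : Bd.{u} M h v r r') (hc : Commute h v) : Bd.{u} M h v⁻¹ (-r') (-r) := by
  refine ⟨fun X _ ρ z hz => ?_, fun X _ ρ z hz => ?_, fun X _ ρ z hz => ?_⟩
  · obtain ⟨k1, k2⟩ := hb.up X ρ z hz
    rw [lev_mirror hc, lev_mirror hc, map_inv, map_inv]
    refine ⟨?_, ?_⟩
    · rw [← not_lt, inv_lt_iff, not_lt]; exact k2
    · rw [← not_lt, lt_inv_iff, not_lt]; exact k1
  · obtain ⟨k1, k2⟩ := hb.dn X ρ z hz
    rw [lev_mirror hc, lev_mirror hc, map_inv, map_inv]
    refine ⟨?_, ?_⟩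
    · rw [← not_lt, lt_inv_iff, not_lt]; exact k2
    · rw [← not_lt, inv_lt_iff, not_lt]; exact k1
  · obtain ⟨k1, k2⟩ := hb.fix X ρ z hz
    refine ⟨?_, k2⟩
    rw [map_inv]
    exact inv_fix_iff.mpr k1

end bd

end Pool.Agent.J6H6.JN
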