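import Pool.Agent.J6H6.JN.Cont
import Pool.Agent.J6H6.JN.Realize

set_option autoImplicit false

/-!
# Sums of alternating tangles: the group and the inequalities
-/

namespace Pool.Agent.J6H6.JN.TSum

open Pool.Agent.Y479.LS Pool.Agent.J6H6.JN

section defs

variable {k : ℕ} (T : Fin (k + 1) → Tangle) (T' : Tangle)

/-- The commutators of the boundary tori of the summands: the boundary sphere of the tangle `T i` is
covered by a torus, and `west⁻¹ east`, `north⁻¹ south` are two curves on it. (For a diagram in the disc
these relators follow from those of the crossings.) -/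
def tori : Set (FreeGroup (Sum.Gen T T')) :=
  {r | ∃ i, r = ((Sum.w T T' i (T i).west)⁻¹ * Sum.w T T' i (T i).east) *
      ((Sum.b T T' i (T i).north)⁻¹ * Sum.b T T' i (T i).south) *
      (((Sum.b T T' i (T i).north)⁻¹ * Sum.b T T' i (T i).south) *
        ((Sum.w T T' i (T i).west)⁻¹ * Sum.w T T' i (T i).east))⁻¹}

/-- The fundamental group of the double branched cover of the closure of
`T 0 + ... + T k + n - T'`. -/
abbrev Grp (n : ℕ) : Type := PresentedGroup (Sum.relators T T' n ∪ tori T T')

end defs

section proj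

variable {k : ℕ} {T : Fin (k + 1) → Tangle} {T' : Tangle} {n : ℕ}

theorem rel_one : ∀ r ∈ Sum.relators T T' n,
    FreeGroup.lift (fun x => (PresentedGroup.of x : Grp T T' n)) r = 1 := by
  intro r hr
  have e : FreeGroup.lift (fun x => (PresentedGroup.of x : Grp T T' n)) =
      PresentedGroup.mk (Sum.relators T T' n ∪ tori T T') := by
    ext x
    rw [FreeGroup.lift_apply_of]
    rfl
  rw [e]
  exact PresentedGroup.one_of_mem (Or.inl hr)

/-- The quotient map. -/
def proj : Sum.Grp T T' n →* Grp T T' n := PresentedGroup.toGroup rel_one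

theorem proj_mk (r : FreeGroup (Sum.Gen T T')) :
    proj (n := n) (PresentedGroup.mk (Sum.relators T T' n) r) = PresentedGroup.mk _ r := by
  have e : (proj (n := n)).comp (PresentedGroup.mk (Sum.relators T T' n)) =
      PresentedGroup.mk (Sum.relators T T' n ∪ tori T T') := by
    ext x
    exact PresentedGroup.toGroup.of rel_one
  exact DFunLike.congr_fun e r

theorem proj_surjective : Function.Surjective (proj (T := T) (T' := T') (n := n)) := by
  intro y
  obtain ⟨r, rfl⟩ := QuotientGroup.mk_surjective y
  exact ⟨PresentedGroup.mk _ r, proj_mk r⟩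

theorem comm (i : Fin (k + 1)) :
    Commute (proj (n := n) ((Sum.W i (T i).west)⁻¹ * Sum.W i (T i).east))
      (proj (n := n) ((Sum.B (T' := T') i (T i).north)⁻¹ * Sum.B i (T i).south)) := by
  have h := PresentedGroup.one_of_mem (rels := Sum.relators T T' n ∪ tori T T')
    (Or.inr ⟨i, rfl⟩)
  rw [map_mul, map_inv, mul_inv_eq_one, map_mul, map_mul, ← proj_mk, ← proj_mk] at h
  simp only [map_mul, map_inv] at h ⊢
  exact h

end proj

section positive

variable {k : ℕ} {T : Fin (k + 1) → Tangle} {T' : Tangle} {n : ℕ}

/-- A solution of the inequalities: voltage `g`, currents `A i` in the summands, total current `S`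
(without the extra crossings). -/
structure Data (T : Fin (k + 1) → Tangle) (T' : Tangle) (n : ℕ) {X : Type*} [LinearOrder X]
    (g S : Aut X) (A : Fin (k + 1) → Aut X) : Prop where
  pos : ∀ x, x < g x
  comm : ∀ i, Commute g (A i)
  commS : Commute g S
  rat : ∀ i (p q : ℕ), Contains (T i) p q → g ^ p ≤ A i ^ q
  pair : ∀ i j, i < j → A i * A j ≤ S
  triple : ∀ i j l, i < j → j < l → A i * A j * A l ≤ S
  rat' : ∀ (p q : ℕ), Contains (swapT T') p q → (S * g ^ n) ^ p ≤ g ^ q

theorem data {X : Type*} [LinearOrder X] [Nonempty X]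
    {w : ∀ i, (T i).W → Aut X} {b : ∀ i, (T i).B → Aut X} {w' : T'.W → Aut X} {b' : T'.B → Aut X}
    (h : ∀ i, (T i).Rep (w i) (b i)) (h' : T'.Rep w' b') (hw' : w' T'.west = 1)
    (hb' : b' T'.north = 1) (hw : ∀ i, w i (T i).west = w' T'.west)
    (he : ∀ i, w i (T i).east = w' T'.east) (h0 : b 0 (T 0).north = b' T'.north)
    (hi : ∀ i : Fin k, b i.castSucc (T i.castSucc).south = b i.succ (T i.succ).north)
    (hl : b (Fin.last k) (T (Fin.last k)).south * ((w' T'.west)⁻¹ * w' T'.east) ^ n =
      b' T'.south)
    (hc : ∀ i, Commute ((w i (T i).west)⁻¹ * w i (T i).east)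
      ((b i (T i).north)⁻¹ * b i (T i).south))
    (hpos : ∀ x, x < w' T'.east x) :
    ∃ (g S : Aut X) (A : Fin (k + 1) → Aut X), Data T T' n g S A := by
  obtain ⟨-, -, hI⟩ := Tangle.bounds h' hw' hb' hpos
  set g := w' T'.east with hg
  set N : Fin (k + 1) → Aut X := fun i => b i (T i).north with hN
  set S : Fin (k + 1) → Aut X := fun i => b i (T i).south with hS
  set A : Fin (k + 1) → Aut X := fun i => (N i)⁻¹ * S i with hA
  have hP : ∀ i, Pos (T i) (w i) (b i) := by
    intro i
    refine ⟨h i, fun x => ?_⟩
    rw [hw i, he i, hw', Aut.one_apply]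
    exact hpos x
  have hv : ∀ i, (w i (T i).west)⁻¹ * w i (T i).east = g := by
    intro i
    rw [hw i, he i, hw', inv_one, one_mul]
  have hcA : ∀ i, Commute g (A i) := by
    intro i
    have := hc i
    rwa [hv i] at this
  have hA1 : ∀ i, 1 ≤ A i := fun i => ((hP i).bounds).2.2.one_le _
  have hrat : ∀ i (p q : ℕ), Contains (T i) p q → g ^ p ≤ A i ^ q := fun i p q hpq =>
    hpq.le (hP i) (hcA i) (le_of_eq (hv i).symm) le_rfl
  have hNS : ∀ i, N i ≤ S i := by
    intro i
    have := mul_le_mul_right (hA1 i) (N i)
    rwa [mul_one, hA, mul_inv_cancel_left] at this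
  have hstack : ∀ j, (1 ≤ N j ∧ Commute g (N j)) ∧ ∀ i, i < j → S i ≤ N j := by
    intro j
    induction j using Fin.induction with
    | zero =>
      refine ⟨⟨?_, ?_⟩, fun i hi => absurd hi (Fin.not_lt_zero i)⟩
      · exact le_of_eq (h0.trans hb').symm
      · have e : N 0 = 1 := h0.trans hb'
        rw [e]; exact Commute.one_right g
    | succ j ih =>
      have e1 : N j.succ = S j.castSucc := (hi j).symm
      have e2 : S j.castSucc = N j.castSucc * A j.castSucc := by
        rw [hA, mul_inv_cancel_left]
      rw [e1]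
      refine ⟨⟨ih.1.1.trans (hNS _), ?_⟩, fun i hij => ?_⟩
      · rw [e2]; exact ih.1.2.mul_right (hcA _)
      · rcases (Fin.le_castSucc_iff.mpr hij).lt_or_eq with h1 | h1
        · exact (ih.2 i h1).trans (hNS _)
        · rw [h1]
  have hlast : ∀ l, S l ≤ S (Fin.last k) := by
    intro l
    rcases (Fin.le_last l).lt_or_eq with h1 | h1
    · exact ((hstack _).2 l h1).trans (hNS _)
    · rw [h1]
  have hAS : ∀ i, A i ≤ S i := fun i =>
    mul_le_of_le_one_left' (inv_le_one'.mpr (hstack i).1.1)
  have hAA : ∀ i j, i < j → A j ≤ (S i)⁻¹ * S j := fun i j hij =>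
    mul_le_mul_left (inv_le_inv_iff.mpr ((hstack j).2 i hij)) _
  have hpair : ∀ i j, i < j → A i * A j ≤ S j := by
    intro i j hij
    calc A i * A j ≤ S i * ((S i)⁻¹ * S j) := mul_le_mul' (hAS i) (hAA i j hij)
      _ = S j := mul_inv_cancel_left _ _
  have hcS : Commute g (S (Fin.last k)) := by
    have e2 : S (Fin.last k) = N (Fin.last k) * A (Fin.last k) := by
      rw [hA, mul_inv_cancel_left]
    rw [e2]
    exact (hstack _).1.2.mul_right (hcA _)
  rw [hw', inv_one, one_mul] at hl
  refine ⟨g, S (Fin.last k), A, hpos, hcA, hcS, hrat,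
    fun i j hij => (hpair i j hij).trans (hlast j), fun i j l hij hjl => ?_, fun p q hpq => ?_⟩
  · calc A i * A j * A l ≤ S j * ((S j)⁻¹ * S l) := mul_le_mul' (hpair i j hij) (hAA j l hjl)
      _ = S l := mul_inv_cancel_left _ _
      _ ≤ S (Fin.last k) := hlast l
  · have hp' : Pos (swapT T') b' w' := by
      refine ⟨swapT_rep h', fun x => ?_⟩
      show b' T'.north x < b' T'.south x
      rw [hb']
      exact hI x
    have e1 : b' T'.south = S (Fin.last k) * g ^ n := hl.symm
    refine hpq.le hp' (z := S (Fin.last k) * g ^ n) (z' := g)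
      ((hcS.mul_right ((Commute.refl g).pow_right n)).symm) ?_ ?_
    · show _ ≤ (b' T'.north)⁻¹ * b' T'.south
      rw [hb', e1, inv_one, one_mul]
    · show (w' T'.west)⁻¹ * w' T'.east ≤ g
      rw [hw', inv_one, one_mul]

end positive

section final

variable {k : ℕ} {T : Fin (k + 1) → Tangle} {T' : Tangle} {n : ℕ}

/-- If the inequalities have no solution then the group is not left-orderable, and has no nontrivial
homomorphism to a left-orderable group. -/
theorem not_leftOrderable (hno : ∀ (X : Type) [LinearOrder X] [Nonempty X] (g S : Aut X)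
    (A : Fin (k + 1) → Aut X), ¬ Data T T' n g S A) :
    (∀ (H : Type) [Group H], LeftOrderable H → ∀ (f : Grp T T' n →* H) (γ : Grp T T' n),
      f γ = 1) ∧ ¬ LeftOrderable (Grp T T' n) := by
  have key : ∀ (H : Type) [Group H], LeftOrderable H → ∀ (f : Grp T T' n →* H)
      (γ : Grp T T' n), f γ = 1 := by
    intro H _ hH f γ
    refine hom_trivial (proj (Sum.W' T'.east)) (fun X _ φ x hx γ => ?_)
      (fun X _ _ φ hpos => ?_) H hH f γ
    · obtain ⟨γ', rfl⟩ := proj_surjective γ
      exact Sum.fix_all (φ.comp proj) x hx γ'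
    · set ψ : Sum.Grp T T' n →* Aut X := φ.comp proj with hψ
      have hpos' : ∀ x, x < ψ (Sum.W' T'.east) x := hpos
      obtain ⟨g, S, A, hd⟩ := data (fun i => (Sum.rep i).map ψ) (Sum.rep'.map ψ) (n := n)
        (by rw [Sum.west_one, map_one]) (by rw [Sum.north_one, map_one])
        (fun i => by rw [Sum.west_eq]) (fun i => by rw [Sum.east_eq]) (by rw [Sum.north_eq])
        (fun i => by rw [Sum.stack_eq])
        (by rw [← Sum.south_eq]; simp only [map_mul, map_inv, map_pow])
        (fun i => by
          have := (comm (T := T) (T' := T') (n := n) i).map φ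
          simp only [map_mul, map_inv] at this
          exact this) hpos'
      exact hno X g S A hd
  refine ⟨key, fun hG => ?_⟩
  obtain ⟨x, y, hxy⟩ := hG.1
  have h1 := key _ hG (MonoidHom.id _) x
  have h2 := key _ hG (MonoidHom.id _) y
  simp only [MonoidHom.id_apply] at h1 h2
  exact hxy (by rw [h1, h2])

/-- A root of an automorphism without fixed points has no fixed points. -/
theorem pos_of_pow {X : Type*} [LinearOrder X] {g x : Aut X} (g1 : ∀ w, w < g w) {p q : ℕ}
    (hp : 1 ≤ p) (h : g ^ p ≤ x ^ q) : ∀ w, w < x w := by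
  intro w
  by_contra hcon
  rw [not_lt] at hcon
  obtain ⟨p, rfl⟩ := Nat.exists_eq_add_of_le' hp
  exact absurd ((lt_pow g1 p w).trans_le ((h w).trans (pow_le_self hcon q))) (lt_irrefl _)

/-- The invariants: `p i / q i` for the summands, and `n + 1 - q' / p'` for the closing tangle. -/
def invariant {ι : Type} (n : ℕ) (p q : ι → ℕ) (p' q' : ℕ) : Option ι → ℚ
  | none => (n : ℚ) + 1 - (q' : ℚ) / p'
  | some i => (p i : ℚ) / q i

theorem exists_third {ι : Type} [Fintype ι] (h : 3 ≤ Fintype.card ι) (s t : ι) :
    ∃ l, l ≠ s ∧ l ≠ t := by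
  classical
  by_contra hcon
  push Not at hcon
  have h2 : Fintype.card ι ≤ ({s, t} : Finset ι).card := by
    rw [← Finset.card_univ]
    refine Finset.card_le_card fun l _ => ?_
    rw [Finset.mem_insert, Finset.mem_singleton]
    by_cases hl : l = s
    · exact Or.inl hl
    · exact Or.inr (hcon l hl)
  have h3 : ({s, t} : Finset ι).card ≤ 2 := Finset.card_le_two
  omega

/-- The inequalities have a solution only if the invariants satisfy the criterion. -/
theorem Data.realizable {X : Type*} [LinearOrder X] [Nonempty X] {g S : Aut X}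
    {A : Fin (k + 1) → Aut X} (D : Data T T' n g S A) {p q : Fin (k + 1) → ℕ} {p' q' : ℕ}
    (hT : ∀ i, Contains (T i) (p i) (q i)) (hT' : Contains (swapT T') p' q')
    (hn : q' ≤ (n + 1) * p') (hk : 2 ≤ k ∨ (1 ≤ k ∧ q' < (n + 1) * p')) :
    Realizable (invariant n p q p' q') := by
  have hp' : 1 ≤ p' := hT'.pos.1
  have hApos : ∀ i w, w < A i w := fun i => pos_of_pow D.pos (hT i).pos.1 (D.rat i _ _ (hT i))
  obtain ⟨e, he⟩ := Nat.exists_eq_add_of_le hn
  set y : Aut X := S⁻¹ * g with hy
  have hcy : Commute g y := D.commS.inv_right.mul_right (Commute.refl g)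
  have hy' : g ^ e ≤ y ^ p' := by
    have h1 := D.rat' p' q' hT'
    rw [(D.commS.symm.pow_right n).mul_pow, ← pow_mul] at h1
    have h2 : y ^ p' = (S ^ p')⁻¹ * g ^ p' := by
      rw [hy, (D.commS.symm.inv_left).mul_pow, inv_pow]
    rw [h2, le_inv_mul_iff_mul_le]
    have h3 : S ^ p' * g ^ (n * p') * g ^ e ≤ g ^ q' * g ^ e := mul_le_mul_left h1 _
    rw [← pow_add g q' e, ← he, add_mul, one_mul, add_comm (n * p') p', pow_add g p' (n * p'),
      mul_assoc, ((Commute.refl g).pow_pow (n * p') e).eq, ← mul_assoc] at h3
    exact le_of_mul_le_mul_right' h3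
  have hr : (n : ℚ) + 1 - (q' : ℚ) / p' = (e : ℚ) / p' := by
    have h4 : (p' : ℚ) ≠ 0 := by
      have : 0 < p' := hp'
      exact_mod_cast this.ne'
    have h5 : ((n : ℚ) + 1) * p' = q' + e := by exact_mod_cast he
    field_simp
    linarith
  have three : ∀ s t : WithTop (Fin (k + 1)), 2 ≤ k ∨ 1 ≤ k → ∃ l, l ≠ s ∧ l ≠ t := by
    intro s t h1
    refine exists_third ?_ s t
    have h2 : Fintype.card (Option (Fin (k + 1))) = k + 2 := by
      rw [Fintype.card_option, Fintype.card_fin]
    have h3 : Fintype.card (WithTop (Fin (k + 1))) = k + 2 := h2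
    omega
  have three' : ∀ s t : Fin (k + 1), 2 ≤ k → ∃ l, l ≠ s ∧ l ≠ t := by
    intro s t h1
    refine exists_third ?_ s t
    rw [Fintype.card_fin]
    omega
  rcases Nat.eq_zero_or_pos e with he0 | he1
  · -- the last invariant is zero
    have hk2 : 2 ≤ k := by
      rcases hk with h1 | ⟨-, h1⟩
      · exact h1
      · omega
    have hSg : S ≤ g := by
      rw [he0, pow_zero] at hy'
      have h1 : (1 : Aut X) ≤ y :=
        root_le (Commute.one_left y) hp' (by rw [one_pow]; exact hy')
      have := mul_le_mul_right h1 S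
      rwa [mul_one, hy, mul_inv_cancel_left] at this
    obtain ⟨a, m, ha, ham, i, j, hij, h1, h2, h3⟩ := Pool.Agent.J6H6.JN.realizable
      (x := A) (g := g) (p := p) (q := q) (fun s t => three' s t hk2) ⟨0⟩
      (fun i => (hT i).pos.2) D.comm hApos D.pos
      (fun i j l hij hjl => (D.triple i j l hij hjl).trans hSg) (fun i => D.rat i _ _ (hT i))
    refine ⟨a, m, ha, ham, some i, some j, by simpa using hij, h1, h2, fun l hl1 hl2 => ?_⟩
    cases l with
    | none =>
      show (n : ℚ) + 1 - (q' : ℚ) / p' < _
      rw [hr, he0, Nat.cast_zero, zero_div]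
      have : (0 : ℚ) < m := by exact_mod_cast (lt_trans ha ham)
      positivity
    | some l => exact h3 l (by simpa using hl1) (by simpa using hl2)
  · -- the last invariant is positive
    have hk1 : 2 ≤ k ∨ 1 ≤ k := by
      rcases hk with h1 | ⟨h1, -⟩
      · exact Or.inl h1
      · exact Or.inr h1
    have hypos : ∀ w, w < y w := pos_of_pow D.pos he1 hy'
    have hSg : S ≤ g := by
      intro w
      have := (hypos w).le
      rw [hy, Aut.mul_apply, ← Aut.le_iff S, Aut.self_inv] at this
      exact this
    set x : WithTop (Fin (k + 1)) → Aut X := fun o => Option.elim o y A with hx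
    set P : WithTop (Fin (k + 1)) → ℕ := fun o => Option.elim o e p with hP
    set Q : WithTop (Fin (k + 1)) → ℕ := fun o => Option.elim o p' q with hQ
    have hmain := Pool.Agent.J6H6.JN.realizable (ι := WithTop (Fin (k + 1)))
      (x := x) (g := g) (p := P) (q := Q) (fun s t => three s t hk1) ⟨⊤⟩
      (fun o => by
        cases o with
        | top => exact hp'
        | coe i => exact (hT i).pos.2)
      (fun o => by
        cases o with
        | top => exact hcy
        | coe i => exact D.comm i)
      (fun o => by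
        cases o with
        | top => exact hypos
        | coe i => exact hApos i)
      D.pos
      (fun s t u hst htu => by
        cases s with
        | top => exact absurd hst not_top_lt
        | coe i =>
          cases t with
          | top => exact absurd htu not_top_lt
          | coe j =>
            have hij : i < j := WithTop.coe_lt_coe.mp hst
            cases u with
            | top =>
              show A i * A j * (S⁻¹ * g) ≤ g
              calc A i * A j * (S⁻¹ * g) ≤ S * (S⁻¹ * g) := mul_le_mul_left (D.pair i j hij) _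
                _ = g := mul_inv_cancel_left _ _
            | coe l =>
              have hjl : j < l := WithTop.coe_lt_coe.mp htu
              exact (D.triple i j l hij hjl).trans hSg)
      (fun o => by
        cases o with
        | top => exact hy'
        | coe i => exact D.rat i _ _ (hT i))
    have e1 : (fun o : WithTop (Fin (k + 1)) => (P o : ℚ) / (Q o : ℚ)) =
        invariant n p q p' q' := by
      funext o
      cases o with
      | top => exact hr.symm
      | coe i => rfl
    rw [e1] at hmain
    exact hmain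

end final

end Pool.Agent.J6H6.JN.TSum
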